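import Pool.Agent.Work.MP_b0497c_an.Forced.S.Stmts
import Pool.Agent.Work.MP_b0497c_an.Forced.W.StmtsB

set_option autoImplicit false

/-!
# Theorem S', part I: smoothness of the averages of the forced solution (claims)
-/

open scoped ContDiff Matrix
open Set Filter Topology MeasureTheory

namespace Pool.Agent.Work.MP_b0497c_an.Forced.S

open Pool.Agent.Work.MP_b0497c_an.Forced.W (Lev Sm Sym Pb Qp Phi)

/-- The test function `phi` has derivatives up to order `m` bounded by `D` on the unit ball. -/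
def TB (phi : V3 → ℝ) (m : ℕ) (D : ℝ) : Prop :=
  ∀ m' ≤ m, ∀ x : V3, ‖x‖ ≤ 1 → ‖iteratedFDeriv ℝ m' phi x‖ ≤ D

/-- I1: differentiation of parametric integrals with a compactly supported weight. -/
def claimI1 : Prop := ∀ (h : ℝ × V3 → ℝ) (w : V3 → ℝ), ContDiff ℝ ∞ h → Continuous w →
    (∀ y, 1 ≤ ‖y‖ → w y = 0) →
    ContDiff ℝ ∞ (fun t => ∫ y, h (t, y) * w y) ∧
    ∀ (j : ℕ) (t : ℝ), iteratedDeriv j (fun t => ∫ y, h (t, y) * w y) t =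
      ∫ y, iteratedDeriv j (fun τ => h (τ, y)) t * w y

/-- I2: averages of symbols in physical variables: time derivatives cost only powers of `Lam`. -/
def claimI2 : Prop := ∀ (ι : Type) (S : Lev ι) (mu : ι → ℝ) (f : Sm ι), (∀ i, 0 ≤ mu i) →
    f ∈ Sym S.Lam S.I (fun i _ => mu i) Pb Qp →
    (∀ i (phi : V3 → ℝ), ContDiff ℝ ∞ phi →
      ContDiff ℝ ∞ (fun t => ∫ x, phi x * f.1 i (Phi S i (t, x)))) ∧
    ∀ j : ℕ, ∃ n : ℕ, ∀ i (phi : V3 → ℝ), ContDiff ℝ ∞ phi → ∀ D : ℝ, TB phi j D →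
      ∀ t ∈ S.I i, |iteratedDeriv j (fun t => ∫ x, phi x * f.1 i (Phi S i (t, x))) t| ≤
        S.Lam i ^ n * mu i * D

/-- Output of the WKB module, as in `claimWKB`, for given fields. -/
def Out {ι : Type} (S : Lev ι) (J : ℕ) (W : ι → ℝ → V3 → V3) (q : ι → ℝ → V3 → ℝ)
    (g : ι → ℝ → V3 → V3) : Prop :=
    (∀ i, ContDiff ℝ ∞ (fun z : ℝ × V3 => W i z.1 z.2)) ∧
    (∀ i, ContDiff ℝ ∞ (fun z : ℝ × V3 => q i z.1 z.2)) ∧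
    (∀ i, ContDiff ℝ ∞ (fun z : ℝ × V3 => g i z.1 z.2)) ∧
    (∀ i t x, t ≤ S.s i → W i t x = 0 ∧ q i t x = 0 ∧ g i t x = 0) ∧
    (∀ i, ∀ t ∈ Icc (S.s i) (S.e i + S.del i), ∀ x, S.R i < ‖x‖ →
      W i t x = 0 ∧ q i t x = 0 ∧ g i t x = 0) ∧
    (∀ i t x, S.e i + S.del i ≤ t → g i t x = 0) ∧
    (∀ i t x, ∑ k, fderiv ℝ (fun y => W i t y k) x (Pi.single k 1) = 0) ∧
    (∀ i, ∀ t ≤ S.e i, ∀ x j,
      deriv (fun τ => W i τ x j) t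
        + ∑ k, (S.M i t *ᵥ x) k * fderiv ℝ (fun y => W i t y j) x (Pi.single k 1)
        + (S.M i t *ᵥ W i t x) j
        + ∑ k, W i t x k * fderiv ℝ (fun y => W i t y j) x (Pi.single k 1)
        + fderiv ℝ (fun y => q i t y) x (Pi.single j 1) = g i t x j) ∧
    (∀ i, ∃ η : ℝ → ℝ, (∀ t, 0 ≤ η t ∧ η t ≤ 1) ∧ (∀ t, S.s i + S.del i ≤ t → η t = 1) ∧
      ∀ t x, ‖S.Fi i t *ᵥ x‖ < S.rho i / 2 → S.Nf i * |S.K i t ⬝ᵥ x| ≤ 1 / 12 →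
        W i t x = (η t * (S.K i t ⬝ᵥ x)) • S.w i t) ∧
    ∀ m : ℕ, ∃ n : ℕ, ∀ i, ∀ z : ℝ × V3,
      ‖iteratedFDeriv ℝ m (fun z : ℝ × V3 => g i z.1 z.2) z‖ ≤
        S.Lam i ^ n * ((1 + S.a i) ^ 2 * ((S.Nf i * S.rho i) ^ 2)⁻¹
          + (S.Nf i * S.rho i) ^ m * (S.b i + ((1 + S.a i) / (S.Nf i * S.rho i)) ^ J))

/-- The WKB module together with averages of the packets (with an end cut-off). -/
def claimWKB2 : Prop := ∀ (ι : Type) (S : Lev ι) (J : ℕ),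
  ∃ (W : ι → ℝ → V3 → V3) (q : ι → ℝ → V3 → ℝ) (g : ι → ℝ → V3 → V3), Out S J W q g ∧
    ∃ H : ι → (V3 → ℝ) → Fin 3 → ℝ → ℝ,
      (∀ i (phi : V3 → ℝ), ContDiff ℝ ∞ phi → ∀ a, ContDiff ℝ ∞ (H i phi a) ∧
        (∀ t ≤ S.e i, H i phi a t = ∫ x, phi x * W i t x a) ∧
        (∀ t, t ≤ S.s i → H i phi a t = 0) ∧ (∀ t, S.e i + S.del i ≤ t → H i phi a t = 0)) ∧
      ∀ j : ℕ, ∃ n : ℕ, ∀ i (phi : V3 → ℝ), ContDiff ℝ ∞ phi → ∀ D : ℝ, TB phi j D →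
        ∀ a t, |iteratedDeriv j (H i phi a) t| ≤
          S.Lam i ^ n * ((1 + S.a i) / (S.Nf i * S.rho i)) * D

/-- I3: packets for a cascade together with summable bounds for their averages. -/
def claimI3 : Prop := claimWKB2 → ∀ c : Casc, ∃ (P : Pk c) (H : ℕ → (V3 → ℝ) → Fin 3 → ℝ → ℝ),
    (∀ k (phi : V3 → ℝ), ContDiff ℝ ∞ phi → ∀ a, ContDiff ℝ ∞ (H k phi a) ∧
      (∀ t ≤ c.e k, H k phi a t = ∫ x, phi x * P.w k t x a) ∧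
      (∀ t, t ≤ c.s k → H k phi a t = 0) ∧ (∀ t, c.e k + c.del k ≤ t → H k phi a t = 0)) ∧
    ∀ j : ℕ, ∃ B : ℕ → ℝ, Summable B ∧ ∀ k (phi : V3 → ℝ), ContDiff ℝ ∞ phi → ∀ D : ℝ,
      TB phi j D → ∀ a t, |iteratedDeriv j (H k phi a) t| ≤ B k * D

/-- The averages of a field on the whole space. -/
def AvgOn (T : ℝ) (u : ℝ → V3 → V3) : Prop := ∃ G : (V3 → ℝ) → Fin 3 → ℝ → ℝ,
    (∀ phi : V3 → ℝ, ContDiff ℝ ∞ phi → ∀ a, ContDiff ℝ ∞ (G phi a) ∧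
      (∀ t < T, G phi a t = ∫ x, phi x * u t x a) ∧ (∀ t, t ∉ Icc (0 : ℝ) 3 → G phi a t = 0)) ∧
    ∀ j : ℕ, ∃ (C : ℝ) (m : ℕ), ∀ phi : V3 → ℝ, ContDiff ℝ ∞ phi → ∀ D : ℝ, TB phi m D →
      ∀ a t, |iteratedDeriv j (G phi a) t| ≤ C * D

/-- I4: averages of the limit. -/
def claimI4 : Prop := ∀ (c : Casc) (P : Pk c) (H : ℕ → (V3 → ℝ) → Fin 3 → ℝ → ℝ)
    (w0 : ℝ → V3 → V3), Base c w0 →
    (∀ k (phi : V3 → ℝ), ContDiff ℝ ∞ phi → ∀ a, ContDiff ℝ ∞ (H k phi a) ∧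
      (∀ t ≤ c.e k, H k phi a t = ∫ x, phi x * P.w k t x a) ∧
      (∀ t, t ≤ c.s k → H k phi a t = 0) ∧ (∀ t, c.e k + c.del k ≤ t → H k phi a t = 0)) →
    (∀ j : ℕ, ∃ B : ℕ → ℝ, Summable B ∧ ∀ k (phi : V3 → ℝ), ContDiff ℝ ∞ phi → ∀ D : ℝ,
      TB phi j D → ∀ a t, |iteratedDeriv j (H k phi a) t| ≤ B k * D) →
    AvgOn c.Ts (Ui P w0)

/-- I5: from the whole space to the torus. -/
def claimI5 : Prop := ∀ (T : ℝ) (f u : ℝ → V3 → V3) (p : ℝ → V3 → ℝ), 0 < T → T < 3 →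
    R3Sol T f u p → AvgOn T u →
    ∃ (f' u' : ℝ → E3 → E3) (p' : ℝ → E3 → ℝ), TorusAvg T f' u' p'

end Pool.Agent.Work.MP_b0497c_an.Forced.S
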