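import Pool.Agent.Work.MP_b0497c_an.Forced.S.Stmts

set_option autoImplicit false

/-!
# B2: real Fourier series of smooth periodic functions
-/

open scoped ContDiff
open Set Filter Topology MeasureTheory

namespace Pool.Agent.Work.MP_b0497c_an.Forced.S

namespace B2

lemma two_pi_pos' : (0 : ℝ) < 2 * Real.pi := by positivity

/-- cosine integrals -/
noncomputable def A (g : ℝ → ℝ) (l : ℕ) : ℝ :=
  ∫ s in (0 : ℝ)..(2 * Real.pi), g s * Real.cos (l * s)

/-- sine integrals -/
noncomputable def B (g : ℝ → ℝ) (l : ℕ) : ℝ :=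
  ∫ s in (0 : ℝ)..(2 * Real.pi), g s * Real.sin (l * s)

lemma sin_end (l : ℕ) : Real.sin (l * (2 * Real.pi)) = 0 := by
  have := Real.sin_nat_mul_pi (2 * l)
  rw [← this]; congr 1; push_cast; ring

lemma cos_end (l : ℕ) : Real.cos (l * (2 * Real.pi)) = 1 := by
  exact Real.cos_nat_mul_two_pi l

lemma per_end {g : ℝ → ℝ} (hp : Per g) : g (2 * Real.pi) = g 0 := by
  have := hp 0; simpa using this

lemma per_deriv {g : ℝ → ℝ} (hp : Per g) : Per (deriv g) := by
  intro t
  have h : g = fun x => g (x + 2 * Real.pi) := by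
    funext x; exact (hp x).symm
  conv_rhs => rw [h]
  rw [deriv_comp_add_const]

lemma ibp_cos {g : ℝ → ℝ} (hg : ContDiff ℝ ∞ g) (_hp : Per g) (l : ℕ) (hl : 1 ≤ l) :
    A g l * l = - B (deriv g) l := by
  have hl0 : (l : ℝ) ≠ 0 := by positivity
  have hd : Differentiable ℝ g := hg.differentiable (by simp)
  have hc : Continuous (deriv g) := hg.continuous_deriv (by simp)
  have key := intervalIntegral.integral_mul_deriv_eq_deriv_mul (a := 0) (b := 2 * Real.pi)
    (u := g) (v := fun s => Real.sin (l * s)) (u' := deriv g)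
    (v' := fun s => Real.cos (l * s) * l)
    (fun x _ => (hd x).hasDerivAt)
    (fun x _ => by
      have h1 : HasDerivAt (fun s : ℝ => (l : ℝ) * s) (l : ℝ) x := by
        simpa using (hasDerivAt_id x).const_mul (l : ℝ)
      exact h1.sin)
    (hc.intervalIntegrable _ _)
    ((by fun_prop : Continuous fun s : ℝ => Real.cos (l * s) * l).intervalIntegrable _ _)
  simp only [sin_end, mul_zero, Real.sin_zero, sub_zero, zero_sub] at key
  unfold A B
  rw [← intervalIntegral.integral_mul_const, ← key]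
  congr 1; funext s; ring

lemma ibp_sin {g : ℝ → ℝ} (hg : ContDiff ℝ ∞ g) (hp : Per g) (l : ℕ) (hl : 1 ≤ l) :
    B g l * l = A (deriv g) l := by
  have hl0 : (l : ℝ) ≠ 0 := by positivity
  have hd : Differentiable ℝ g := hg.differentiable (by simp)
  have hc : Continuous (deriv g) := hg.continuous_deriv (by simp)
  have key := intervalIntegral.integral_mul_deriv_eq_deriv_mul (a := 0) (b := 2 * Real.pi)
    (u := g) (v := fun s => - Real.cos (l * s)) (u' := deriv g)
    (v' := fun s => Real.sin (l * s) * l)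
    (fun x _ => (hd x).hasDerivAt)
    (fun x _ => by
      have h1 : HasDerivAt (fun s : ℝ => (l : ℝ) * s) (l : ℝ) x := by
        simpa using (hasDerivAt_id x).const_mul (l : ℝ)
      have h2 := h1.cos.fun_neg
      exact h2.congr_deriv (by ring))
    (hc.intervalIntegrable _ _)
    ((by fun_prop : Continuous fun s : ℝ => Real.sin (l * s) * l).intervalIntegrable _ _)
  rw [cos_end, per_end hp] at key
  simp only [mul_zero, Real.cos_zero, sub_self, zero_sub, mul_neg,
    intervalIntegral.integral_neg, neg_neg] at key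
  unfold A B
  rw [← intervalIntegral.integral_mul_const, ← key]
  congr 1; funext s; ring

lemma abs_int_le {h : ℝ → ℝ} {D : ℝ} (hb : ∀ s, |h s| ≤ D) :
    |∫ s in (0 : ℝ)..(2 * Real.pi), h s| ≤ 2 * Real.pi * D := by
  have := intervalIntegral.norm_integral_le_of_norm_le_const (a := 0) (b := 2 * Real.pi)
    (C := D) (f := h) (fun x _ => hb x)
  rw [Real.norm_eq_abs, sub_zero, abs_of_pos two_pi_pos'] at this
  linarith

lemma abs_mul_cos_le {x y D : ℝ} (h : |x| ≤ D) : |x * Real.cos y| ≤ D := by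
  rw [abs_mul]
  exact (mul_le_of_le_one_right (abs_nonneg _) (Real.abs_cos_le_one _)).trans h

lemma abs_mul_sin_le {x y D : ℝ} (h : |x| ≤ D) : |x * Real.sin y| ≤ D := by
  rw [abs_mul]
  exact (mul_le_of_le_one_right (abs_nonneg _) (Real.abs_sin_le_one _)).trans h

lemma decay (j : ℕ) : ∀ (g : ℝ → ℝ) (D : ℝ), ContDiff ℝ ∞ g → Per g →
    (∀ t, |iteratedDeriv j g t| ≤ D) → ∀ l : ℕ, 1 ≤ l →
    (l : ℝ) ^ j * |A g l| ≤ 2 * Real.pi * D ∧ (l : ℝ) ^ j * |B g l| ≤ 2 * Real.pi * D := by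
  induction j with
  | zero =>
    intro g D hg hp hb l hl
    simp only [iteratedDeriv_zero] at hb
    simp only [pow_zero, one_mul]
    exact ⟨abs_int_le fun s => abs_mul_cos_le (hb s), abs_int_le fun s => abs_mul_sin_le (hb s)⟩
  | succ j ih =>
    intro g D hg hp hb l hl
    have hg' : ContDiff ℝ ∞ (deriv g) := by
      have h1 : ContDiff ℝ (∞ + 1) g := by simpa using hg
      exact (contDiff_succ_iff_deriv.1 h1).2.2
    have := ih (deriv g) D hg' (per_deriv hp) (fun t => by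
      rw [← iteratedDeriv_succ']; exact hb t) l hl
    have h1 := ibp_cos hg hp l hl
    have h2 := ibp_sin hg hp l hl
    have hl0 : (0 : ℝ) ≤ l := by positivity
    constructor
    · calc (l : ℝ) ^ (j + 1) * |A g l| = (l : ℝ) ^ j * |A g l * l| := by
            rw [abs_mul, abs_of_nonneg hl0]; ring
        _ = (l : ℝ) ^ j * |B (deriv g) l| := by rw [h1, abs_neg]
        _ ≤ _ := this.2
    · calc (l : ℝ) ^ (j + 1) * |B g l| = (l : ℝ) ^ j * |B g l * l| := by
            rw [abs_mul, abs_of_nonneg hl0]; ring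
        _ = (l : ℝ) ^ j * |A (deriv g) l| := by rw [h2]
        _ ≤ _ := this.1

lemma coef_even (g : ℝ → ℝ) (l : ℕ) (hl : 1 ≤ l) : coef (2 * l) g = Real.pi⁻¹ * A g l := by
  unfold coef A tau
  rw [if_neg (by omega)]
  simp

lemma coef_zero (g : ℝ → ℝ) : coef 0 g = (2 * Real.pi)⁻¹ * A g 0 := by
  unfold coef A tau
  simp

lemma coef_odd (g : ℝ → ℝ) (l : ℕ) : coef (2 * l + 1) g = Real.pi⁻¹ * B g (l + 1) := by
  unfold coef B tau
  rw [if_neg (by omega)]
  have h1 : ¬ Even (2 * l + 1) := by simp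
  have h2 : (2 * l + 1 + 1) / 2 = l + 1 := by omega
  simp only [h1, h2, if_false]

lemma tau_even (l : ℕ) (t : ℝ) : tau (2 * l) t = Real.cos (l * t) := by
  unfold tau; simp

lemma tau_odd (l : ℕ) (t : ℝ) : tau (2 * l + 1) t = Real.sin ((l + 1 : ℕ) * t) := by
  unfold tau
  have h1 : ¬ Even (2 * l + 1) := by simp
  have h2 : (2 * l + 1 + 1) / 2 = l + 1 := by omega
  simp only [h1, h2, if_false]

lemma abs_coef_le (g : ℝ → ℝ) (n : ℕ) (hn : 1 ≤ n) (C : ℝ)
    (hA : |A g ((n + 1) / 2)| ≤ C) (hB : |B g ((n + 1) / 2)| ≤ C) :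
    |coef n g| ≤ Real.pi⁻¹ * C := by
  have hpi : (0 : ℝ) < Real.pi⁻¹ := inv_pos.2 Real.pi_pos
  rcases Nat.even_or_odd' n with ⟨l, rfl | rfl⟩
  · rw [coef_even g l (by omega), abs_mul, abs_of_pos hpi]
    have : (2 * l + 1) / 2 = l := by omega
    rw [this] at hA
    gcongr
  · rw [coef_odd, abs_mul, abs_of_pos hpi]
    have : (2 * l + 1 + 1) / 2 = l + 1 := by omega
    rw [this] at hB
    gcongr

theorem bound : ∃ K : ℕ → ℝ, ∀ (j : ℕ) (g : ℝ → ℝ) (D : ℝ), ContDiff ℝ ∞ g → Per g →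
    (∀ t, |g t| ≤ D) →
      (∀ t, |iteratedDeriv j g t| ≤ D) → ∀ n : ℕ, ((n : ℝ) + 1) ^ j * |coef n g| ≤ K j * D := by
  refine ⟨fun j => 2 * 3 ^ j, ?_⟩
  intro j g D hg hp hb hbj n
  have hD : 0 ≤ D := (abs_nonneg _).trans (hb 0)
  rcases Nat.eq_zero_or_pos n with rfl | hn
  · rw [coef_zero]
    have h1 : |A g 0| ≤ 2 * Real.pi * D := abs_int_le fun s => abs_mul_cos_le (hb s)
    have h2 : |(2 * Real.pi)⁻¹ * A g 0| ≤ D := by
      rw [abs_mul, abs_of_pos (inv_pos.2 two_pi_pos')]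
      rw [inv_mul_le_iff₀ two_pi_pos']
      exact h1
    have h3 : (1 : ℝ) ≤ 3 ^ j := one_le_pow₀ (by norm_num)
    simp only [Nat.cast_zero, zero_add, one_pow, one_mul]
    nlinarith
  · set l := (n + 1) / 2 with hl
    have hl1 : 1 ≤ l := by omega
    have hl2 : n + 1 ≤ 3 * l := by omega
    have hd := decay j g D hg hp hbj l hl1
    have hlp : (0 : ℝ) < (l : ℝ) ^ j := by positivity
    have hA : |A g l| ≤ 2 * Real.pi * D / (l : ℝ) ^ j := by
      rw [le_div_iff₀ hlp]; linarith [hd.1]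
    have hB : |B g l| ≤ 2 * Real.pi * D / (l : ℝ) ^ j := by
      rw [le_div_iff₀ hlp]; linarith [hd.2]
    have h1 := abs_coef_le g n hn _ hA hB
    have h2 : ((n : ℝ) + 1) ^ j ≤ (3 * (l : ℝ)) ^ j := by
      have : (n : ℝ) + 1 ≤ 3 * l := by exact_mod_cast hl2
      gcongr
    calc ((n : ℝ) + 1) ^ j * |coef n g|
        ≤ (3 * (l : ℝ)) ^ j * (Real.pi⁻¹ * (2 * Real.pi * D / (l : ℝ) ^ j)) := by
          gcongr
      _ = 2 * 3 ^ j * D := by
          rw [mul_pow]
          have := Real.pi_ne_zero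
          field_simp

/-! ### The series -/

local instance : Fact ((0 : ℝ) < 2 * Real.pi) := ⟨two_pi_pos'⟩

/-- exponential coefficients -/
noncomputable def cc (g : ℝ → ℝ) (k : ℤ) : ℂ :=
  (1 / (2 * Real.pi) : ℝ) • ∫ s in (0 : ℝ)..(2 * Real.pi),
    Complex.exp (-(Complex.I * k * s)) * (g s : ℂ)

lemma cc_nat {g : ℝ → ℝ} (hg : Continuous g) (l : ℕ) :
    cc g l = (1 / (2 * Real.pi) : ℝ) • ((A g l : ℂ) - Complex.I * (B g l : ℂ)) := by
  unfold cc A B
  congr 1
  rw [← intervalIntegral.integral_ofReal, ← intervalIntegral.integral_ofReal,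
    ← intervalIntegral.integral_const_mul, ← intervalIntegral.integral_sub]
  · congr 1
    funext s
    have : -(Complex.I * ((l : ℤ) : ℂ) * s) = ((-(l * s) : ℝ) : ℂ) * Complex.I := by
      push_cast; ring
    rw [this, Complex.exp_mul_I, ← Complex.ofReal_cos, ← Complex.ofReal_sin, Real.cos_neg,
      Real.sin_neg]
    push_cast; ring
  · exact (by fun_prop : Continuous _).intervalIntegrable _ _
  · exact (by fun_prop : Continuous _).intervalIntegrable _ _

lemma cc_neg {g : ℝ → ℝ} (hg : Continuous g) (l : ℕ) :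
    cc g (-(l : ℤ)) = (1 / (2 * Real.pi) : ℝ) • ((A g l : ℂ) + Complex.I * (B g l : ℂ)) := by
  unfold cc A B
  congr 1
  rw [← intervalIntegral.integral_ofReal, ← intervalIntegral.integral_ofReal,
    ← intervalIntegral.integral_const_mul, ← intervalIntegral.integral_add]
  · congr 1
    funext s
    have : -(Complex.I * ((-(l : ℤ) : ℤ) : ℂ) * s) = (((l * s) : ℝ) : ℂ) * Complex.I := by
      push_cast; ring
    rw [this, Complex.exp_mul_I, ← Complex.ofReal_cos, ← Complex.ofReal_sin]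
    push_cast; ring
  · exact (by fun_prop : Continuous _).intervalIntegrable _ _
  · exact (by fun_prop : Continuous _).intervalIntegrable _ _

/-- second order decay -/
lemma decay2 {g : ℝ → ℝ} (hg : ContDiff ℝ ∞ g) (hp : Per g) :
    ∃ C : ℝ, ∀ l : ℕ, |A g l| ≤ C / ((l : ℝ) + 1) ^ 2 ∧ |B g l| ≤ C / ((l : ℝ) + 1) ^ 2 := by
  have bdd : ∀ h : ℝ → ℝ, Continuous h → Per h → ∃ D, ∀ t, |h t| ≤ D := by
    intro h hc hph
    obtain ⟨D, hD⟩ := (isCompact_Icc (a := (0 : ℝ)) (b := 2 * Real.pi)).exists_bound_of_continuousOn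
      hc.continuousOn
    refine ⟨D, fun t => ?_⟩
    have hper : Function.Periodic h (2 * Real.pi) := hph
    obtain ⟨y, hy, hy2⟩ := hper.exists_mem_Ico₀ two_pi_pos' t
    rw [hy2]
    exact hD y ⟨hy.1, hy.2.le⟩
  have hg1 : ContDiff ℝ ∞ (deriv g) := by
    have h1 : ContDiff ℝ (∞ + 1) g := by simpa using hg
    exact (contDiff_succ_iff_deriv.1 h1).2.2
  have hg2 : ContDiff ℝ ∞ (deriv (deriv g)) := by
    have h1 : ContDiff ℝ (∞ + 1) (deriv g) := by simpa using hg1
    exact (contDiff_succ_iff_deriv.1 h1).2.2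
  obtain ⟨D0, h0⟩ := bdd g hg.continuous hp
  obtain ⟨D2, h2⟩ := bdd _ hg2.continuous (per_deriv (per_deriv hp))
  have hD0 : 0 ≤ D0 := (abs_nonneg _).trans (h0 0)
  have hD2 : 0 ≤ D2 := (abs_nonneg _).trans (h2 0)
  have hd := decay 2 g D2 hg hp (fun t => by
    have : iteratedDeriv 2 g = deriv (deriv g) := by
      rw [iteratedDeriv_succ', iteratedDeriv_one]
    rw [this]; exact h2 t)
  have hpi := Real.pi_pos
  refine ⟨2 * Real.pi * D0 + 4 * (2 * Real.pi * D2), fun l => ?_⟩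
  rcases Nat.eq_zero_or_pos l with rfl | hl
  · have ha : |A g 0| ≤ 2 * Real.pi * D0 := abs_int_le fun s => abs_mul_cos_le (h0 s)
    have hb : |B g 0| ≤ 2 * Real.pi * D0 := abs_int_le fun s => abs_mul_sin_le (h0 s)
    simp only [Nat.cast_zero, zero_add, one_pow, div_one]
    constructor <;> nlinarith [mul_nonneg hpi.le hD2]
  · have hl1 : (1 : ℝ) ≤ l := by exact_mod_cast hl
    have h4 : ((l : ℝ) + 1) ^ 2 ≤ 4 * (l : ℝ) ^ 2 := by nlinarith
    have hp1 : (0 : ℝ) < ((l : ℝ) + 1) ^ 2 := by positivity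
    have := hd l hl
    constructor
    · rw [le_div_iff₀ hp1]
      have h5 : |A g l| * ((l : ℝ) + 1) ^ 2 ≤ |A g l| * (4 * (l : ℝ) ^ 2) := by gcongr
      nlinarith [mul_nonneg hpi.le hD0, this.1]
    · rw [le_div_iff₀ hp1]
      have h5 : |B g l| * ((l : ℝ) + 1) ^ 2 ≤ |B g l| * (4 * (l : ℝ) ^ 2) := by gcongr
      nlinarith [mul_nonneg hpi.le hD0, this.2]

lemma summable_sq (C : ℝ) : Summable fun l : ℕ => C / ((l : ℝ) + 1) ^ 2 := by
  have h : Summable fun l : ℕ => (1 : ℝ) / ((l + 1 : ℕ) : ℝ) ^ 2 :=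
    (summable_nat_add_iff 1).2 (Real.summable_one_div_nat_pow.2 one_lt_two)
  refine (h.mul_left C).congr fun l => ?_
  push_cast; ring

lemma cc_summable {g : ℝ → ℝ} (hg : ContDiff ℝ ∞ g) (hp : Per g) : Summable (cc g) := by
  obtain ⟨C, hC⟩ := decay2 hg hp
  have hpi := Real.pi_pos
  have nb : ∀ l : ℕ, ‖(A g l : ℂ)‖ + ‖Complex.I * (B g l : ℂ)‖ ≤ 2 * (C / ((l : ℝ) + 1) ^ 2) := by
    intro l
    rw [norm_mul, Complex.norm_I, one_mul, Complex.norm_real, Complex.norm_real,
      Real.norm_eq_abs, Real.norm_eq_abs]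
    linarith [(hC l).1, (hC l).2]
  refine Summable.of_nat_of_neg ?_ ?_
  · refine Summable.of_norm_bounded
      (g := fun l : ℕ => (1 / (2 * Real.pi)) * (2 * (C / ((l : ℝ) + 1) ^ 2)))
      (((summable_sq C).mul_left 2).mul_left _) fun l => ?_
    rw [cc_nat hg.continuous, norm_smul, Real.norm_eq_abs, abs_of_pos (by positivity)]
    gcongr
    exact (norm_sub_le _ _).trans (nb l)
  · refine Summable.of_norm_bounded
      (g := fun l : ℕ => (1 / (2 * Real.pi)) * (2 * (C / ((l : ℝ) + 1) ^ 2)))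
      (((summable_sq C).mul_left 2).mul_left _) fun l => ?_
    rw [cc_neg hg.continuous, norm_smul, Real.norm_eq_abs, abs_of_pos (by positivity)]
    gcongr
    exact (norm_add_le _ _).trans (nb l)

lemma complex_series {g : ℝ → ℝ} (hg : ContDiff ℝ ∞ g) (hp : Per g) (t : ℝ) :
    HasSum (fun k : ℤ => cc g k * Complex.exp (Complex.I * k * t)) (g t : ℂ) := by
  have hper : Function.Periodic (fun s : ℝ => (g s : ℂ)) (2 * Real.pi) := fun s => by
    simp only [hp s]
  have hcont : Continuous (hper.lift : AddCircle (2 * Real.pi) → ℂ) := by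
    refine continuous_coinduced_dom.2 ?_
    change Continuous ((hper.lift : AddCircle (2 * Real.pi) → ℂ) ∘
      (QuotientAddGroup.mk : ℝ → AddCircle (2 * Real.pi)))
    have : (hper.lift : AddCircle (2 * Real.pi) → ℂ) ∘
      (QuotientAddGroup.mk : ℝ → AddCircle (2 * Real.pi)) = fun s : ℝ => (g s : ℂ) := by
      funext s; exact hper.lift_coe s
    rw [this]
    exact Complex.continuous_ofReal.comp hg.continuous
  let F : C(AddCircle (2 * Real.pi), ℂ) := ⟨hper.lift, hcont⟩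
  have hF : ∀ s : ℝ, F (s : AddCircle (2 * Real.pi)) = (g s : ℂ) := fun s => hper.lift_coe s
  have hfour : ∀ (k : ℤ) (s : ℝ), (fourier k) (s : AddCircle (2 * Real.pi)) =
      Complex.exp (Complex.I * k * s) := by
    intro k s
    rw [fourier_coe_apply]
    congr 1
    have : (Real.pi : ℂ) ≠ 0 := by exact_mod_cast Real.pi_ne_zero
    push_cast
    field_simp
  have hcoef : ∀ k : ℤ, fourierCoeff F k = cc g k := by
    intro k
    rw [fourierCoeff_eq_intervalIntegral F k 0]
    unfold cc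
    simp only [zero_add, smul_eq_mul]
    congr 1
    refine intervalIntegral.integral_congr fun s _ => ?_
    simp only [hF, hfour]
    congr 2
    push_cast; ring
  have hs : Summable (fourierCoeff F) := by
    have : fourierCoeff F = cc g := funext hcoef
    rw [this]; exact cc_summable hg hp
  have := has_pointwise_sum_fourier_series_of_summable hs (t : AddCircle (2 * Real.pi))
  simp only [hF, hfour, hcoef, smul_eq_mul] at this
  exact this

lemma pair_term {g : ℝ → ℝ} (hg : Continuous g) (t : ℝ) (l : ℕ) :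
    cc g (l : ℤ) * Complex.exp (Complex.I * ((l : ℤ) : ℂ) * t) +
      cc g (-(l : ℤ)) * Complex.exp (Complex.I * ((-(l : ℤ) : ℤ) : ℂ) * t) =
    ((Real.pi⁻¹ * (A g l * Real.cos (l * t) + B g l * Real.sin (l * t)) : ℝ) : ℂ) := by
  have h1 : Complex.I * ((l : ℤ) : ℂ) * t = ((l * t : ℝ) : ℂ) * Complex.I := by push_cast; ring
  have h2 : Complex.I * ((-(l : ℤ) : ℤ) : ℂ) * t = ((-(l * t) : ℝ) : ℂ) * Complex.I := by
    push_cast; ring
  rw [cc_nat hg, cc_neg hg, h1, h2, Complex.exp_mul_I, Complex.exp_mul_I, ← Complex.ofReal_cos,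
    ← Complex.ofReal_sin, ← Complex.ofReal_cos, ← Complex.ofReal_sin, Real.cos_neg, Real.sin_neg,
    Complex.real_smul, Complex.real_smul]
  push_cast
  have hI : Complex.I * Complex.I = -1 := Complex.I_mul_I
  have hpi : (Real.pi : ℂ) ≠ 0 := by exact_mod_cast Real.pi_ne_zero
  field_simp
  linear_combination (-2 * (B g l : ℂ) * Complex.sin (l * t)) * hI

lemma real_series {g : ℝ → ℝ} (hg : ContDiff ℝ ∞ g) (hp : Per g) (t : ℝ) :
    HasSum (fun l : ℕ => Real.pi⁻¹ * (A g l * Real.cos (l * t) + B g l * Real.sin (l * t)))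
      (g t + (2 * Real.pi)⁻¹ * A g 0) := by
  have h := (complex_series hg hp t).nat_add_neg
  rw [← Complex.hasSum_ofReal]
  convert h using 1
  · funext l
    exact (pair_term hg.continuous t l).symm
  · have h0 := cc_nat hg.continuous 0
    have hB : B g 0 = 0 := by unfold B; simp
    rw [hB] at h0
    simp only [Nat.cast_zero, Complex.ofReal_zero, mul_zero, sub_zero, Complex.real_smul] at h0
    push_cast
    simp only [mul_zero, zero_mul, Complex.exp_zero, mul_one]
    rw [h0]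
    push_cast
    ring

lemma summable_A {g : ℝ → ℝ} (hg : ContDiff ℝ ∞ g) (hp : Per g) (t : ℝ) :
    Summable fun l : ℕ => Real.pi⁻¹ * (A g l * Real.cos (l * t)) := by
  obtain ⟨C, hC⟩ := decay2 hg hp
  refine Summable.mul_left _ (Summable.of_norm_bounded (summable_sq C) fun l => ?_)
  rw [Real.norm_eq_abs]
  exact abs_mul_cos_le (hC l).1

lemma summable_B {g : ℝ → ℝ} (hg : ContDiff ℝ ∞ g) (hp : Per g) (t : ℝ) :
    Summable fun l : ℕ => Real.pi⁻¹ * (B g l * Real.sin (l * t)) := by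
  obtain ⟨C, hC⟩ := decay2 hg hp
  refine Summable.mul_left _ (Summable.of_norm_bounded (summable_sq C) fun l => ?_)
  rw [Real.norm_eq_abs]
  exact abs_mul_sin_le (hC l).2

lemma even_part (g : ℝ → ℝ) (t a : ℝ)
    (ha : HasSum (fun l : ℕ => Real.pi⁻¹ * (A g l * Real.cos (l * t))) a) :
    HasSum (fun k : ℕ => coef (2 * k) g * tau (2 * k) t) (a - (2 * Real.pi)⁻¹ * A g 0) := by
  have ht0 : tau 0 t = 1 := by unfold tau; simp
  have h0 : coef (2 * 0) g * tau (2 * 0) t = (2 * Real.pi)⁻¹ * A g 0 := by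
    rw [mul_zero, coef_zero, ht0, mul_one]
  have e0 : Real.pi⁻¹ * (A g 0 * Real.cos (((0 : ℕ) : ℝ) * t)) = Real.pi⁻¹ * A g 0 := by
    simp
  have ha' := (hasSum_nat_add_iff' 1).2 ha
  rw [Finset.sum_range_one, e0] at ha'
  rw [← hasSum_nat_add_iff' 1, Finset.sum_range_one, h0]
  have e1 : (fun k : ℕ => coef (2 * (k + 1)) g * tau (2 * (k + 1)) t) =
      fun n => Real.pi⁻¹ * (A g (n + 1) * Real.cos (((n + 1 : ℕ) : ℝ) * t)) := by
    funext k
    rw [coef_even g (k + 1) (by omega), tau_even]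
    ring
  have e2 : a - (2 * Real.pi)⁻¹ * A g 0 - (2 * Real.pi)⁻¹ * A g 0 = a - Real.pi⁻¹ * A g 0 := by
    have : (2 * Real.pi)⁻¹ = Real.pi⁻¹ / 2 := by
      rw [mul_inv]; ring
    rw [this]; ring
  rw [e1, e2]
  exact ha'

lemma odd_part (g : ℝ → ℝ) (t b : ℝ)
    (hb : HasSum (fun l : ℕ => Real.pi⁻¹ * (B g l * Real.sin (l * t))) b) :
    HasSum (fun k : ℕ => coef (2 * k + 1) g * tau (2 * k + 1) t) b := by
  have e0 : Real.pi⁻¹ * (B g 0 * Real.sin (((0 : ℕ) : ℝ) * t)) = 0 := by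
    simp
  have hb' := (hasSum_nat_add_iff' 1).2 hb
  rw [Finset.sum_range_one, e0, sub_zero] at hb'
  have e1 : (fun k : ℕ => coef (2 * k + 1) g * tau (2 * k + 1) t) =
      fun n => Real.pi⁻¹ * (B g (n + 1) * Real.sin (((n + 1 : ℕ) : ℝ) * t)) := by
    funext k
    rw [coef_odd, tau_odd]
    ring
  rw [e1]
  exact hb'

theorem series {g : ℝ → ℝ} (hg : ContDiff ℝ ∞ g) (hp : Per g) (t : ℝ) :
    HasSum (fun n => coef n g * tau n t) (g t) := by
  have ha := (summable_A hg hp t).hasSum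
  have hb := (summable_B hg hp t).hasSum
  set a := ∑' l : ℕ, Real.pi⁻¹ * (A g l * Real.cos (l * t))
  set b := ∑' l : ℕ, Real.pi⁻¹ * (B g l * Real.sin (l * t))
  have e1 : (fun l : ℕ => Real.pi⁻¹ * (A g l * Real.cos (l * t)) +
      Real.pi⁻¹ * (B g l * Real.sin (l * t))) =
      fun l : ℕ => Real.pi⁻¹ * (A g l * Real.cos (l * t) + B g l * Real.sin (l * t)) := by
    funext l; ring
  have hab := ha.add hb
  rw [e1] at hab
  have hsum : a + b = g t + (2 * Real.pi)⁻¹ * A g 0 := hab.unique (real_series hg hp t)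
  have h3 : HasSum (fun n => coef n g * tau n t) (a - (2 * Real.pi)⁻¹ * A g 0 + b) :=
    HasSum.even_add_odd (f := fun n => coef n g * tau n t) (even_part g t a ha)
      (odd_part g t b hb)
  have h4 : a - (2 * Real.pi)⁻¹ * A g 0 + b = g t := by linarith
  rw [h4] at h3
  exact h3

end B2

theorem prfB2 : claimB2 := ⟨fun _ hg hp t => B2.series hg hp t, B2.bound⟩

end Pool.Agent.Work.MP_b0497c_an.Forced.S
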