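import Pool.Agent.Work.MP_b0497c_an.Forced.S.Stmts

set_option autoImplicit false

/-!
# Item B5: factorisation of rapidly decreasing families of periodic functions
-/

open scoped ContDiff
open Set Filter Topology MeasureTheory

namespace Pool.Agent.Work.MP_b0497c_an.Forced.S

namespace B5

/-- Decay of the Fourier coefficients of a rapidly decreasing family. -/
theorem coef_bound (hB2 : claimB2) (F : ℕ → ℝ → ℝ) (hF : RD F) (hFp : ∀ n, Per (F n)) :
    ∀ k j : ℕ, ∃ C : ℝ, ∀ n i : ℕ,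
      ((n : ℝ) + 1) ^ k * (((i : ℝ) + 1) ^ j * |coef i (F n)|) ≤ C := by
  intro k j
  obtain ⟨K, hK⟩ := hB2.2
  obtain ⟨C0, hC0⟩ := hF.2 0 k
  obtain ⟨C1, hC1⟩ := hF.2 j k
  refine ⟨K j * max C0 C1, fun n i => ?_⟩
  have hn : (0 : ℝ) < ((n : ℝ) + 1) ^ k := by positivity
  have h := hK j (F n) (max C0 C1 / ((n : ℝ) + 1) ^ k) (hF.1 n) (hFp n)
    (fun t => by
      rw [le_div_iff₀ hn, mul_comm]
      have := hC0 n t
      rw [norm_iteratedFDeriv_zero, Real.norm_eq_abs] at this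
      exact this.trans (le_max_left _ _))
    (fun t => by
      rw [le_div_iff₀ hn, mul_comm]
      have := hC1 n t
      rw [norm_iteratedFDeriv_eq_norm_iteratedDeriv, Real.norm_eq_abs] at this
      exact this.trans (le_max_right _ _)) i
  calc ((n : ℝ) + 1) ^ k * (((i : ℝ) + 1) ^ j * |coef i (F n)|)
      ≤ ((n : ℝ) + 1) ^ k * (K j * (max C0 C1 / ((n : ℝ) + 1) ^ k)) :=
        mul_le_mul_of_nonneg_left h hn.le
    _ = K j * max C0 C1 := by field_simp

/-- The supremum over the family. -/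
noncomputable def AA (F : ℕ → ℝ → ℝ) (j i : ℕ) : ℝ := ⨆ n : ℕ, ((n : ℝ) + 1) ^ j * |coef i (F n)|

theorem AA_bdd (F : ℕ → ℝ → ℝ) (h : ∀ k j : ℕ, ∃ C : ℝ, ∀ n i : ℕ,
      ((n : ℝ) + 1) ^ k * (((i : ℝ) + 1) ^ j * |coef i (F n)|) ≤ C) (j i : ℕ) :
    BddAbove (range (fun n : ℕ => ((n : ℝ) + 1) ^ j * |coef i (F n)|)) := by
  obtain ⟨C, hC⟩ := h j 0
  refine ⟨C, ?_⟩
  rintro _ ⟨n, rfl⟩
  have := hC n i
  simpa using this

theorem le_AA (F : ℕ → ℝ → ℝ) (h : ∀ k j : ℕ, ∃ C : ℝ, ∀ n i : ℕ,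
      ((n : ℝ) + 1) ^ k * (((i : ℝ) + 1) ^ j * |coef i (F n)|) ≤ C) (j i n : ℕ) :
    ((n : ℝ) + 1) ^ j * |coef i (F n)| ≤ AA F j i :=
  le_ciSup (AA_bdd F h j i) n

theorem AA_nonneg (F : ℕ → ℝ → ℝ) (j i : ℕ) : 0 ≤ AA F j i :=
  Real.iSup_nonneg (fun n => by positivity)

theorem AA_bound (F : ℕ → ℝ → ℝ) (h : ∀ k j : ℕ, ∃ C : ℝ, ∀ n i : ℕ,
      ((n : ℝ) + 1) ^ k * (((i : ℝ) + 1) ^ j * |coef i (F n)|) ≤ C) (j k : ℕ) :
    ∃ C : ℝ, ∀ i : ℕ, ((i : ℝ) + 1) ^ k * AA F j i ≤ C := by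
  obtain ⟨C, hC⟩ := h j k
  refine ⟨C, fun i => ?_⟩
  have hi : (0 : ℝ) < ((i : ℝ) + 1) ^ k := by positivity
  rw [mul_comm, ← le_div_iff₀ hi]
  refine ciSup_le (fun n => ?_)
  rw [le_div_iff₀ hi]
  calc ((n : ℝ) + 1) ^ j * |coef i (F n)| * ((i : ℝ) + 1) ^ k
      = ((n : ℝ) + 1) ^ j * (((i : ℝ) + 1) ^ k * |coef i (F n)|) := by ring
    _ ≤ C := hC n i

theorem idx (i : ℕ) : (i = 2 * ((i + 1) / 2) - 1) ∨ (i = 2 * ((i + 1) / 2)) := by omega

/-- The weights. -/
noncomputable def wt (i : ℕ) : ℝ := if i = 0 then 2 * Real.pi else Real.pi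

theorem wt_ge (i : ℕ) : Real.pi ≤ wt i := by
  unfold wt
  have := Real.pi_pos
  split_ifs <;> linarith

theorem wt_pos (i : ℕ) : 0 < wt i := lt_of_lt_of_le Real.pi_pos (wt_ge i)

/-- The coefficients of the quotient. -/
noncomputable def cc (F : ℕ → ℝ → ℝ) (beta : ℕ → ℝ) (n i : ℕ) : ℝ :=
  coef i (F n) / (wt i * beta ((i + 1) / 2))

theorem cc_bound (F : ℕ → ℝ → ℝ) (h : ∀ k j : ℕ, ∃ C : ℝ, ∀ n i : ℕ,
      ((n : ℝ) + 1) ^ k * (((i : ℝ) + 1) ^ j * |coef i (F n)|) ≤ C) (beta : ℕ → ℝ)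
    (hb : ∀ l, 0 < beta l)
    (hB : ∀ j k : ℕ, ∃ C : ℝ, ∀ l : ℕ,
      ((l : ℝ) + 1) ^ k * (AA F j (2 * l - 1) + AA F j (2 * l)) ≤ C * beta l) :
    ∀ k m : ℕ, ∃ C : ℝ, ∀ n i : ℕ,
      ((n : ℝ) + 1) ^ k * ((i : ℝ) + 1) ^ m * |cc F beta n i| ≤ C := by
  intro k m
  obtain ⟨C, hC⟩ := hB k m
  have hC0 : 0 ≤ C := by
    have h1 := hC 0
    have h2 : 0 ≤ (((0 : ℕ) : ℝ) + 1) ^ m * (AA F k (2 * 0 - 1) + AA F k (2 * 0)) := by
      have := AA_nonneg F k (2 * 0 - 1)
      have := AA_nonneg F k (2 * 0)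
      positivity
    by_contra hlt
    push Not at hlt
    have := mul_neg_of_neg_of_pos hlt (hb 0)
    linarith
  refine ⟨2 ^ m * C / Real.pi, fun n i => ?_⟩
  set l := (i + 1) / 2 with hl
  have hbl := hb l
  have hA : AA F k i ≤ AA F k (2 * l - 1) + AA F k (2 * l) := by
    rcases idx i with hi | hi
    · rw [← hl] at hi
      have := AA_nonneg F k (2 * l)
      rw [← hi]
      linarith
    · rw [← hl] at hi
      have := AA_nonneg F k (2 * l - 1)
      rw [← hi] at this ⊢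
      linarith
  have hi2 : ((i : ℝ) + 1) ^ m ≤ 2 ^ m * ((l : ℝ) + 1) ^ m := by
    rw [← mul_pow]
    refine pow_le_pow_left₀ (by positivity) ?_ m
    have : i ≤ 2 * l + 1 := by omega
    have h' : (i : ℝ) ≤ 2 * (l : ℝ) + 1 := by exact_mod_cast this
    linarith
  have h1 := le_AA F h k i n
  have hpi := Real.pi_pos
  have hw := wt_ge i
  have habs : |cc F beta n i| = |coef i (F n)| / (wt i * beta l) := by
    rw [cc, abs_div, abs_of_pos (mul_pos (wt_pos i) (hb _))]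
  rw [habs]
  have hden : 0 < wt i * beta l := mul_pos (wt_pos i) hbl
  calc ((n : ℝ) + 1) ^ k * ((i : ℝ) + 1) ^ m * (|coef i (F n)| / (wt i * beta l))
      = (((i : ℝ) + 1) ^ m * (((n : ℝ) + 1) ^ k * |coef i (F n)|)) / (wt i * beta l) := by ring
    _ ≤ ((2 ^ m * ((l : ℝ) + 1) ^ m) * (AA F k (2 * l - 1) + AA F k (2 * l)))
          / (wt i * beta l) := by
        refine div_le_div_of_nonneg_right ?_ hden.le
        exact mul_le_mul hi2 (h1.trans hA) (by positivity) (by positivity)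
    _ ≤ (2 ^ m * (C * beta l)) / (wt i * beta l) := by
        refine div_le_div_of_nonneg_right ?_ hden.le
        rw [mul_assoc]
        exact mul_le_mul_of_nonneg_left (hC l) (by positivity)
    _ = 2 ^ m * C / wt i := by field_simp
    _ ≤ 2 ^ m * C / Real.pi := by
        exact div_le_div_of_nonneg_left (by positivity) hpi hw

theorem factor (hB2 : claimB2) (hB3 : claimB3) (hB4 : claimB4) (F : ℕ → ℝ → ℝ) (hF : RD F)
    (hFp : ∀ n, Per (F n)) (beta : ℕ → ℝ) (hb : ∀ l, 0 < beta l)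
    (hbr : ∀ k : ℕ, ∃ C : ℝ, ∀ n : ℕ, ((n : ℝ) + 1) ^ k * |beta n| ≤ C)
    (hc : ∀ k m : ℕ, ∃ C : ℝ, ∀ n i : ℕ,
      ((n : ℝ) + 1) ^ k * ((i : ℝ) + 1) ^ m * |cc F beta n i| ≤ C) :
    RD (fun n t => ∑' i, cc F beta n i * tau i t) ∧
    (∀ n, Per (fun t => ∑' i, cc F beta n i * tau i t)) ∧
    ∀ n t, F n t = cv (fun t => ∑' l : ℕ, beta l * Real.cos (l * t))
      (fun t => ∑' i, cc F beta n i * tau i t) t := by
  obtain ⟨-, htc, htb, hsum⟩ := hB3
  obtain ⟨h1, h2⟩ := hsum (cc F beta) hc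
  refine ⟨h1, h2, fun n t => ?_⟩
  obtain ⟨hrc, -, hact⟩ := hB4 beta hbr
  set r : ℝ → ℝ := fun t => ∑' l : ℕ, beta l * Real.cos (l * t) with hr
  have hrcont : Continuous r := hrc.continuous
  have htau1 : ∀ i y, |tau i y| ≤ 1 := by
    intro i y
    have := htb 0 i y
    rwa [norm_iteratedFDeriv_zero, Real.norm_eq_abs, pow_zero] at this
  have hcs : Summable (fun i => |cc F beta n i|) := by
    obtain ⟨C, hC⟩ := hc 0 2
    have hs : Summable (fun i : ℕ => C * (1 / ((i : ℝ) + 1) ^ 2)) := by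
      refine Summable.mul_left C ?_
      have := (summable_nat_add_iff 1).mpr (Real.summable_one_div_nat_pow.mpr (one_lt_two))
      simpa using this
    refine Summable.of_nonneg_of_le (fun i => abs_nonneg _) (fun i => ?_) hs
    have := hC n i
    rw [pow_zero, one_mul] at this
    have hi : (0 : ℝ) < ((i : ℝ) + 1) ^ 2 := by positivity
    rw [mul_one_div, le_div_iff₀ hi, mul_comm]
    exact this
  have hts : ∀ y, Summable (fun i => cc F beta n i * tau i y) := fun y => by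
    refine Summable.of_norm_bounded hcs (fun i => ?_)
    rw [Real.norm_eq_abs, abs_mul]
    exact mul_le_of_le_one_right (abs_nonneg _) (htau1 i y)
  have hex : HasSum (fun i => ∫ y in (0 : ℝ)..(2 * Real.pi), r (t - y) * (cc F beta n i * tau i y))
      (∫ y in (0 : ℝ)..(2 * Real.pi), r (t - y) * ∑' i, cc F beta n i * tau i y) := by
    refine intervalIntegral.hasSum_integral_of_dominated_convergence
      (fun i y => |r (t - y)| * |cc F beta n i|) (fun i => ?_) (fun i => ?_) ?_ ?_ ?_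
    · have : Continuous (fun y => r (t - y) * (cc F beta n i * tau i y)) := by
        have := (htc i).continuous
        fun_prop
      exact this.aestronglyMeasurable
    · refine Eventually.of_forall (fun y _ => ?_)
      rw [Real.norm_eq_abs, abs_mul, abs_mul]
      exact mul_le_mul_of_nonneg_left (mul_le_of_le_one_right (abs_nonneg _) (htau1 i y))
        (abs_nonneg _)
    · exact Eventually.of_forall (fun y _ => hcs.mul_left _)
    · have : (fun y => ∑' i, |r (t - y)| * |cc F beta n i|) =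
          fun y => |r (t - y)| * ∑' i, |cc F beta n i| := by
        funext y
        exact tsum_mul_left
      rw [this]
      have h : Continuous (fun y => |r (t - y)| * ∑' i, |cc F beta n i|) := by fun_prop
      exact h.intervalIntegrable _ _
    · exact Eventually.of_forall (fun y _ => (hts y).hasSum.mul_left _)
  have hterm : ∀ i, ∫ y in (0 : ℝ)..(2 * Real.pi), r (t - y) * (cc F beta n i * tau i y) =
      coef i (F n) * tau i t := by
    intro i
    have e1 : ∫ y in (0 : ℝ)..(2 * Real.pi), r (t - y) * (cc F beta n i * tau i y) =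
        cc F beta n i * ∫ y in (0 : ℝ)..(2 * Real.pi), r (t - y) * tau i y := by
      rw [← intervalIntegral.integral_const_mul]
      refine intervalIntegral.integral_congr (fun y _ => ?_)
      ring
    rw [e1]
    have e2 : (∫ y in (0 : ℝ)..(2 * Real.pi), r (t - y) * tau i y) =
        wt i * beta ((i + 1) / 2) * tau i t := hact i t
    rw [e2, cc]
    have := wt_pos i
    have := hb ((i + 1) / 2)
    field_simp
  have hF1 : HasSum (fun i => coef i (F n) * tau i t) (F n t) := hB2.1 (F n) (hF.1 n) (hFp n) t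
  simp only [hterm] at hex
  rw [hF1.unique hex]
  rfl

end B5

open B5 in
theorem prfB5 (hB1 : claimB1) (hB2 : claimB2) (hB3 : claimB3) (hB4 : claimB4) : claimB5 := by
  intro F G hF hG hFp hGp
  have hFc := coef_bound hB2 F hF hFp
  have hGc := coef_bound hB2 G hG hGp
  set A : ℕ → ℕ → ℝ := fun j l => (AA F j (2 * l - 1) + AA F j (2 * l)) +
    (AA G j (2 * l - 1) + AA G j (2 * l)) with hA
  have key : ∀ (H : ℕ → ℝ → ℝ), (∀ k j : ℕ, ∃ C : ℝ, ∀ n i : ℕ,
      ((n : ℝ) + 1) ^ k * (((i : ℝ) + 1) ^ j * |coef i (H n)|) ≤ C) → ∀ j k : ℕ, ∃ C : ℝ,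
      ∀ l : ℕ, ((l : ℝ) + 1) ^ k * (AA H j (2 * l - 1) + AA H j (2 * l)) ≤ C := by
    intro H hH j k
    obtain ⟨C, hC⟩ := AA_bound H hH j k
    refine ⟨C + C, fun l => ?_⟩
    have h1 : ((l : ℝ) + 1) ^ k * AA H j (2 * l - 1) ≤ C := by
      refine le_trans (mul_le_mul_of_nonneg_right ?_ (AA_nonneg H j _)) (hC (2 * l - 1))
      refine pow_le_pow_left₀ (by positivity) ?_ k
      have : l + 1 ≤ (2 * l - 1) + 1 := by omega
      exact_mod_cast this
    have h2 : ((l : ℝ) + 1) ^ k * AA H j (2 * l) ≤ C := by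
      refine le_trans (mul_le_mul_of_nonneg_right ?_ (AA_nonneg H j _)) (hC (2 * l))
      refine pow_le_pow_left₀ (by positivity) ?_ k
      have : l + 1 ≤ (2 * l) + 1 := by omega
      exact_mod_cast this
    rw [mul_add]
    linarith
  have hApos : ∀ j n, 0 ≤ A j n := fun j n => by
    have := AA_nonneg F j (2 * n - 1)
    have := AA_nonneg F j (2 * n)
    have := AA_nonneg G j (2 * n - 1)
    have := AA_nonneg G j (2 * n)
    simp only [hA]
    linarith
  obtain ⟨beta, hb, hbr, hbA⟩ := hB1 A hApos (fun j k => by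
    obtain ⟨C, hC⟩ := key F hFc j k
    obtain ⟨D, hD⟩ := key G hGc j k
    refine ⟨C + D, fun n => ?_⟩
    have := hC n
    have := hD n
    simp only [hA]
    rw [mul_add]
    linarith)
  have hbr' : ∀ k : ℕ, ∃ C : ℝ, ∀ n : ℕ, ((n : ℝ) + 1) ^ k * |beta n| ≤ C := by
    intro k
    obtain ⟨C, hC⟩ := hbr k
    exact ⟨C, fun n => by rw [abs_of_pos (hb n)]; exact hC n⟩
  have hF2 : ∀ j k : ℕ, ∃ C : ℝ, ∀ l : ℕ,
      ((l : ℝ) + 1) ^ k * (AA F j (2 * l - 1) + AA F j (2 * l)) ≤ C * beta l := by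
    intro j k
    obtain ⟨C, hC⟩ := hbA j k
    refine ⟨C, fun l => le_trans (mul_le_mul_of_nonneg_left ?_ (by positivity)) (hC l)⟩
    have := AA_nonneg G j (2 * l - 1)
    have := AA_nonneg G j (2 * l)
    simp only [hA]
    linarith
  have hG2 : ∀ j k : ℕ, ∃ C : ℝ, ∀ l : ℕ,
      ((l : ℝ) + 1) ^ k * (AA G j (2 * l - 1) + AA G j (2 * l)) ≤ C * beta l := by
    intro j k
    obtain ⟨C, hC⟩ := hbA j k
    refine ⟨C, fun l => le_trans (mul_le_mul_of_nonneg_left ?_ (by positivity)) (hC l)⟩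
    have := AA_nonneg F j (2 * l - 1)
    have := AA_nonneg F j (2 * l)
    simp only [hA]
    linarith
  obtain ⟨p1, p2, p3⟩ := factor hB2 hB3 hB4 F hF hFp beta hb hbr' (cc_bound F hFc beta hb hF2)
  obtain ⟨q1, q2, q3⟩ := factor hB2 hB3 hB4 G hG hGp beta hb hbr' (cc_bound G hGc beta hb hG2)
  obtain ⟨r1, r2, -⟩ := hB4 beta hbr'
  refine ⟨_, _, _, r1, r2, fun t => ?_, p1, q1, p2, q2, p3, q3⟩
  refine tsum_congr (fun l => ?_)
  rw [mul_neg, Real.cos_neg]

end Pool.Agent.Work.MP_b0497c_an.Forced.S
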