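import Pool.Agent.Work.MP_b0497c_an.Forced.S.Stmts

set_option autoImplicit false

/-!
# B6: parametric integrals over a compact interval
-/

open scoped ContDiff
open Set Filter Topology MeasureTheory

namespace Pool.Agent.Work.MP_b0497c_an.Forced.S

namespace B6

section

variable {E F : Type} [NormedAddCommGroup E] [NormedSpace ℝ E] [NormedAddCommGroup F]
    [NormedSpace ℝ F]

/-- The partial derivative. -/
noncomputable def pd (h : ℝ × E → F) (z : ℝ × E) : E →L[ℝ] F :=
  (fderiv ℝ h z).comp (ContinuousLinearMap.inr ℝ ℝ E)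

lemma pd_eq (h : ℝ × E → F) :
    pd h = (ContinuousLinearMap.precomp F (ContinuousLinearMap.inr ℝ ℝ E)) ∘ (fderiv ℝ h) := by
  funext z
  rfl

lemma pd_contDiff (h : ℝ × E → F) (hh : ContDiff ℝ ∞ h) : ContDiff ℝ ∞ (pd h) := by
  rw [pd_eq]
  exact (ContinuousLinearMap.contDiff _).comp (hh.fderiv_right (m := ∞) (by simp))

lemma norm_inr_le : ‖ContinuousLinearMap.inr ℝ ℝ E‖ ≤ 1 := by
  refine ContinuousLinearMap.opNorm_le_bound _ zero_le_one fun x => ?_
  simp [Prod.norm_def]

/-- Composition with the second inclusion. -/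
noncomputable def pc (E F : Type) [NormedAddCommGroup E] [NormedSpace ℝ E] [NormedAddCommGroup F]
    [NormedSpace ℝ F] : (ℝ × E →L[ℝ] F) →L[ℝ] (E →L[ℝ] F) :=
  ContinuousLinearMap.precomp F (ContinuousLinearMap.inr ℝ ℝ E)

lemma norm_precomp_le : ‖pc E F‖ ≤ 1 := by
  refine ContinuousLinearMap.opNorm_le_bound _ zero_le_one fun x => ?_
  have h1 : ‖x.comp (ContinuousLinearMap.inr ℝ ℝ E)‖ ≤ ‖x‖ * ‖ContinuousLinearMap.inr ℝ ℝ E‖ :=
    ContinuousLinearMap.opNorm_comp_le _ _
  have h2 : ‖x‖ * ‖ContinuousLinearMap.inr ℝ ℝ E‖ ≤ ‖x‖ * 1 :=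
    mul_le_mul_of_nonneg_left norm_inr_le (norm_nonneg _)
  calc ‖pc E F x‖
      = ‖x.comp (ContinuousLinearMap.inr ℝ ℝ E)‖ := rfl
    _ ≤ 1 * ‖x‖ := by linarith

lemma norm_iter_pd_le (h : ℝ × E → F) (hh : ContDiff ℝ ∞ h) (m : ℕ) (z : ℝ × E) :
    ‖iteratedFDeriv ℝ m (pd h) z‖ ≤ ‖iteratedFDeriv ℝ (m + 1) h z‖ := by
  rw [pd_eq]
  have h1 : ContDiff ℝ ∞ (fderiv ℝ h) := hh.fderiv_right (m := ∞) (by simp)
  have h2 := ContinuousLinearMap.norm_iteratedFDeriv_comp_left
    (pc E F) (f := fderiv ℝ h)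
    (x := z) (N := ∞) (n := m) h1.contDiffAt (by exact_mod_cast le_top)
  rw [← norm_iteratedFDeriv_fderiv]
  refine h2.trans ?_
  have h3 : 0 ≤ ‖iteratedFDeriv ℝ m (fderiv ℝ h) z‖ := norm_nonneg _
  have h4 := norm_precomp_le (E := E) (F := F)
  nlinarith

lemma hasFDerivAt_int [FiniteDimensional ℝ E] [CompleteSpace F] (h : ℝ × E → F)
    (hh : ContDiff ℝ ∞ h) (a b : ℝ) (x : E) :
    HasFDerivAt (fun x => ∫ s in a..b, h (s, x)) (∫ s in a..b, pd h (s, x)) x := by
  have hc : Continuous h := hh.continuous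
  have hpc : Continuous (pd h) := (pd_contDiff h hh).continuous
  have : ProperSpace E := FiniteDimensional.proper ℝ E
  have hK : IsCompact ((uIcc a b) ×ˢ (Metric.closedBall x 1)) :=
    isCompact_uIcc.prod (isCompact_closedBall x 1)
  obtain ⟨C, hC⟩ := hK.exists_bound_of_continuousOn hpc.continuousOn
  refine intervalIntegral.hasFDerivAt_integral_of_dominated_of_fderiv_le
    (F := fun x s => h (s, x)) (F' := fun x s => pd h (s, x)) (s := Metric.closedBall x 1)
    (bound := fun _ => C) (Metric.closedBall_mem_nhds x one_pos) ?_ ?_ ?_ ?_ ?_ ?_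
  · exact Eventually.of_forall fun y =>
      (hc.comp (by fun_prop : Continuous fun s : ℝ => (s, y))).aestronglyMeasurable
  · exact (hc.comp (by fun_prop : Continuous fun s : ℝ => (s, x))).intervalIntegrable _ _
  · exact (hpc.comp (by fun_prop : Continuous fun s : ℝ => (s, x))).aestronglyMeasurable
  · exact Eventually.of_forall fun s hs y hy => hC (s, y) ⟨uIoc_subset_uIcc hs, hy⟩
  · exact intervalIntegrable_const
  · refine Eventually.of_forall fun s _ y _ => ?_
    have h1 : HasFDerivAt h (fderiv ℝ h (s, y)) (s, y) :=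
      (hh.differentiable (by simp)).differentiableAt.hasFDerivAt
    have h2 : HasFDerivAt (fun y : E => (s, y)) (ContinuousLinearMap.inr ℝ ℝ E) y :=
      hasFDerivAt_prodMk_right s y
    exact h1.comp y h2

lemma fderiv_int [FiniteDimensional ℝ E] [CompleteSpace F] (h : ℝ × E → F)
    (hh : ContDiff ℝ ∞ h) (a b : ℝ) :
    fderiv ℝ (fun x => ∫ s in a..b, h (s, x)) = fun x => ∫ s in a..b, pd h (s, x) := by
  funext x
  exact (hasFDerivAt_int h hh a b x).fderiv

end

lemma contDiff_int (n : ℕ) : ∀ (E F : Type) [NormedAddCommGroup E] [NormedSpace ℝ E]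
    [FiniteDimensional ℝ E] [NormedAddCommGroup F] [NormedSpace ℝ F] [CompleteSpace F]
    (h : ℝ × E → F) (a b : ℝ), ContDiff ℝ ∞ h → ContDiff ℝ n (fun x => ∫ s in a..b, h (s, x)) := by
  induction n with
  | zero =>
    intro E F _ _ _ _ _ _ h a b hh
    have h1 : Differentiable ℝ (fun x => ∫ s in a..b, h (s, x)) :=
      fun x => (hasFDerivAt_int h hh a b x).differentiableAt
    exact contDiff_zero.2 h1.continuous
  | succ n ih =>
    intro E F _ _ _ _ _ _ h a b hh
    have h1 : Differentiable ℝ (fun x => ∫ s in a..b, h (s, x)) :=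
      fun x => (hasFDerivAt_int h hh a b x).differentiableAt
    have h2 := ih E (E →L[ℝ] F) (pd h) a b (pd_contDiff h hh)
    push_cast
    rw [contDiff_succ_iff_fderiv]
    refine ⟨h1, by simp, ?_⟩
    rw [fderiv_int h hh a b]
    exact h2

lemma norm_int (m : ℕ) : ∀ (E F : Type) [NormedAddCommGroup E] [NormedSpace ℝ E]
    [FiniteDimensional ℝ E] [NormedAddCommGroup F] [NormedSpace ℝ F] [CompleteSpace F]
    (h : ℝ × E → F) (a b : ℝ) (x : E) (C : ℝ), a ≤ b → ContDiff ℝ ∞ h →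
    (∀ s, ‖iteratedFDeriv ℝ m h (s, x)‖ ≤ C) →
    ‖iteratedFDeriv ℝ m (fun x => ∫ s in a..b, h (s, x)) x‖ ≤ (b - a) * C := by
  induction m with
  | zero =>
    intro E F _ _ _ _ _ _ h a b x C hab hh hC
    simp only [norm_iteratedFDeriv_zero] at hC ⊢
    have h1 := intervalIntegral.norm_integral_le_of_norm_le_const (a := a) (b := b)
      (f := fun s => h (s, x)) (C := C) (fun s _ => hC s)
    rw [abs_of_nonneg (by linarith : 0 ≤ b - a)] at h1
    linarith
  | succ m ih =>
    intro E F _ _ _ _ _ _ h a b x C hab hh hC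
    rw [← norm_iteratedFDeriv_fderiv, fderiv_int h hh a b]
    exact ih E (E →L[ℝ] F) (pd h) a b x C hab (pd_contDiff h hh)
      fun s => (norm_iter_pd_le h hh m (s, x)).trans (hC s)

end B6

open B6 in
theorem prfB6 : claimB6 := by
  intro E F _ _ _ _ _ _ h a b hab
  have hi : (∀ n, ContDiff ℝ ∞ (h n)) →
      ∀ n, ContDiff ℝ ∞ (fun x => ∫ s in a..b, h n (s, x)) := by
    intro hh n
    rw [contDiff_infty]
    intro k
    exact contDiff_int k E F (h n) a b (hh n)
  refine ⟨hi, ?_, ?_⟩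
  · intro hR
    refine ⟨hi hR.1, fun m k => ?_⟩
    obtain ⟨C, hC⟩ := hR.2 m k
    refine ⟨(b - a) * C, fun n x => ?_⟩
    have hpos : (0 : ℝ) < ((n : ℝ) + 1) ^ k := by positivity
    have h1 := norm_int m E F (h n) a b x (C / ((n : ℝ) + 1) ^ k) hab (hR.1 n) (fun s => by
      rw [le_div_iff₀ hpos]
      have := hC n (s, x)
      linarith)
    calc ((n : ℝ) + 1) ^ k * ‖iteratedFDeriv ℝ m (fun x => ∫ s in a..b, h n (s, x)) x‖
        ≤ ((n : ℝ) + 1) ^ k * ((b - a) * (C / ((n : ℝ) + 1) ^ k)) :=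
          mul_le_mul_of_nonneg_left h1 hpos.le
      _ = (b - a) * C := by field_simp
  · intro n hn x v
    rw [fderiv_int (h n) hn a b]
    have hpc : Continuous (pd (h n)) := (pd_contDiff (h n) hn).continuous
    have h1 : IntervalIntegrable (fun s => pd (h n) (s, x)) volume a b :=
      (hpc.comp (by fun_prop : Continuous fun s : ℝ => (s, x))).intervalIntegrable _ _
    have h2 := ContinuousLinearMap.intervalIntegral_apply h1 v
    simp only at h2 ⊢
    rw [h2]
    rfl

end Pool.Agent.Work.MP_b0497c_an.Forced.S
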