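import Pool.Agent.Work.MP_b0497c_an.Forced.S.Stmts

set_option autoImplicit false

/-!
# B9: periodisation in time of functions supported in `[0, 3]`
-/

open scoped ContDiff
open Set Filter Topology MeasureTheory

namespace Pool.Agent.Work.MP_b0497c_an.Forced.S

namespace B9

/-- The periodisation. -/
noncomputable def pz (g : ℝ → ℝ) (t : ℝ) : ℝ := g (t - 2 * Real.pi * ⌊t / (2 * Real.pi)⌋)

lemma floor_eq (k : ℤ) (t : ℝ) (h1 : 2 * Real.pi * k ≤ t) (h2 : t < 2 * Real.pi * k + 2 * Real.pi) :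
    ⌊t / (2 * Real.pi)⌋ = k := by
  have hp : 0 < 2 * Real.pi := by positivity
  rw [Int.floor_eq_iff]
  constructor
  · rw [le_div_iff₀ hp]; linarith
  · rw [div_lt_iff₀ hp]; linarith

lemma pz_eq (g : ℝ → ℝ) (hg : ∀ t, t ∉ Icc (0 : ℝ) 3 → g t = 0) (k : ℤ) (t : ℝ)
    (h1 : 2 * Real.pi * k + 3 - 2 * Real.pi < t) (h2 : t < 2 * Real.pi * k + 2 * Real.pi) :
    pz g t = g (t - 2 * Real.pi * k) := by
  have hpi := Real.pi_gt_three
  unfold pz
  rcases le_or_gt (2 * Real.pi * k) t with h | h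
  · rw [floor_eq k t h h2]
  · have h3 : ⌊t / (2 * Real.pi)⌋ = k - 1 := by
      apply floor_eq
      · push_cast; linarith
      · push_cast; linarith
    rw [h3, hg, hg]
    · simp only [mem_Icc, not_and_or, not_le]; left; linarith
    · simp only [mem_Icc, not_and_or, not_le]; right; push_cast; linarith

lemma pz_eventually (g : ℝ → ℝ) (hg : ∀ t, t ∉ Icc (0 : ℝ) 3 → g t = 0) (t : ℝ) :
    pz g =ᶠ[𝓝 t] fun s => g (s - 2 * Real.pi * ⌊t / (2 * Real.pi)⌋) := by
  have hpi := Real.pi_gt_three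
  have hp : 0 < 2 * Real.pi := by positivity
  have h1 : (⌊t / (2 * Real.pi)⌋ : ℝ) ≤ t / (2 * Real.pi) := Int.floor_le _
  have h2 : t / (2 * Real.pi) < ⌊t / (2 * Real.pi)⌋ + 1 := Int.lt_floor_add_one _
  rw [le_div_iff₀ hp] at h1
  rw [div_lt_iff₀ hp] at h2
  have h3 : Ioo (2 * Real.pi * ⌊t / (2 * Real.pi)⌋ + 3 - 2 * Real.pi)
      (2 * Real.pi * ⌊t / (2 * Real.pi)⌋ + 2 * Real.pi) ∈ 𝓝 t := by
    apply Ioo_mem_nhds
    · linarith
    · linarith
  filter_upwards [h3] with s hs
  exact pz_eq g hg _ s hs.1 hs.2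

end B9

open B9 in
theorem prfB9 : claimB9 := by
  intro g hg h0
  have hpi := Real.pi_gt_three
  refine ⟨fun n => pz (g n), ⟨?_, ?_⟩, ?_, ?_, ?_⟩
  · intro n
    rw [contDiff_iff_contDiffAt]
    intro t
    have h1 := pz_eventually (g n) (h0 n) t
    refine ContDiffAt.congr_of_eventuallyEq ?_ h1
    have h2 : ContDiff ℝ ∞ fun s : ℝ => g n (s - 2 * Real.pi * ⌊t / (2 * Real.pi)⌋) :=
      (hg.1 n).comp (contDiff_id.sub contDiff_const)
    exact h2.contDiffAt
  · intro m k
    obtain ⟨C, hC⟩ := hg.2 m k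
    refine ⟨C, fun n t => ?_⟩
    have h1 := ((pz_eventually (g n) (h0 n) t).iteratedFDeriv ℝ m).eq_of_nhds
    rw [h1, iteratedFDeriv_comp_sub]
    exact hC n _
  · intro n t
    simp only [pz]
    have hp : (2 * Real.pi) ≠ 0 := by positivity
    have h1 : (t + 2 * Real.pi) / (2 * Real.pi) = t / (2 * Real.pi) + 1 := by
      field_simp
    rw [h1, Int.floor_add_one]
    congr 1
    push_cast
    ring
  · intro n t ht
    simp only
    rw [pz_eq (g n) (h0 n) 0 t]
    · simp
    · push_cast; have := ht.1; linarith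
    · push_cast; have := ht.2; linarith
  · intro n t ht
    simp only
    rcases eq_or_lt_of_le ht.2 with h | h
    · have h3 : g n 0 = 0 := by
        have hc : Continuous (g n) := (hg.1 n).continuous
        have h4 : Tendsto (g n) (𝓝[<] 0) (𝓝 (g n 0)) := (hc.tendsto 0).mono_left nhdsWithin_le_nhds
        have h5 : Tendsto (g n) (𝓝[<] 0) (𝓝 0) := by
          refine tendsto_const_nhds.congr' ?_
          filter_upwards [self_mem_nhdsWithin] with s hs
          rw [h0 n s]
          simp only [mem_Icc, not_and_or, not_le]; left; exact hs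
        exact tendsto_nhds_unique h4 h5
      rw [pz_eq (g n) (h0 n) 0 t]
      · simp [h, h3]
      · push_cast; linarith
      · push_cast; linarith
    · have h1 := ht.1
      unfold pz
      rw [floor_eq (-1) t, h0]
      · simp only [mem_Icc, not_and_or, not_le]; right; push_cast; linarith
      · push_cast; linarith
      · push_cast; linarith

end Pool.Agent.Work.MP_b0497c_an.Forced.S
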