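import Pool.Agent.Work.MP_b0497c_an.Forced.S.Stmts
import Pool.Agent.Work.MP_b0497c_an.Bd.B17
import Pool.Agent.Work.MP_b0497c_an.Forced.S.B6
import Pool.Agent.Work.MP_b0497c_an.Forced.S.B9
import Pool.Agent.Work.MP_b0497c_an.Forced.Asm.C13
import Pool.Agent.Work.MP_b0497c_an.Algebra

set_option autoImplicit false

/-!
# Item B7: expansion of the force
-/

open scoped ContDiff
open Set Filter Topology MeasureTheory

namespace Pool.Agent.Work.MP_b0497c_an.Forced.S

namespace B7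

/-- Smooth periodic fields supported in the times `[0, 4]`. -/
structure Good (f : ℝ → E3 → E3) : Prop where
  sm : ContDiff ℝ ∞ (fun z : ℝ × E3 => f z.1 z.2)
  per : ∀ t, Periodic3 (f t)
  zero : ∀ t, t ∉ Icc (0 : ℝ) 4 → ∀ x, f t x = 0

variable {f : ℝ → E3 → E3}

theorem Good.line (hf : Good f) (x : E3) : ContDiff ℝ ∞ (fun s => f s x) :=
  hf.sm.comp (contDiff_id.prodMk contDiff_const)

theorem Good.zero0 (hf : Good f) (x : E3) : f 0 x = 0 := by
  have hc : Continuous (fun s => f s x) := (hf.line x).continuous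
  have h4 : Tendsto (fun s => f s x) (𝓝[<] 0) (𝓝 (f 0 x)) :=
    (hc.tendsto 0).mono_left nhdsWithin_le_nhds
  have h5 : Tendsto (fun s => f s x) (𝓝[<] 0) (𝓝 0) := by
    refine tendsto_const_nhds.congr' ?_
    filter_upwards [self_mem_nhdsWithin] with s hs
    rw [hf.zero s (fun h => absurd h.1 (not_le.2 hs))]
  exact tendsto_nhds_unique h4 h5

/-- The time derivative. -/
noncomputable def dt (f : ℝ → E3 → E3) (t : ℝ) (x : E3) : E3 :=
  fderiv ℝ (fun z : ℝ × E3 => f z.1 z.2) (t, x) (1, 0)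

theorem Good.hasDerivAt (hf : Good f) (t : ℝ) (x : E3) :
    HasDerivAt (fun s => f s x) (dt f t x) t := by
  have h1 : HasFDerivAt (fun z : ℝ × E3 => f z.1 z.2)
      (fderiv ℝ (fun z : ℝ × E3 => f z.1 z.2) (t, x)) ((fun s : ℝ => ((s, x) : ℝ × E3)) t) :=
    ((hf.sm.differentiable (by simp)) (t, x)).hasFDerivAt
  have h2 : HasDerivAt (fun s : ℝ => ((s, x) : ℝ × E3)) (1, 0) t :=
    (hasDerivAt_id t).prodMk (hasDerivAt_const t x)
  exact HasFDerivAt.comp_hasDerivAt (f := fun s : ℝ => ((s, x) : ℝ × E3)) t h1 h2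

theorem Good.dt (hf : Good f) : Good (dt f) := by
  refine ⟨?_, ?_, ?_⟩
  · have h1 : ContDiff ℝ ∞ (fderiv ℝ (fun z : ℝ × E3 => f z.1 z.2)) :=
      hf.sm.fderiv_right (m := ∞) (by simp)
    exact h1.clm_apply contDiff_const
  · intro t i x
    have h1 := hf.hasDerivAt t (x + (2 * Real.pi) • e i)
    have h2 : (fun s => f s (x + (2 * Real.pi) • e i)) = fun s => f s x := by
      funext s
      exact hf.per s i x
    rw [h2] at h1
    exact h1.unique (hf.hasDerivAt t x)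
  · intro t ht x
    have h1 := hf.hasDerivAt t x
    have h2 : (fun s => f s x) =ᶠ[𝓝 t] fun _ => 0 := by
      filter_upwards [isClosed_Icc.isOpen_compl.mem_nhds ht] with s hs
      exact hf.zero s hs x
    exact (h1.congr_of_eventuallyEq h2.symm).unique (hasDerivAt_const t 0)

/-- The coefficients (without the normalising constant). -/
noncomputable def Bc (f : ℝ → E3 → E3) (n : ℕ) (x : E3) : E3 :=
  ∫ s in (0 : ℝ)..(2 * Real.pi), tau n s • f s x

theorem two_pi : (4 : ℝ) < 2 * Real.pi := by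
  have := Real.pi_gt_three
  linarith

theorem cs {E F : Type} [NormedAddCommGroup E] [NormedSpace ℝ E] [NormedAddCommGroup F]
    [NormedSpace ℝ F] (c : ℝ) (g : E → F) (hg : ContDiff ℝ ∞ g) (m : ℕ) (x : E) :
    iteratedFDeriv ℝ m (fun y => c • g y) x = c • iteratedFDeriv ℝ m g x := by
  have h : ContDiff ℝ m g := hg.of_le (by exact_mod_cast le_top)
  have h2 : iteratedFDeriv ℝ m (c • g) x = c • iteratedFDeriv ℝ m g x :=
    iteratedFDeriv_const_smul_apply h.contDiffAt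
  exact h2

/-- Two integrations by parts. -/
theorem parts (hf : Good f) (n : ℕ) (x : E3) :
    Bc (dt (dt f)) n x + ((((n + 1) / 2 : ℕ) : ℝ) ^ 2) • Bc f n x = 0 := by
  obtain ⟨φ, hφ⟩ := B4.tau_eq n
  set l : ℝ := (((n + 1) / 2 : ℕ) : ℝ) with hl
  have hlin : ∀ s, HasDerivAt (fun s : ℝ => l * s + φ) l s := fun s => by
    simpa using ((hasDerivAt_id s).const_mul l).add_const φ
  have ht : ∀ s, HasDerivAt (tau n) (-(Real.sin (l * s + φ)) * l) s := by
    intro s
    have h1 : tau n = fun s => Real.cos (l * s + φ) := funext hφ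
    rw [h1]
    exact (hlin s).cos
  have ht1 : ∀ s, HasDerivAt (fun s => -(Real.sin (l * s + φ)) * l)
      (-(l ^ 2) * tau n s) s := by
    intro s
    refine (((hlin s).sin.neg).mul_const l).congr_deriv ?_
    rw [hφ s]
    ring
  have hf1 := hf.hasDerivAt
  have hf2 := hf.dt.hasDerivAt
  have hH : ∀ s, HasDerivAt
      (fun s => tau n s • dt f s x - (-(Real.sin (l * s + φ)) * l) • f s x)
      (tau n s • dt (dt f) s x + l ^ 2 • (tau n s • f s x)) s := by
    intro s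
    refine (((ht s).smul (hf2 s x)).sub ((ht1 s).smul (hf1 s x))).congr_deriv ?_
    module
  have hc0 : Continuous (fun s => f s x) := (hf.line x).continuous
  have hc2 : Continuous (fun s => dt (dt f) s x) := (hf.dt.dt.line x).continuous
  have htc : Continuous (tau n) := B4.tau_cont n
  have hi1 : IntervalIntegrable (fun s => tau n s • dt (dt f) s x) volume 0 (2 * Real.pi) :=
    (htc.smul hc2).intervalIntegrable _ _
  have hc3 : Continuous (fun s => l ^ 2 • (tau n s • f s x)) := by fun_prop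
  have hi2 : IntervalIntegrable (fun s => l ^ 2 • (tau n s • f s x)) volume 0 (2 * Real.pi) :=
    hc3.intervalIntegrable _ _
  have hint := intervalIntegral.integral_eq_sub_of_hasDerivAt (a := 0) (b := 2 * Real.pi)
    (fun s _ => hH s) (hi1.add hi2)
  have h2pi : (2 * Real.pi) ∉ Icc (0 : ℝ) 4 := fun h => absurd h.2 (not_le.2 two_pi)
  rw [intervalIntegral.integral_add hi1 hi2, intervalIntegral.integral_smul,
    hf.zero0 x, hf.dt.zero0 x, hf.zero _ h2pi, hf.dt.zero _ h2pi] at hint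
  simpa [Bc] using hint

/-- The integrand. -/
noncomputable def hh (f : ℝ → E3 → E3) (n : ℕ) (z : ℝ × E3) : E3 := tau n z.1 • f z.1 z.2

theorem hh_smooth (hB3 : claimB3) (hf : Good f) (n : ℕ) : ContDiff ℝ ∞ (hh f n) := by
  have h1 : ContDiff ℝ ∞ (fun z : ℝ × E3 => tau n z.1) := (hB3.2.1 n).comp contDiff_fst
  exact h1.smul hf.sm

theorem Bc_smooth (hB3 : claimB3) (hf : Good f) (n : ℕ) : ContDiff ℝ ∞ (Bc f n) :=
  (prfB6 E3 E3 (hh f) 0 (2 * Real.pi) (by positivity)).1 (hh_smooth hB3 hf) n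

theorem base (hB3 : claimB3) (hf : Good f) (m : ℕ) :
    ∃ C : ℝ, ∀ (n : ℕ) (x : E3), ‖iteratedFDeriv ℝ m (Bc f n) x‖ ≤ C * ((n : ℝ) + 1) ^ m := by
  choose D hD0 hD using fun k => C13.bound hf.sm hf.per 4 hf.zero k
  refine ⟨(2 * Real.pi - 0) * ∑ i ∈ Finset.range (m + 1), (m.choose i : ℝ) * D (m - i),
    fun n x => ?_⟩
  have h1 := B6.norm_int m E3 E3 (hh f n) 0 (2 * Real.pi) x
    ((∑ i ∈ Finset.range (m + 1), (m.choose i : ℝ) * D (m - i)) * ((n : ℝ) + 1) ^ m)
    (by positivity) (hh_smooth hB3 hf n) (fun s => by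
      have hts : ContDiff ℝ ∞ (fun z : ℝ × E3 => tau n z.1) := (hB3.2.1 n).comp contDiff_fst
      refine (A1.leib hf.sm hts m (s, x)).trans ?_
      rw [Finset.sum_mul]
      refine Finset.sum_le_sum (fun i hi => ?_)
      have hi' : i ≤ m := Nat.lt_succ_iff.1 (Finset.mem_range.1 hi)
      have h2 : ‖iteratedFDeriv ℝ i (fun z : ℝ × E3 => tau n z.1) (s, x)‖
          ≤ ((n : ℝ) + 1) ^ m := by
        have h3 := A2.norm_comp_le (tau n) (ContinuousLinearMap.fst ℝ ℝ E3)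
          (ContinuousLinearMap.id ℝ ℝ) (hB3.2.1 n) i (s, x)
        have h4 : ‖ContinuousLinearMap.id ℝ ℝ‖ * ‖ContinuousLinearMap.fst ℝ ℝ E3‖ ^ i ≤ 1 := by
          have e1 := ContinuousLinearMap.norm_id_le (𝕜 := ℝ) (E := ℝ)
          have e2 : ‖ContinuousLinearMap.fst ℝ ℝ E3‖ ^ i ≤ 1 :=
            pow_le_one₀ (norm_nonneg _) (ContinuousLinearMap.norm_fst_le ℝ ℝ E3)
          exact mul_le_one₀ e1 (by positivity) e2
        have h5 := hB3.2.2.1 i n s
        have h6 : ((n : ℝ) + 1) ^ i ≤ ((n : ℝ) + 1) ^ m :=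
          pow_le_pow_right₀ (A1.one_le n) hi'
        calc ‖iteratedFDeriv ℝ i (fun z : ℝ × E3 => tau n z.1) (s, x)‖
            ≤ ‖ContinuousLinearMap.id ℝ ℝ‖ * ‖ContinuousLinearMap.fst ℝ ℝ E3‖ ^ i
              * ‖iteratedFDeriv ℝ i (tau n) s‖ := h3
          _ ≤ 1 * ‖iteratedFDeriv ℝ i (tau n) s‖ :=
              mul_le_mul_of_nonneg_right h4 (norm_nonneg _)
          _ ≤ ((n : ℝ) + 1) ^ m := by rw [one_mul]; exact h5.trans h6
      have h7 := hD (m - i) (s, x)
      calc (m.choose i : ℝ) * ‖iteratedFDeriv ℝ i (fun z : ℝ × E3 => tau n z.1) (s, x)‖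
            * ‖iteratedFDeriv ℝ (m - i) (fun z : ℝ × E3 => f z.1 z.2) (s, x)‖
          ≤ (m.choose i : ℝ) * ((n : ℝ) + 1) ^ m * D (m - i) := by
            refine mul_le_mul (mul_le_mul_of_nonneg_left h2 (by positivity)) h7
              (norm_nonneg _) (by positivity)
        _ = (m.choose i : ℝ) * D (m - i) * ((n : ℝ) + 1) ^ m := by ring)
  have e : (fun x => ∫ s in (0 : ℝ)..(2 * Real.pi), hh f n (s, x)) = Bc f n := rfl
  rw [e] at h1
  refine h1.trans (le_of_eq ?_)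
  ring

theorem decay (hB3 : claimB3) (j : ℕ) : ∀ (f : ℝ → E3 → E3), Good f → ∀ m : ℕ,
    ∃ C : ℝ, ∀ (n : ℕ) (x : E3),
      ((n : ℝ) + 1) ^ (2 * j) * ‖iteratedFDeriv ℝ m (Bc f n) x‖ ≤ C * ((n : ℝ) + 1) ^ m := by
  induction j with
  | zero =>
    intro f hf m
    obtain ⟨C, hC⟩ := base hB3 hf m
    refine ⟨C, fun n x => ?_⟩
    simpa using hC n x
  | succ j ih =>
    intro f hf m
    obtain ⟨C, hC⟩ := ih (dt (dt f)) hf.dt.dt m
    obtain ⟨C0, hC0⟩ := base hB3 hf m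
    refine ⟨max (9 * C) C0, fun n x => ?_⟩
    rcases Nat.eq_zero_or_pos n with h0 | hn
    · subst h0
      have := hC0 0 x
      simp only [Nat.cast_zero, zero_add, one_pow, one_mul, mul_one] at this ⊢
      exact this.trans (le_max_right _ _)
    · set l : ℝ := (((n + 1) / 2 : ℕ) : ℝ) with hl
      have hl1 : (1 : ℝ) ≤ l := by
        have : 1 ≤ (n + 1) / 2 := by omega
        rw [hl]
        exact_mod_cast this
      have hnl : (n : ℝ) + 1 ≤ 3 * l := by
        have : n + 1 ≤ 3 * ((n + 1) / 2) := by omega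
        rw [hl]
        exact_mod_cast this
      have hBc : Bc f n = fun y => (-(l ^ 2)⁻¹) • Bc (dt (dt f)) n y := by
        funext y
        have h := parts hf n y
        have h2 : l ^ 2 • Bc f n y = -Bc (dt (dt f)) n y := by
          rw [← hl] at h
          exact eq_neg_of_add_eq_zero_right h
        have h3 : (l ^ 2) ≠ 0 := by positivity
        rw [neg_smul, ← smul_neg, ← h2, smul_smul, inv_mul_cancel₀ h3, one_smul]
      have hnorm : ‖iteratedFDeriv ℝ m (Bc f n) x‖ =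
          (l ^ 2)⁻¹ * ‖iteratedFDeriv ℝ m (Bc (dt (dt f)) n) x‖ := by
        rw [hBc]
        rw [cs _ _ (Bc_smooth hB3 hf.dt.dt n), norm_smul, norm_neg,
          Real.norm_of_nonneg (by positivity)]
      rw [hnorm]
      have h4 := hC n x
      have h5 : ((n : ℝ) + 1) ^ 2 * (l ^ 2)⁻¹ ≤ 9 := by
        rw [← div_eq_mul_inv, div_le_iff₀ (by positivity)]
        nlinarith [hnl, (by positivity : (0 : ℝ) ≤ (n : ℝ) + 1)]
      have h6 : 0 ≤ ((n : ℝ) + 1) ^ (2 * j) * ‖iteratedFDeriv ℝ m (Bc (dt (dt f)) n) x‖ := by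
        positivity
      calc ((n : ℝ) + 1) ^ (2 * (j + 1)) *
            ((l ^ 2)⁻¹ * ‖iteratedFDeriv ℝ m (Bc (dt (dt f)) n) x‖)
          = (((n : ℝ) + 1) ^ 2 * (l ^ 2)⁻¹) *
            (((n : ℝ) + 1) ^ (2 * j) * ‖iteratedFDeriv ℝ m (Bc (dt (dt f)) n) x‖) := by ring
        _ ≤ 9 * (((n : ℝ) + 1) ^ (2 * j) * ‖iteratedFDeriv ℝ m (Bc (dt (dt f)) n) x‖) :=
            mul_le_mul_of_nonneg_right h5 h6
        _ ≤ 9 * (C * ((n : ℝ) + 1) ^ m) := mul_le_mul_of_nonneg_left h4 (by norm_num)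
        _ = (9 * C) * ((n : ℝ) + 1) ^ m := by ring
        _ ≤ max (9 * C) C0 * ((n : ℝ) + 1) ^ m :=
            mul_le_mul_of_nonneg_right (le_max_left _ _) (by positivity)

theorem Bc_RD (hB3 : claimB3) (hf : Good f) : RD (Bc f) := by
  refine ⟨Bc_smooth hB3 hf, fun m k => ?_⟩
  obtain ⟨C, hC⟩ := decay hB3 (k + m) f hf m
  refine ⟨C, fun n x => ?_⟩
  have h1 := hC n x
  have hp : (0 : ℝ) < ((n : ℝ) + 1) ^ m := by positivity
  have h2 : (((n : ℝ) + 1) ^ k * ‖iteratedFDeriv ℝ m (Bc f n) x‖) * ((n : ℝ) + 1) ^ m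
      ≤ C * ((n : ℝ) + 1) ^ m := by
    refine le_trans ?_ h1
    have e1 : (((n : ℝ) + 1) ^ k * ‖iteratedFDeriv ℝ m (Bc f n) x‖) * ((n : ℝ) + 1) ^ m =
        ((n : ℝ) + 1) ^ (k + m) * ‖iteratedFDeriv ℝ m (Bc f n) x‖ := by ring
    rw [e1]
    refine mul_le_mul_of_nonneg_right ?_ (norm_nonneg _)
    exact pow_le_pow_right₀ (A1.one_le n) (by omega)
  exact le_of_mul_le_mul_right h2 hp

/-- The normalising constants. -/
noncomputable def cn (n : ℕ) : ℝ := if n = 0 then (2 * Real.pi)⁻¹ else Real.pi⁻¹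

theorem cn_pos (n : ℕ) : 0 < cn n := by
  unfold cn
  split_ifs <;> positivity

theorem cn_le (n : ℕ) : cn n ≤ 1 := by
  have h := Real.pi_gt_three
  unfold cn
  split_ifs
  · exact inv_le_one_of_one_le₀ (by linarith)
  · exact inv_le_one_of_one_le₀ (by linarith)

/-- Suprema of the derivatives. -/
noncomputable def AA (f : ℝ → E3 → E3) (m n : ℕ) : ℝ := ⨆ x : E3, ‖iteratedFDeriv ℝ m (Bc f n) x‖

theorem AA_nonneg (m n : ℕ) : 0 ≤ AA f m n := Real.iSup_nonneg (fun _ => norm_nonneg _)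

theorem le_AA (h : RD (Bc f)) (m n : ℕ) (x : E3) :
    ‖iteratedFDeriv ℝ m (Bc f n) x‖ ≤ AA f m n := by
  obtain ⟨C, hC⟩ := h.2 m 0
  refine le_ciSup (f := fun x : E3 => ‖iteratedFDeriv ℝ m (Bc f n) x‖) ⟨C, ?_⟩ x
  rintro _ ⟨y, rfl⟩
  simpa using hC n y

theorem AA_bound (h : RD (Bc f)) (m k : ℕ) : ∃ C : ℝ, ∀ n : ℕ,
    ((n : ℝ) + 1) ^ k * AA f m n ≤ C := by
  obtain ⟨C, hC⟩ := h.2 m k
  refine ⟨C, fun n => ?_⟩
  have hi : (0 : ℝ) < ((n : ℝ) + 1) ^ k := by positivity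
  rw [mul_comm, ← le_div_iff₀ hi]
  refine ciSup_le (fun x => ?_)
  rw [le_div_iff₀ hi, mul_comm]
  exact hC n x

/-- Periodisation of functions supported in `[0, 4]`. -/
theorem pz_eq (g : ℝ → ℝ) (hg : ∀ t, t ∉ Icc (0 : ℝ) 4 → g t = 0) (k : ℤ) (t : ℝ)
    (h1 : 2 * Real.pi * k + 4 - 2 * Real.pi < t) (h2 : t < 2 * Real.pi * k + 2 * Real.pi) :
    B9.pz g t = g (t - 2 * Real.pi * k) := by
  have hpi := two_pi
  unfold B9.pz
  rcases le_or_gt (2 * Real.pi * k) t with h | h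
  · rw [B9.floor_eq k t h h2]
  · have h3 : ⌊t / (2 * Real.pi)⌋ = k - 1 := by
      apply B9.floor_eq
      · push_cast; linarith
      · push_cast; linarith
    rw [h3, hg, hg]
    · simp only [mem_Icc, not_and_or, not_le]; left; linarith
    · simp only [mem_Icc, not_and_or, not_le]; right; push_cast; linarith

theorem pz_smooth (g : ℝ → ℝ) (hsm : ContDiff ℝ ∞ g)
    (hg : ∀ t, t ∉ Icc (0 : ℝ) 4 → g t = 0) : ContDiff ℝ ∞ (B9.pz g) := by
  rw [contDiff_iff_contDiffAt]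
  intro t
  have hpi := two_pi
  have hp : 0 < 2 * Real.pi := by positivity
  have h1 : (⌊t / (2 * Real.pi)⌋ : ℝ) ≤ t / (2 * Real.pi) := Int.floor_le _
  have h2 : t / (2 * Real.pi) < ⌊t / (2 * Real.pi)⌋ + 1 := Int.lt_floor_add_one _
  rw [le_div_iff₀ hp] at h1
  rw [div_lt_iff₀ hp] at h2
  have h3 : Ioo (2 * Real.pi * ⌊t / (2 * Real.pi)⌋ + 4 - 2 * Real.pi)
      (2 * Real.pi * ⌊t / (2 * Real.pi)⌋ + 2 * Real.pi) ∈ 𝓝 t := by
    apply Ioo_mem_nhds
    · linarith
    · linarith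
  have h4 : B9.pz g =ᶠ[𝓝 t] fun s => g (s - 2 * Real.pi * ⌊t / (2 * Real.pi)⌋) := by
    filter_upwards [h3] with s hs
    exact pz_eq g hg _ s hs.1 hs.2
  refine ContDiffAt.congr_of_eventuallyEq ?_ h4
  exact (hsm.comp (contDiff_id.sub contDiff_const)).contDiffAt

theorem pz_per (g : ℝ → ℝ) : Per (B9.pz g) := by
  intro t
  simp only [B9.pz]
  have hp : (2 * Real.pi) ≠ 0 := by positivity
  have h1 : (t + 2 * Real.pi) / (2 * Real.pi) = t / (2 * Real.pi) + 1 := by
    field_simp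
  rw [h1, Int.floor_add_one]
  congr 1
  push_cast
  ring

theorem pz_zero (g : ℝ → ℝ) (hg : ∀ t, t ∉ Icc (0 : ℝ) 4 → g t = 0) (t : ℝ)
    (ht : t ∈ Ico (0 : ℝ) (2 * Real.pi)) : B9.pz g t = g t := by
  have hpi := two_pi
  rw [pz_eq g hg 0 t]
  · simp
  · push_cast; linarith [ht.1]
  · push_cast; linarith [ht.2]

theorem coef_pz (g : ℝ → ℝ) (hg : ∀ t, t ∉ Icc (0 : ℝ) 4 → g t = 0) (h0 : g 0 = 0) (n : ℕ) :
    coef n (B9.pz g) = cn n * ∫ s in (0 : ℝ)..(2 * Real.pi), tau n s * g s := by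
  have hp : 0 < 2 * Real.pi := by positivity
  have hpi := two_pi
  unfold coef cn
  congr 1
  refine intervalIntegral.integral_congr (fun s hs => ?_)
  rw [uIcc_of_le hp.le] at hs
  have h : B9.pz g s = g s := by
    rcases eq_or_lt_of_le hs.2 with h | h
    · have h1 : B9.pz g s = B9.pz g 0 := by
        rw [h]
        have := pz_per g 0
        rwa [zero_add] at this
      rw [h1, pz_zero g hg 0 ⟨le_rfl, hp⟩, h0, h, hg _ (fun h => absurd h.2 (not_le.2 hpi))]
    · exact pz_zero g hg s ⟨hs.1, h⟩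
  simp only [h, mul_comm]

end B7

open B7 in
theorem prfB7 (hB1 : claimB1) (hB2 : claimB2) (hB3 : claimB3) : claimB7 := by
  intro f hsm hper hzero
  have hf : Good f := ⟨hsm, hper, hzero⟩
  have hRD := Bc_RD hB3 hf
  obtain ⟨gam, hg0, hgr, hgA⟩ := hB1 (AA f) (fun m n => AA_nonneg m n) (AA_bound hRD)
  refine ⟨fun n t => gam n * tau n t, fun n x => (cn n * (gam n)⁻¹) • Bc f n x,
    ⟨?_, ?_⟩, ?_, ⟨?_, ?_⟩, ?_, ?_, ?_⟩
  · intro n
    exact contDiff_const.mul (hB3.2.1 n)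
  · intro m k
    obtain ⟨C, hC⟩ := hgr (k + m)
    refine ⟨C, fun n z => ?_⟩
    have e : iteratedFDeriv ℝ m (fun t => gam n * tau n t) z =
        gam n • iteratedFDeriv ℝ m (tau n) z := cs (gam n) (tau n) (hB3.2.1 n) m z
    rw [e, norm_smul, Real.norm_of_nonneg (hg0 n).le]
    have h1 := hB3.2.2.1 m n z
    have h2 := hg0 n
    calc ((n : ℝ) + 1) ^ k * (gam n * ‖iteratedFDeriv ℝ m (tau n) z‖)
        ≤ ((n : ℝ) + 1) ^ k * (gam n * ((n : ℝ) + 1) ^ m) := by
          refine mul_le_mul_of_nonneg_left (mul_le_mul_of_nonneg_left h1 h2.le) (by positivity)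
      _ = ((n : ℝ) + 1) ^ (k + m) * gam n := by ring
      _ ≤ C := hC n
  · intro n t
    simp only [hB3.1 n t]
  · intro n
    have h1 := Bc_smooth hB3 hf n
    have h : ContDiff ℝ ∞ (fun x => (cn n * (gam n)⁻¹) • Bc f n x) := by fun_prop
    exact h
  · intro m k
    obtain ⟨C, hC⟩ := hgA m k
    refine ⟨C, fun n z => ?_⟩
    have hg := hg0 n
    have hcn := cn_pos n
    rw [cs _ _ (Bc_smooth hB3 hf n), norm_smul, Real.norm_of_nonneg (by positivity)]
    have h1 := le_AA hRD m n z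
    have h2 := hC n
    have h3 := cn_le n
    have h4 : 0 ≤ ((n : ℝ) + 1) ^ k * ‖iteratedFDeriv ℝ m (Bc f n) z‖ := by positivity
    calc ((n : ℝ) + 1) ^ k * (cn n * (gam n)⁻¹ * ‖iteratedFDeriv ℝ m (Bc f n) z‖)
        = cn n * ((gam n)⁻¹ * (((n : ℝ) + 1) ^ k * ‖iteratedFDeriv ℝ m (Bc f n) z‖)) := by ring
      _ ≤ 1 * ((gam n)⁻¹ * (((n : ℝ) + 1) ^ k * ‖iteratedFDeriv ℝ m (Bc f n) z‖)) :=
          mul_le_mul_of_nonneg_right h3 (by positivity)
      _ ≤ 1 * ((gam n)⁻¹ * (C * gam n)) := by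
          rw [one_mul, one_mul]
          refine mul_le_mul_of_nonneg_left ?_ (by positivity)
          exact (mul_le_mul_of_nonneg_left h1 (by positivity)).trans h2
      _ = C := by field_simp
  · intro n i x
    simp only [Bc, hf.per _ i x]
  · intro n x hx
    simp only [Bc, hx, smul_zero, intervalIntegral.integral_zero]
  · intro t ht x
    have htt : t ∈ Ico (0 : ℝ) (2 * Real.pi) := ⟨ht.1, lt_of_le_of_lt ht.2 two_pi⟩
    have hcoord : ∀ i : Fin 3, HasSum
        (fun n => ((cn n * ∫ s in (0 : ℝ)..(2 * Real.pi), tau n s * f s x i) * tau n t) • e i)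
        ((f t x i) • e i) := by
      intro i
      have hgz : ∀ s, s ∉ Icc (0 : ℝ) 4 → (fun s => f s x i) s = 0 := by
        intro s hs
        simp [hf.zero s hs x]
      have hgs : ContDiff ℝ ∞ (fun s => f s x i) :=
        (EuclideanSpace.proj i : E3 →L[ℝ] ℝ).contDiff.comp (hf.line x)
      have h0 : (fun s => f s x i) 0 = 0 := by simp [hf.zero0 x]
      have h1 := hB2.1 (B9.pz (fun s => f s x i)) (pz_smooth _ hgs hgz) (pz_per _) t
      rw [pz_zero _ hgz t htt] at h1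
      simp only [coef_pz _ hgz h0] at h1
      exact h1.smul_const (e i)
    have hall := hasSum_sum (s := Finset.univ) (fun (i : Fin 3) (_ : i ∈ Finset.univ) => hcoord i)
    have h3 : ∑ i : Fin 3, (f t x i) • e i = f t x := by
      rw [Fin.sum_univ_three]
      exact (expand (f t x)).symm
    rw [h3] at hall
    convert hall using 1
    funext n
    have htc : Continuous (tau n) := B4.tau_cont n
    have hBi : ∀ i : Fin 3, (Bc f n x) i = ∫ s in (0 : ℝ)..(2 * Real.pi), tau n s * f s x i := by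
      intro i
      have hi : IntervalIntegrable (fun s => tau n s • f s x) volume 0 (2 * Real.pi) :=
        (htc.smul (hf.line x).continuous).intervalIntegrable _ _
      exact ((EuclideanSpace.proj i : E3 →L[ℝ] ℝ).intervalIntegral_comp_comm hi).symm
    have hg := (hg0 n).ne'
    have e1 : gam n * tau n t * (cn n * (gam n)⁻¹) = cn n * tau n t := by field_simp
    rw [smul_smul, e1, expand (Bc f n x), Fin.sum_univ_three, hBi, hBi, hBi]
    module

end Pool.Agent.Work.MP_b0497c_an.Forced.S
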