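import Pool.Agent.Work.MP_b0497c_an.Forced.S.Stmts
import Pool.Agent.Work.MP_b0497c_an.Algebra

set_option autoImplicit false

/-!
# Item C5: the kernel of the operator
-/

open scoped ContDiff
open Set Filter Topology MeasureTheory

namespace Pool.Agent.Work.MP_b0497c_an.Forced.S

open Pool.Agent.Work.MP_b0497c_an.Dec (cube)

namespace C5

/-- Coordinates on the product. -/
noncomputable def Xc (i : Fin 3) : E3 × E3 →L[ℝ] ℝ :=
  (EuclideanSpace.proj i : E3 →L[ℝ] ℝ).comp (ContinuousLinearMap.fst ℝ E3 E3)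

/-- Coordinates on the product. -/
noncomputable def Yc (i : Fin 3) : E3 × E3 →L[ℝ] ℝ :=
  (EuclideanSpace.proj i : E3 →L[ℝ] ℝ).comp (ContinuousLinearMap.snd ℝ E3 E3)

/-- The linear map `b ↦ colE b`. -/
noncomputable def colL : E3 →ₗ[ℝ] (E3 →L[ℝ] E3) where
  toFun := colE
  map_add' a b := by ext v i; simp [colE]
  map_smul' c a := by ext v i; simp [colE]; ring

/-- The linear map `b ↦ rowE b`. -/
noncomputable def rowL : E3 →ₗ[ℝ] (E3 →L[ℝ] E3) where
  toFun := rowE
  map_add' a b := by ext v i; simp [rowE]; ring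
  map_smul' c a := by ext v i; simp [rowE]; ring

/-- The first family. -/
noncomputable def f1 (r : ℝ → ℝ) (psi : ℕ → ℝ → ℝ) (b : ℕ → E3 → E3) (n : ℕ) (z : E3 × E3) :
    E3 := (psi n (z.2 0) * r (z.2 1)) • b n z.1

/-- The second family. -/
noncomputable def f2 (r : ℝ → ℝ) (psi : ℕ → ℝ → ℝ) (b : ℕ → E3 → E3) (n : ℕ) (z : E3 × E3) :
    E3 := (psi n (z.1 0) * r (z.1 1)) • b n z.2

theorem f1_RD (hA1 : claimA1) (hA2 : claimA2) (hA4 : claimA4) (r : ℝ → ℝ) (psi : ℕ → ℝ → ℝ)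
    (b : ℕ → E3 → E3) (hr : ContDiff ℝ ∞ r) (hrp : Per r) (hpsi : TM psi) (hb : RD b) :
    RD (f1 r psi b) := by
  have h1 : TM (fun (n : ℕ) (z : E3 × E3) => psi n (Yc 0 z)) :=
    (hA2 ℝ (E3 × E3) ℝ ℝ psi (Yc 0) (ContinuousLinearMap.id ℝ ℝ)).2.1 hpsi
  have h2 : TM (fun (_ : ℕ) => r) :=
    (hA2 ℝ ℝ ℝ ℝ (fun _ => r) (ContinuousLinearMap.id ℝ ℝ)
      (ContinuousLinearMap.id ℝ ℝ)).2.2 r hr (hA4 ℝ r hr hrp)
  have h3 : TM (fun (_ : ℕ) (z : E3 × E3) => r (Yc 1 z)) :=
    (hA2 ℝ (E3 × E3) ℝ ℝ (fun _ => r) (Yc 1) (ContinuousLinearMap.id ℝ ℝ)).2.1 h2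
  have h4 : TM (fun (n : ℕ) (z : E3 × E3) => psi n (Yc 0 z) • r (Yc 1 z)) :=
    (hA1 (E3 × E3) ℝ (fun _ z => r (Yc 1 z)) (fun n z => psi n (Yc 0 z))).2.1 h3 h1
  have h5 : RD (fun (n : ℕ) (z : E3 × E3) => b n z.1) :=
    (hA2 E3 (E3 × E3) E3 E3 b (ContinuousLinearMap.fst ℝ E3 E3)
      (ContinuousLinearMap.id ℝ E3)).1 hb
  exact (hA1 (E3 × E3) E3 (fun n z => b n z.1) (fun n z => psi n (Yc 0 z) • r (Yc 1 z))).1 h5 h4

theorem f2_eq (r : ℝ → ℝ) (psi : ℕ → ℝ → ℝ) (b : ℕ → E3 → E3) (n : ℕ) (x y : E3) :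
    f2 r psi b n (x, y) = f1 r psi b n (y, x) := rfl

theorem f2_RD (hA2 : claimA2) (r : ℝ → ℝ) (psi : ℕ → ℝ → ℝ)
    (b : ℕ → E3 → E3) (h : RD (f1 r psi b)) : RD (f2 r psi b) :=
  (hA2 (E3 × E3) (E3 × E3) E3 E3 (f1 r psi b)
    ((ContinuousLinearMap.snd ℝ E3 E3).prod (ContinuousLinearMap.fst ℝ E3 E3))
    (ContinuousLinearMap.id ℝ E3)).1 h

theorem shift_zero (i : Fin 3) (x : E3) (g : ℝ → ℝ) (hg : Per g) (j : Fin 3) :
    g ((x + (2 * Real.pi) • e i) j) = g (x j) := by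
  by_cases h : j = i
  · subst h
    have : (x + (2 * Real.pi) • e j) j = x j + 2 * Real.pi := by simp [e]
    rw [this, hg]
  · have : (x + (2 * Real.pi) • e i) j = x j := by simp [e, h]
    rw [this]

theorem f1_per1 (r : ℝ → ℝ) (psi : ℕ → ℝ → ℝ) (b : ℕ → E3 → E3)
    (hb : ∀ n, Periodic3 (b n)) (n : ℕ) (i : Fin 3) (x y : E3) :
    f1 r psi b n (x + (2 * Real.pi) • e i, y) = f1 r psi b n (x, y) := by
  simp only [f1, hb n i x]

theorem f1_per2 (r : ℝ → ℝ) (psi : ℕ → ℝ → ℝ) (b : ℕ → E3 → E3) (hrp : Per r)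
    (hpsi : ∀ n, Per (psi n)) (n : ℕ) (i : Fin 3) (x y : E3) :
    f1 r psi b n (x, y + (2 * Real.pi) • e i) = f1 r psi b n (x, y) := by
  simp only [f1]
  rw [shift_zero i y (psi n) (hpsi n) 0, shift_zero i y r hrp 1]

/-- Sum and integral over the cube. -/
theorem hasSum_cube {F : Type} [NormedAddCommGroup F] [NormedSpace ℝ F] [CompleteSpace F]
    (g : ℕ → E3 → F) (hg : ∀ n, IntegrableOn (g n) cube) (v : E3 → ℝ)
    (hv : IntegrableOn v cube) (C : ℕ → ℝ) (hC : Summable C) (hb : ∀ n y, ‖g n y‖ ≤ C n * v y) :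
    HasSum (fun n => ∫ y in cube, g n y) (∫ y in cube, ∑' n, g n y) := by
  refine hasSum_integral_of_summable_integral_norm hg ?_
  refine Summable.of_nonneg_of_le (fun n => integral_nonneg (fun y => norm_nonneg _)) (fun n => ?_)
    (hC.mul_right (∫ y in cube, v y))
  rw [← integral_const_mul]
  exact integral_mono (hg n).norm (hv.const_mul _) (fun y => hb n y)

end C5

open C5 in
theorem prfC5 (hA1 : claimA1) (hA2 : claimA2) (hA3 : claimA3) (hA4 : claimA4)
    (hC4 : claimC4) : claimC5 := by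
  intro r psi b hr hrp hpsi hpp hb hbp
  have hf1 := f1_RD hA1 hA2 hA4 r psi b hr hrp hpsi hb
  have hf2 := f2_RD hA2 r psi b hf1
  obtain ⟨hs1, -, ⟨C1, hC1, hb1⟩, hS1, -⟩ := hA3 (E3 × E3) E3 (f1 r psi b) hf1
  obtain ⟨hs2, -, ⟨C2, hC2, hb2⟩, hS2, -⟩ := hA3 (E3 × E3) E3 (f2 r psi b) hf2
  set S1 : E3 × E3 → E3 := fun z => ∑' n, f1 r psi b n z with hS1def
  set S2 : E3 × E3 → E3 := fun z => ∑' n, f2 r psi b n z with hS2def
  have hS12 : ∀ x y, S2 (x, y) = S1 (y, x) := fun x y => rfl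
  set cL : E3 →L[ℝ] (E3 →L[ℝ] E3) := LinearMap.toContinuousLinearMap colL with hcL
  set rL : E3 →L[ℝ] (E3 →L[ℝ] E3) := LinearMap.toContinuousLinearMap rowL with hrL
  have hcLa : ∀ a, cL a = colE a := fun a => rfl
  have hrLa : ∀ a, rL a = rowE a := fun a => rfl
  have hKK : ∀ x y, KK r psi b x y = cL (S1 (x, y)) - rL (S2 (x, y)) := by
    intro x y
    have e1 : cL (S1 (x, y)) = ∑' n, cL (f1 r psi b n (x, y)) :=
      cL.map_tsum (Summable.of_norm (hs1 (x, y)))
    have e2 : rL (S2 (x, y)) = ∑' n, rL (f2 r psi b n (x, y)) :=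
      rL.map_tsum (Summable.of_norm (hs2 (x, y)))
    have s1 : Summable (fun n => cL (f1 r psi b n (x, y))) :=
      cL.summable (Summable.of_norm (hs1 (x, y)))
    have s2 : Summable (fun n => rL (f2 r psi b n (x, y))) :=
      rL.summable (Summable.of_norm (hs2 (x, y)))
    rw [e1, e2, ← s1.tsum_sub s2]
    unfold KK
    refine tsum_congr (fun n => ?_)
    simp only [f1, f2]
    rw [map_smul cL, map_smul rL, hcLa, hrLa]
  have happ : ∀ x y w, KK r psi b x y w =
      (w 2) • S1 (x, y) - (inner ℝ (S2 (x, y)) w) • e 2 := by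
    intro x y w
    rw [hKK, hcLa, hrLa]
    simp only [sub_apply, colE, rowE, ContinuousLinearMap.smulRight_apply, innerSL_apply_apply]
    congr 2
    rw [inner_eq]
    simp [e]
  have hper1 : ∀ (i : Fin 3) (x y : E3), S1 (x + (2 * Real.pi) • e i, y) = S1 (x, y) :=
    fun i x y => tsum_congr (fun n => f1_per1 r psi b hbp n i x y)
  have hper2 : ∀ (i : Fin 3) (x y : E3), S1 (x, y + (2 * Real.pi) • e i) = S1 (x, y) :=
    fun i x y => tsum_congr (fun n => f1_per2 r psi b hrp hpp n i x y)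
  refine ⟨⟨?_, ?_, ?_, ?_⟩, ?_⟩
  · have : (fun z : E3 × E3 => KK r psi b z.1 z.2) = fun z => cL (S1 z) - rL (S2 z) := by
      funext z
      exact hKK z.1 z.2
    rw [this]
    exact (cL.contDiff.comp hS1).sub (rL.contDiff.comp hS2)
  · intro i x y
    rw [hKK, hKK, hS12, hS12, hper1, hper2]
  · intro i x y
    rw [hKK, hKK, hS12, hS12, hper1, hper2]
  · intro x y v w
    rw [happ, happ, hS12, hS12, inner_sub_left, inner_sub_right, inner_smul_left,
      inner_smul_left, inner_smul_right, inner_smul_right]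
    have h1 : inner ℝ (e 2) w = w 2 := by rw [inner_eq]; simp [e]
    have h2 : inner ℝ v (e 2) = v 2 := by rw [inner_eq]; simp [e]
    rw [h1, h2, real_inner_comm (S1 (y, x)) v]
    simp only [conj_trivial]
    ring
  · intro v hv hvp x
    have hcont1 : ∀ n, Continuous (fun y => f1 r psi b n (x, y)) := fun n =>
      ((hf1.1 n).continuous).comp (Continuous.prodMk_right x)
    have hcont2 : ∀ n, Continuous (fun y => f2 r psi b n (x, y)) := fun n =>
      ((hf2.1 n).continuous).comp (Continuous.prodMk_right x)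
    have hv2 : Continuous (fun y => v y 2) :=
      (EuclideanSpace.proj (2 : Fin 3) : E3 →L[ℝ] ℝ).continuous.comp hv
    have hvn : IntegrableOn (fun y => ‖v y‖) cube := hC4.2.2 _ hv.norm
    have hv2n : ∀ y, |v y 2| ≤ ‖v y‖ := fun y => by
      have := EuclideanSpace.norm_eq (v y)
      exact (PiLp.norm_apply_le (v y) 2)
    have H1 := hasSum_cube (fun n y => (v y 2) • f1 r psi b n (x, y))
      (fun n => hC4.2.1 _ (hv2.smul (hcont1 n))) (fun y => ‖v y‖) hvn C1 hC1
      (fun n y => by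
        rw [norm_smul, mul_comm]
        exact mul_le_mul (hb1 n _) (hv2n y) (norm_nonneg _)
          ((norm_nonneg _).trans (hb1 n (x, y))))
    have H2 := hasSum_cube (fun n y => (inner ℝ (f2 r psi b n (x, y)) (v y) : ℝ))
      (fun n => hC4.2.2 _ ((hcont2 n).inner hv)) (fun y => ‖v y‖) hvn C2 hC2
      (fun n y => (norm_inner_le_norm _ _).trans
        (mul_le_mul_of_nonneg_right (hb2 n _) (norm_nonneg _)))
    have t1 : ∀ n, ∫ y in cube, (v y 2) • f1 r psi b n (x, y) =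
        (∫ y in cube, psi n (y 0) * r (y 1) * v y 2) • b n x := by
      intro n
      rw [← integral_smul_const]
      refine integral_congr_ae (Eventually.of_forall (fun y => ?_))
      simp only [f1, smul_smul]
      congr 1
      ring
    have t2 : ∀ n, ∫ y in cube, (inner ℝ (f2 r psi b n (x, y)) (v y) : ℝ) =
        psi n (x 0) * r (x 1) * ∫ y in cube, inner ℝ (b n y) (v y) := by
      intro n
      rw [← integral_const_mul]
      refine integral_congr_ae (Eventually.of_forall (fun y => ?_))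
      simp only [f2, inner_smul_left, conj_trivial]
    simp only [t1] at H1
    simp only [t2] at H2
    refine ⟨H1.summable, H2.summable, ?_⟩
    rw [H1.tsum_eq, H2.tsum_eq]
    have p1 : ∀ y, ∑' n, (v y 2) • f1 r psi b n (x, y) = (v y 2) • S1 (x, y) := fun y =>
      (Summable.of_norm (hs1 (x, y))).tsum_const_smul _
    have p2 : ∀ y, ∑' n, (inner ℝ (f2 r psi b n (x, y)) (v y) : ℝ) =
        inner ℝ (S2 (x, y)) (v y) := fun y => by
      have h := ((innerSL ℝ (v y)).map_tsum (Summable.of_norm (hs2 (x, y)))).symm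
      simp only [innerSL_apply_apply] at h
      rw [real_inner_comm, ← h]
      exact tsum_congr (fun n => real_inner_comm _ _)
    simp only [p1, p2]
    have c1 : Continuous (fun y => (v y 2) • S1 (x, y)) :=
      hv2.smul (hS1.continuous.comp (Continuous.prodMk_right x))
    have c2 : Continuous (fun y => (inner ℝ (S2 (x, y)) (v y) : ℝ)) :=
      (hS2.continuous.comp (Continuous.prodMk_right x)).inner hv
    have c3 : Continuous (fun y => (inner ℝ (S2 (x, y)) (v y) : ℝ) • e 2) :=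
      c2.smul continuous_const
    rw [← integral_smul_const, ← integral_sub (hC4.2.1 _ c1) (hC4.2.1 _ c3)]
    exact integral_congr_ae (Eventually.of_forall (fun y => happ x y (v y)))

end Pool.Agent.Work.MP_b0497c_an.Forced.S
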