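import Pool.Agent.Work.MP_b0497c_an.Forced.S.Stmts
import Pool.Agent.Work.MP_b0497c_an.Algebra

set_option autoImplicit false

/-!
# Item C6: the flow in the slab
-/

open scoped ContDiff
open Set Filter Topology MeasureTheory

namespace Pool.Agent.Work.MP_b0497c_an.Forced.S

namespace C6

/-- The first space coordinate on space-time. -/
noncomputable def P0 : ℝ × E3 →L[ℝ] ℝ :=
  (EuclideanSpace.proj (0 : Fin 3) : E3 →L[ℝ] ℝ).comp (ContinuousLinearMap.snd ℝ ℝ E3)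

/-- Time and the second space coordinate. -/
noncomputable def P1 : ℝ × E3 →L[ℝ] ℝ × ℝ :=
  (ContinuousLinearMap.fst ℝ ℝ E3).prod
    ((EuclideanSpace.proj (1 : Fin 3) : E3 →L[ℝ] ℝ).comp (ContinuousLinearMap.snd ℝ ℝ E3))

theorem P0_apply (z : ℝ × E3) : P0 z = z.2 0 := rfl

theorem P1_apply (z : ℝ × E3) : P1 z = (z.1, z.2 1) := rfl

/-- The terms of the series. -/
noncomputable def fam (psi : ℕ → ℝ → ℝ) (C : ℕ → ℝ × ℝ → ℝ) (n : ℕ) (z : ℝ × E3) : ℝ :=
  psi n (P0 z) • C n (P1 z)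

theorem fam_RD (hA1 : claimA1) (hA2 : claimA2) (psi : ℕ → ℝ → ℝ) (C : ℕ → ℝ × ℝ → ℝ)
    (hpsi : TM psi) (hC : RD C) : RD (fam psi C) := by
  have h1 : RD (fun n z => C n (P1 z)) :=
    (hA2 (ℝ × ℝ) (ℝ × E3) ℝ ℝ C P1 (ContinuousLinearMap.id ℝ ℝ)).1 hC
  have h2 : TM (fun n z => psi n (P0 z)) :=
    (hA2 ℝ (ℝ × E3) ℝ ℝ psi P0 (ContinuousLinearMap.id ℝ ℝ)).2.1 hpsi
  exact (hA1 (ℝ × E3) ℝ (fun n z => C n (P1 z)) (fun n z => psi n (P0 z))).1 h1 h2

/-- The derivative of the terms. -/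
theorem fam_fderiv (psi : ℕ → ℝ → ℝ) (C : ℕ → ℝ × ℝ → ℝ) (hpsi : TM psi) (hC : RD C) (n : ℕ)
    (z : ℝ × E3) (w : ℝ × E3) : fderiv ℝ (fam psi C n) z w =
      psi n (z.2 0) * fderiv ℝ (C n) (z.1, z.2 1) (w.1, w.2 1)
        + C n (z.1, z.2 1) * fderiv ℝ (psi n) (z.2 0) (w.2 0) := by
  have h1 : HasFDerivAt (fun z => C n (P1 z)) ((fderiv ℝ (C n) (P1 z)).comp P1) z :=
    (((hC.1 n).differentiable (by simp)) (P1 z)).hasFDerivAt.comp z P1.hasFDerivAt
  have h2 : HasFDerivAt (fun z => psi n (P0 z)) ((fderiv ℝ (psi n) (P0 z)).comp P0) z :=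
    (((hpsi.1 n).differentiable (by simp)) (P0 z)).hasFDerivAt.comp z P0.hasFDerivAt
  have h3 : HasFDerivAt (fam psi C n) _ z := h2.mul h1
  rw [h3.fderiv]
  simp only [add_apply, smul_apply,
    ContinuousLinearMap.comp_apply, smul_eq_mul, P0_apply, P1_apply]

/-- The series. -/
noncomputable def W (psi : ℕ → ℝ → ℝ) (C : ℕ → ℝ × ℝ → ℝ) (z : ℝ × E3) : ℝ :=
  ∑' n, fam psi C n z

theorem VV_eq (U : ℝ → ℝ) (psi : ℕ → ℝ → ℝ) (C : ℕ → ℝ × ℝ → ℝ) (t : ℝ) (x : E3) :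
    VV U psi C t x = U (x 0) • e 1 + W psi C (t, x) • e 2 := rfl

end C6

open C6 in
theorem prfC6 (hA1 : claimA1) (hA2 : claimA2) (hA3 : claimA3) : claimC6 := by
  intro U psi C hpsi hper hU hUper hC hCper hU1
  have hRD := fam_RD hA1 hA2 psi C hpsi hC
  obtain ⟨-, hs2, -, hsm, hder⟩ := hA3 (ℝ × E3) ℝ (fam psi C) hRD
  have hWsm : ContDiff ℝ ∞ (W psi C) := hsm
  set Wd : ℝ × E3 → (ℝ × E3 →L[ℝ] ℝ) := fun z => ∑' n, fderiv ℝ (fam psi C n) z with hWd
  have hWder : ∀ z, HasFDerivAt (W psi C) (Wd z) z := hder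
  have hsum : ∀ z w, Summable (fun n => fderiv ℝ (fam psi C n) z w) := fun z w =>
    (ContinuousLinearMap.apply ℝ ℝ w).summable (Summable.of_norm (hs2 z))
  have hWapp : ∀ z w, Wd z w = ∑' n, fderiv ℝ (fam psi C n) z w := fun z w =>
    (ContinuousLinearMap.apply ℝ ℝ w).map_tsum (Summable.of_norm (hs2 z))
  -- derivatives of the flow
  have hUd : ∀ x : E3, HasFDerivAt (fun y : E3 => U (y 0))
      ((fderiv ℝ U (x 0)).comp (EuclideanSpace.proj (0 : Fin 3) : E3 →L[ℝ] ℝ)) x := fun x =>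
    HasFDerivAt.comp x (f := (EuclideanSpace.proj (0 : Fin 3) : E3 →L[ℝ] ℝ))
      (((hU.differentiable (by simp)) (x 0)).hasFDerivAt)
      (EuclideanSpace.proj (0 : Fin 3) : E3 →L[ℝ] ℝ).hasFDerivAt
  have hWx : ∀ (t : ℝ) (x : E3), HasFDerivAt (fun y : E3 => W psi C (t, y))
      ((Wd (t, x)).comp (ContinuousLinearMap.inr ℝ ℝ E3)) x := fun t x =>
    (hWder (t, x)).comp x (hasFDerivAt_prodMk_right t x)
  have hWt : ∀ (t : ℝ) (x : E3), HasDerivAt (fun s : ℝ => W psi C (s, x))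
      (Wd (t, x) (1, 0)) t := fun t x => by
    have h1 : HasDerivAt (fun s : ℝ => ((s, x) : ℝ × E3)) (1, 0) t :=
      (hasDerivAt_id t).prodMk (hasDerivAt_const t x)
    exact HasFDerivAt.comp_hasDerivAt (f := fun s : ℝ => ((s, x) : ℝ × E3)) t
      (hWder (t, x)) h1
  have hVx : ∀ (t : ℝ) (x : E3), HasFDerivAt (VV U psi C t)
      (((fderiv ℝ U (x 0)).comp (EuclideanSpace.proj (0 : Fin 3) : E3 →L[ℝ] ℝ)).smulRight (e 1)
        + ((Wd (t, x)).comp (ContinuousLinearMap.inr ℝ ℝ E3)).smulRight (e 2)) x := fun t x =>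
    ((hUd x).smul_const (e 1)).add ((hWx t x).smul_const (e 2))
  have hVt : ∀ (t : ℝ) (x : E3), HasDerivAt (fun s => VV U psi C s x)
      (Wd (t, x) (1, 0) • e 2) t := fun t x => by
    have := ((hWt t x).smul_const (e 2)).const_add (U (x 0) • e 1)
    exact this
  refine ⟨?_, ?_, ?_, ?_⟩
  · have h1 : ContDiff ℝ ∞ (fun z : ℝ × E3 => U (z.2 0)) := hU.comp P0.contDiff
    exact (h1.smul contDiff_const).add (hWsm.smul contDiff_const)
  · intro t i x
    simp only [VV]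
    fin_cases i
    · have h0 : (x + (2 * Real.pi) • e 0) 0 = x 0 + 2 * Real.pi := by simp [e]
      have h1 : (x + (2 * Real.pi) • e 0) 1 = x 1 := by simp [e]
      simp only [Fin.zero_eta, h0, h1, hUper (x 0), hper _ (x 0)]
    · have h0 : (x + (2 * Real.pi) • e 1) 0 = x 0 := by simp [e]
      have h1 : (x + (2 * Real.pi) • e 1) 1 = x 1 + 2 * Real.pi := by simp [e]
      simp only [Fin.mk_one, h0, h1, hCper _ t (x 1)]
    · have h0 : (x + (2 * Real.pi) • e 2) 0 = x 0 := by simp [e]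
      have h1 : (x + (2 * Real.pi) • e 2) 1 = x 1 := by simp [e]
      simp only [Fin.reduceFinMk, h0, h1]
  · intro t x
    rw [(hVx t x).fderiv, trace_eq]
    have h2 : Wd (t, x) (0, e 2) = 0 := by
      rw [hWapp]
      simp only [fam_fderiv psi C hpsi hC]
      have h0 : (e 2) 0 = 0 := by simp [e]
      have h1 : (e 2) 1 = 0 := by simp [e]
      have h00 : ((0 : ℝ), (0 : ℝ)) = 0 := rfl
      simp only [h0, h1, h00, map_zero, mul_zero, add_zero, tsum_zero]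
    simp only [add_apply, ContinuousLinearMap.smulRight_apply,
      ContinuousLinearMap.comp_apply, ContinuousLinearMap.inr_apply, h2, zero_smul, add_zero]
    simp [e]
  · intro t x
    have hv0 : (VV U psi C t x) 0 = 0 := by simp [VV, e]
    have hv1 : (VV U psi C t x) 1 = U (x 0) := by simp [VV, e]
    have hterm : ∀ n, fderiv ℝ (fam psi C n) (t, x) (1, VV U psi C t x) =
        psi n (x 0) * fderiv ℝ (C n) (t, x 1) (1, 1) := by
      intro n
      rw [fam_fderiv psi C hpsi hC]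
      simp only [hv0, hv1, map_zero, mul_zero, add_zero]
      by_cases h : psi n (x 0) = 0
      · simp [h]
      · rw [hU1 n (x 0) h]
    have hsm' := hsum (t, x) (1, VV U psi C t x)
    simp only [hterm] at hsm'
    refine ⟨hsm', ?_⟩
    rw [(hVt t x).deriv, (hVx t x).fderiv]
    simp only [add_apply, ContinuousLinearMap.smulRight_apply,
      ContinuousLinearMap.comp_apply, ContinuousLinearMap.inr_apply]
    have h3 : (EuclideanSpace.proj (0 : Fin 3) : E3 →L[ℝ] ℝ) (VV U psi C t x) = 0 := hv0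
    rw [h3, map_zero, zero_smul, zero_add, ← add_smul, ← map_add]
    congr 1
    have h4 : ((1 : ℝ), (0 : E3)) + (0, VV U psi C t x) = (1, VV U psi C t x) := by simp
    rw [h4, hWapp]
    exact tsum_congr hterm

end Pool.Agent.Work.MP_b0497c_an.Forced.S
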