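import Pool.Agent.Work.MP_b0497c_an.Bd.B17

set_option autoImplicit false

/-!
# Theorem S'', part II: one kernel, every size `ε ≠ 0` and every blow-up time
-/

open scoped ContDiff
open Set Filter Topology MeasureTheory

namespace Pool.Agent.Work.MP_b0497c_an.Forced.S

open Pool.Agent.Work.MP_b0497c_an.Dec (cube)

/-- Conclusion for one kernel `K` (acting with factor `ε`) and one blow-up time `T`. -/
def SCore3 (K : E3 → E3 → E3 →L[ℝ] E3) (ε T : ℝ) : Prop := ∃ u0 : E3 → E3, ContDiff ℝ ∞ u0 ∧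
  (∃ w : ℝ → E3 → E3, ContDiff ℝ ∞ (fun z : ℝ × E3 => w z.1 z.2) ∧ (∀ x, w 0 x = u0 x) ∧
    ∀ T : ℝ, IsPertSolution T (fun _ _ => 0) w (fun _ _ => 0)) ∧
  ∃ (u : ℝ → E3 → E3) (p : ℝ → E3 → ℝ),
    ContDiffOn ℝ ∞ (fun z : ℝ × E3 => u z.1 z.2) (Ico 0 T ×ˢ univ) ∧
    ContDiffOn ℝ ∞ (fun z : ℝ × E3 => p z.1 z.2) (Ico 0 T ×ˢ univ) ∧
    IsPertSolution T (op ε K) u p ∧ (∀ x, u 0 x = u0 x) ∧
    (∀ t ∈ Ico 0 T, ∫ x in cube, ‖u t x‖ ^ 2 = ∫ x in cube, ‖u 0 x‖ ^ 2) ∧
    Tendsto (fun t => ‖curl (u t) 0‖) (𝓝[<] T) atTop ∧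
    ∀ (T' : ℝ) (v : ℝ → E3 → E3) (q : ℝ → E3 → ℝ), IsPertSolution T' (op ε K) v q →
      (∀ x, v 0 x = u 0 x) → T' ≤ T ∧ ∀ t ∈ Ico 0 T', ∀ x, v t x = u t x

/-- The conclusion: one kernel, all `ε ≠ 0`, all blow-up times. -/
def SConclusion3 : Prop := ∃ K : E3 → E3 → E3 →L[ℝ] E3, GoodKernel K ∧
  ∀ ε T : ℝ, ε ≠ 0 → 0 < T → SCore3 K ε T

namespace Fin3

theorem good_smul {K : E3 → E3 → E3 →L[ℝ] E3} (h : GoodKernel K) (s : ℝ) :
    GoodKernel (fun x y => s • K x y) := by
  refine ⟨h.smooth.const_smul s, fun i x y => ?_, fun i x y => ?_, fun x y v w => ?_⟩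
  · rw [h.per1]
  · rw [h.per2]
  · have := h.skew x y v w
    simp only [FunLike.coe_smul, Pi.smul_apply, inner_smul_left, inner_smul_right,
      this]
    simp

theorem op_smul (ε s : ℝ) (K : E3 → E3 → E3 →L[ℝ] E3) (v : E3 → E3) (x : E3) :
    op ε (fun x y => s • K x y) v x = op (ε * s) K v x := by
  simp only [op, FunLike.coe_smul, Pi.smul_apply, integral_smul, smul_smul]

end Fin3

theorem sfin3 (hA2 : claimA2) (hB5 : claimB5) (hB7 : claimB7) (hB8 : claimB8) (hB9 : claimB9) (hC1 : claimC1)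
    (hC2 : claimC2) (hC3 : claimC3) (hC4 : claimC4) (hC5 : claimC5) (hC6 : claimC6)
    (hD1 : claimD1) (hD2 : claimD2) (hD3 : claimD3) (hD4 : claimD4) (hD5 : claimD5)
    {T : ℝ} {f u : ℝ → E3 → E3} {p : ℝ → E3 → ℝ} (h : TorusAvg T f u p) : SConclusion3 := by
  classical
  obtain ⟨F, b, hF, hFper, hb, hbper, hbsupp, hexp⟩ := hB7 f h.f_smooth h.f_per h.f_time
  obtain ⟨G, hG1, hG2⟩ := h.avg
  -- the averages
  have hgRD : RD (fun n => G (b n)) := by
    refine ⟨fun n => (hG1 (b n) (hb.1 n) (hbper n)).1, fun m k => ?_⟩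
    obtain ⟨C, m', hC⟩ := hG2 m
    -- bounds of the derivatives of `b n` up to order `m'`
    have h1 : ∀ i : ℕ, ∃ D : ℝ, ∀ (n : ℕ) (z : E3),
        ((n : ℝ) + 1) ^ k * ‖iteratedFDeriv ℝ i (b n) z‖ ≤ D := fun i => hb.2 i k
    choose D hD using h1
    have hDn : ∀ i, 0 ≤ D i := fun i => le_trans (by positivity) (hD i 0 0)
    set D' : ℝ := ∑ i ∈ Finset.range (m' + 1), D i with hD'
    have hDle : ∀ i ≤ m', D i ≤ D' := fun i hi =>
      Finset.single_le_sum (f := D) (fun j _ => hDn j) (Finset.mem_range.2 (Nat.lt_succ_of_le hi))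
    refine ⟨C * D', fun n t => ?_⟩
    have hpos : (0 : ℝ) < ((n : ℝ) + 1) ^ k := by positivity
    have h2 := hC (b n) (hb.1 n) (hbper n) (D' / ((n : ℝ) + 1) ^ k) (fun i hi x => by
      rw [le_div_iff₀ hpos, mul_comm]
      exact le_trans (hD i n x) (hDle i hi)) t
    rw [norm_iteratedFDeriv_eq_norm_iteratedDeriv, Real.norm_eq_abs]
    calc ((n : ℝ) + 1) ^ k * |iteratedDeriv m (G (b n)) t|
        ≤ ((n : ℝ) + 1) ^ k * (C * (D' / ((n : ℝ) + 1) ^ k)) :=
          mul_le_mul_of_nonneg_left h2 hpos.le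
      _ = C * D' := by
          field_simp
  obtain ⟨Gp, hGp, hGpper, hGpeq, hGp0⟩ := hB9 _ hgRD
    (fun n t ht => (hG1 (b n) (hb.1 n) (hbper n)).2.2 t ht)
  obtain ⟨r, Phi, Gam, hr, hrper, hreven, hPhi, hGam, hPhiper, hGamper, hFr, hGr⟩ :=
    hB5 F Gp hF hGp hFper hGpper
  obtain ⟨psi, U, hpsi, hpsiper, hU, hUper, hdisj, hnorm, hpsiU, hsupp⟩ := hB8
  obtain ⟨hK, hact⟩ := hC5 r psi b hr hrper hpsi hpsiper hb hbper
  -- it is enough to treat the time `T` and the factor `σ ≠ 0`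
  suffices H : ∀ σ : ℝ, σ ≠ 0 → ∀ l : ℝ, 0 < l → SCore3 (KK r psi b) (l * σ) (T / l) by
    refine ⟨KK r psi b, hK, fun ε T' hε hT' => ?_⟩
    have hT := h.T_pos
    have h1 := H (ε * T' / T) (by positivity) (T / T') (by positivity)
    have e1 : T / T' * (ε * T' / T) = ε := by field_simp
    have e2 : T / (T / T') = T' := by field_simp
    rwa [e1, e2] at h1
  intro σ hσ l hl
  set Phi' : ℕ → ℝ → ℝ := fun n z => σ⁻¹ * Phi n z with hPhi'def
  set Gam' : ℕ → ℝ → ℝ := fun n z => σ * Gam n z with hGam'def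
  have hscal : ∀ (c : ℝ) (g : ℕ → ℝ → ℝ), RD g → RD (fun n z => c * g n z) := by
    intro c g hg
    have := ((hA2 ℝ ℝ ℝ ℝ g (ContinuousLinearMap.id ℝ ℝ) (c • ContinuousLinearMap.id ℝ ℝ)).1 hg)
    simpa using this
  have hPhi' : RD Phi' := hscal _ _ hPhi
  have hGam' : RD Gam' := hscal _ _ hGam
  have hPhi'per : ∀ n, Per (Phi' n) := fun n t => by simp only [hPhi'def, hPhiper n t]
  have hGam'per : ∀ n, Per (Gam' n) := fun n t => by simp only [hGam'def, hGamper n t]
  have hcvs : ∀ (c : ℝ) (g : ℝ → ℝ) (t : ℝ), cv r (fun z => c * g z) t = c * cv r g t := by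
    intro c g t
    simp only [cv]
    rw [← intervalIntegral.integral_const_mul]
    congr 1
    funext y
    ring
  obtain ⟨hCn, hCnper⟩ := hC1 r Phi' Gam' hr hrper hPhi' hGam' hPhi'per hGam'per
  obtain ⟨hVs, hVper, hVdiv, hVeu⟩ := hC6 U psi (Cn r Phi' Gam') hpsi hpsiper hU hUper hCn hCnper
    hpsiU
  set V : ℝ → E3 → E3 := VV U psi (Cn r Phi' Gam') with hV
  have hVsupp : ∀ t, ∀ x : E3, - (1 / 2) ≤ Real.cos (x 0) → V t x = 0 := by
    intro t x hx
    obtain ⟨h1, h2⟩ := hsupp (x 0) hx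
    simp only [hV, VV, h1, h2]
    simp
  have hVc : ∀ t, Continuous (V t) := fun t =>
    hVs.continuous.comp (continuous_const.prodMk continuous_id)
  have huc : ∀ t < T, Continuous (u t) := by
    intro t ht
    have h1 : ContinuousOn (fun z : ℝ × E3 => u z.1 z.2) (Iio T ×ˢ univ) := h.u_smooth.continuousOn
    have h2 : ContinuousOn ((fun z : ℝ × E3 => u z.1 z.2) ∘ (fun x : E3 => (t, x))) univ :=
      h1.comp (continuous_const.prodMk continuous_id).continuousOn (fun x _ => ⟨ht, mem_univ _⟩)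
    exact continuousOn_univ.mp h2
  have hpsic : ∀ n, Continuous (psi n) := fun n => (hpsi.1 n).continuous
  have hrc : Continuous r := hr.continuous
  have hCc : ∀ n, Continuous (Cn r Phi' Gam' n) := fun n => (hCn.1 n).continuous
  -- reading the channels
  have hread : ∀ t < T, ∀ n, ∫ y in cube, psi n (y 0) * r (y 1) * (u t y + V t y) 2 =
      σ⁻¹ * F n t := by
    intro t ht n
    have h1 : ∀ y : E3, psi n (y 0) * r (y 1) * (u t y + V t y) 2 =
        (psi n (y 0) * psi n (y 0)) * (r (y 1) * Cn r Phi' Gam' n (t, y 1)) := by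
      intro y
      by_cases hp : psi n (y 0) = 0
      · simp [hp]
      · have hcos : Real.cos (y 0) < -(1 / 2) := by
          by_contra hcon
          exact hp ((hsupp (y 0) (not_lt.1 hcon)).2 n)
        have hu0 : u t y = 0 := h.u_supp t ht y (by linarith)
        have hV2 : V t y 2 = psi n (y 0) * Cn r Phi' Gam' n (t, y 1) := by
          have h3 : ∑' m, psi m (y 0) * Cn r Phi' Gam' m (t, y 1) =
              psi n (y 0) * Cn r Phi' Gam' n (t, y 1) := by
            apply tsum_eq_single n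
            intro m hm
            have := hdisj m n hm (y 0)
            rcases mul_eq_zero.1 this with h4 | h4
            · rw [h4, zero_mul]
            · exact absurd h4 hp
          simp only [hV, VV, h3]
          simp [e]
        rw [hu0, zero_add, hV2]
        ring
    simp only [h1]
    rw [hC4.1 (fun s => psi n s * psi n s) (fun s => r s * Cn r Phi' Gam' n (t, s))
      ((hpsic n).mul (hpsic n)) (hrc.mul ((hCc n).comp (continuous_const.prodMk continuous_id))),
      hnorm n, one_mul, hC2 r Phi' Gam' hr hrper hreven hPhi' hGam' hPhi'per hGam'per n t]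
    simp only [hPhi'def]
    rw [hcvs, hFr n t]
  -- the averages against `b n`
  have havg : ∀ t, 0 ≤ t → t < T → ∀ n, ∫ y in cube, inner ℝ (b n y) (u t y + V t y) =
      cv r (Gam n) t := by
    intro t ht0 ht n
    have h1 : ∀ y : E3, inner ℝ (b n y) (u t y + V t y) = inner ℝ (b n y) (u t y) := by
      intro y
      rcases lt_or_ge (Real.cos (y 0)) (1 / 2) with hc | hc
      · have : b n y = 0 := hbsupp n y (fun s => h.f_supp s y hc)
        simp [this]
      · rw [hVsupp t y (by linarith), add_zero]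
    simp only [h1]
    rw [← (hG1 (b n) (hb.1 n) (hbper n)).2.1 t ht, ← hGr n t]
    exact (hGpeq n t ⟨ht0, by linarith [h.T_lt]⟩).symm
  have hT3 : T < 3 := h.T_lt
  -- the perturbation acting on the flow
  have hpert : ∀ t ∈ Ico 0 T, ∀ x,
      op 1 (fun x y => σ • KK r psi b x y) (fun y => u t y + V t y) x =
      f t x + (deriv (fun s => V s x) t + fderiv ℝ (V t) x (V t x)) := by
    intro t ht x
    have hcont : Continuous (fun y => u t y + V t y) := (huc t ht.2).add (hVc t)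
    have hper : Periodic3 (fun y => u t y + V t y) := fun i y => by
      show u t (y + (2 * Real.pi) • e i) + V t (y + (2 * Real.pi) • e i) = u t y + V t y
      rw [h.u_per t ht.2 i y, hVper t i y]
    obtain ⟨hs1, hs2, hint⟩ := hact _ hcont hper x
    rw [Fin3.op_smul, one_mul]
    simp only [op]
    rw [hint, (hVeu t x).2]
    have e1 : ∑' n, (∫ y in cube, psi n (y 0) * r (y 1) * (u t y + V t y) 2) • b n x =
        σ⁻¹ • f t x := by
      simp only [hread t ht.2, mul_smul]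
      exact ((hexp t ⟨ht.1, by linarith [ht.2]⟩ x).const_smul σ⁻¹).tsum_eq
    have e2 : ∑' n, psi n (x 0) * fderiv ℝ (Cn r Phi' Gam' n) (t, x 1) (1, 1) =
        - (σ * ∑' n, psi n (x 0) * r (x 1) *
          ∫ y in cube, inner ℝ (b n y) (u t y + V t y)) := by
      rw [← tsum_mul_left, ← tsum_neg]
      congr 1
      funext n
      have h0 : cv r (Gam' n) (t - 3) = 0 := by
        simp only [hGam'def]
        rw [hcvs, ← hGr n (t - 3), hGp0 n (t - 3) ⟨by linarith [ht.1], by linarith [ht.2]⟩,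
          mul_zero]
      rw [havg t ht.1 ht.2 n, hC3 r Phi' Gam' hr hrper hreven hPhi' hGam' hPhi'per hGam'per n t
        (x 1) h0]
      simp only [hGam'def]
      rw [hcvs]
      ring
    rw [e1, e2, smul_sub, smul_smul, mul_inv_cancel₀ hσ, one_smul, smul_smul, neg_smul,
      sub_eq_add_neg]
  obtain ⟨hus, hps, hsol, hblow⟩ := hD5 T f u V p (op 1 (fun x y => σ • KK r psi b x y)) h hVs
    hVper hVdiv hVsupp hpert
  have hKg : GoodKernel (fun x y => σ • KK r psi b x y) := Fin3.good_smul hK σ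
  obtain ⟨k1, k2, k3, k4⟩ := hD3 T (fun x y => σ • KK r psi b x y) _ p l hl h.T_pos hus hps hsol
    hblow
  have hT' : 0 < T / l := div_pos h.T_pos hl
  have hopeq : op l (fun x y => σ • KK r psi b x y) = op (l * σ) (KK r psi b) := by
    funext v x
    exact Fin3.op_smul l σ (KK r psi b) v x
  rw [hopeq] at k3
  refine ⟨fun x => l • V 0 x, ?_, Fin2.glob hA2 hC6 U psi (Cn r Phi' Gam') hpsi hpsiper hU hUper
    hCn hCnper hpsiU l, ?_⟩
  · exact (hVs.comp (contDiff_const.prodMk contDiff_id)).const_smul l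
  refine ⟨_, _, k1, k2, k3, ?_, hD2 _ (l * σ) _ _ _ hK k3, k4, ?_⟩
  · intro x
    simp only [mul_zero]
    rw [h.u_zero 0 le_rfl x, zero_add]
  · exact hD4 (T / l) (l * σ) (KK r psi b) _ _ hT' hK hD1 k3 k4

end Pool.Agent.Work.MP_b0497c_an.Forced.S
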