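import Pool.Agent.Work.MP_b0497c_an.Forced.S.StmtsI
import Pool.Agent.Work.MP_b0497c_an.Bd.B23

set_option autoImplicit false

/-!
# I4: averages of the limit
-/

open scoped ContDiff Matrix
open Set Filter Topology MeasureTheory

namespace Pool.Agent.Work.MP_b0497c_an.Forced.S

namespace I4

/-- Smooth functions supported in `[0, 3] × B`, `B` the closed unit ball. -/
def Vc (v : ℝ × V3 → ℝ) : Prop := ContDiff ℝ ∞ v ∧ (∀ t x, 1 ≤ ‖x‖ → v (t, x) = 0) ∧
  ∀ t x, t ∉ Icc (0 : ℝ) 3 → v (t, x) = 0

/-- The time derivative. -/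
noncomputable def dt (v : ℝ × V3 → ℝ) (z : ℝ × V3) : ℝ := fderiv ℝ v z (1, 0)

theorem hasDerivAt_dt {v : ℝ × V3 → ℝ} (hv : ContDiff ℝ ∞ v) (t : ℝ) (x : V3) :
    HasDerivAt (fun τ => v (τ, x)) (dt v (t, x)) t := by
  have h1 : HasFDerivAt v (fderiv ℝ v (t, x)) (t, x) :=
    (hv.differentiable (by simp)).differentiableAt.hasFDerivAt
  have h2 : HasDerivAt (fun τ : ℝ => ((τ, x) : ℝ × V3)) ((1 : ℝ), (0 : V3)) t :=
    (hasDerivAt_id t).prodMk (hasDerivAt_const t x)
  exact h1.comp_hasDerivAt t h2

theorem vc_dt {v : ℝ × V3 → ℝ} (hv : Vc v) : Vc (dt v) := by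
  obtain ⟨h1, h2, h3⟩ := hv
  refine ⟨(h1.fderiv_right (m := ∞) (by simp)).clm_apply contDiff_const, ?_, ?_⟩
  · intro t x hx
    have h := hasDerivAt_dt h1 t x
    have h0 : HasDerivAt (fun τ => v (τ, x)) 0 t := by
      have : (fun τ => v (τ, x)) = fun _ => (0 : ℝ) := funext fun τ => h2 τ x hx
      rw [this]; exact hasDerivAt_const t _
    exact h.unique h0
  · intro t x ht
    have h := hasDerivAt_dt h1 t x
    have h0 : HasDerivAt (fun τ => v (τ, x)) 0 t := by
      refine (hasDerivAt_const t (0 : ℝ)).congr_of_eventuallyEq ?_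
      have hopen : (Icc (0 : ℝ) 3)ᶜ ∈ 𝓝 t := isClosed_Icc.isOpen_compl.mem_nhds ht
      filter_upwards [hopen] with τ hτ
      exact h3 τ x hτ
    exact h.unique h0

theorem vc_bound {v : ℝ × V3 → ℝ} (hv : Vc v) : ∃ C : ℝ, ∀ z, ‖v z‖ ≤ C := by
  obtain ⟨h1, h2, h3⟩ := hv
  have hc : HasCompactSupport v := by
    refine HasCompactSupport.intro (K := Icc (0 : ℝ) 3 ×ˢ Metric.closedBall (0 : V3) 1)
      (isCompact_Icc.prod (isCompact_closedBall _ _)) ?_
    rintro ⟨t, x⟩ hz
    by_cases ht : t ∈ Icc (0 : ℝ) 3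
    · apply h2
      by_contra hx
      exact hz ⟨ht, by simpa using (le_of_lt (not_le.1 hx))⟩
    · exact h3 t x ht
  exact hc.exists_bound_of_continuous h1.continuous

/-- The average. -/
noncomputable def Av (phi : V3 → ℝ) (v : ℝ × V3 → ℝ) (t : ℝ) : ℝ := ∫ x, phi x * v (t, x)

theorem integrable_slice {phi : V3 → ℝ} (hphi : Continuous phi) {v : ℝ × V3 → ℝ} (hv : Vc v)
    (t : ℝ) : Integrable (fun x => phi x * v (t, x)) := by
  obtain ⟨h1, h2, h3⟩ := hv
  refine Continuous.integrable_of_hasCompactSupport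
    (hphi.mul (h1.continuous.comp (by fun_prop : Continuous fun x : V3 => (t, x)))) ?_
  refine HasCompactSupport.intro (isCompact_closedBall (0 : V3) 1) ?_
  intro x hx
  have : 1 ≤ ‖x‖ := by
    by_contra h
    exact hx (by simpa using (le_of_lt (not_le.1 h)))
  rw [h2 t x this, mul_zero]

theorem hasDerivAt_Av {phi : V3 → ℝ} (hphi : Continuous phi) {v : ℝ × V3 → ℝ} (hv : Vc v)
    (t : ℝ) : HasDerivAt (Av phi v) (Av phi (dt v) t) t := by
  obtain ⟨C, hC⟩ := vc_bound (vc_dt hv)
  have hv' := vc_dt hv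
  refine (hasDerivAt_integral_of_dominated_loc_of_deriv_le (μ := volume)
    (F := fun t x => phi x * v (t, x)) (F' := fun t x => phi x * dt v (t, x)) (x₀ := t)
    (s := univ) (bound := (Metric.closedBall (0 : V3) 1).indicator fun x => ‖phi x‖ * C)
    univ_mem ?_ (integrable_slice hphi hv t) ?_ ?_ ?_ ?_).2
  · exact Eventually.of_forall fun s => (integrable_slice hphi hv s).aestronglyMeasurable
  · exact (integrable_slice hphi hv' t).aestronglyMeasurable
  · refine Eventually.of_forall fun x s _ => ?_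
    by_cases hx : x ∈ Metric.closedBall (0 : V3) 1
    · rw [indicator_of_mem hx, norm_mul]
      exact mul_le_mul_of_nonneg_left (hC _) (norm_nonneg _)
    · have h1x : 1 ≤ ‖x‖ := by
        by_contra h
        exact hx (by simpa using (le_of_lt (not_le.1 h)))
      rw [hv'.2.1 s x h1x, mul_zero, norm_zero, indicator_of_notMem hx]
  · refine IntegrableOn.integrable_indicator ?_ Metric.isClosed_closedBall.measurableSet
    exact (Continuous.continuousOn (by fun_prop)).integrableOn_compact (isCompact_closedBall _ _)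
  · refine Eventually.of_forall fun x s _ => ?_
    exact (hasDerivAt_dt hv.1 s x).const_mul (phi x)

theorem deriv_Av {phi : V3 → ℝ} (hphi : Continuous phi) {v : ℝ × V3 → ℝ} (hv : Vc v) :
    deriv (Av phi v) = Av phi (dt v) := funext fun t => (hasDerivAt_Av hphi hv t).deriv

theorem contDiff_Av {phi : V3 → ℝ} (hphi : Continuous phi) {v : ℝ × V3 → ℝ} (hv : Vc v) :
    ContDiff ℝ ∞ (Av phi v) := by
  have h : ∀ (n : ℕ) (v : ℝ × V3 → ℝ), Vc v → ContDiff ℝ n (Av phi v) := by
    intro n
    induction n with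
    | zero =>
      intro v hv
      have hd : Differentiable ℝ (Av phi v) := fun t => (hasDerivAt_Av hphi hv t).differentiableAt
      exact contDiff_zero.2 hd.continuous
    | succ n ih =>
      intro v hv
      have hd : Differentiable ℝ (Av phi v) := fun t => (hasDerivAt_Av hphi hv t).differentiableAt
      have : ((n + 1 : ℕ) : ℕ∞ω) = (n : ℕ∞ω) + 1 := by push_cast; rfl
      rw [this, contDiff_succ_iff_deriv]
      refine ⟨hd, ?_, ?_⟩
      · intro h; exact absurd h (by simp)
      · rw [deriv_Av hphi hv]; exact ih _ (vc_dt hv)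
  exact contDiff_infty.2 fun n => h n v hv

theorem iter_Av {phi : V3 → ℝ} (hphi : Continuous phi) (j : ℕ) : ∀ {v : ℝ × V3 → ℝ}, Vc v →
    iteratedDeriv j (Av phi v) = Av phi (dt^[j] v) := by
  induction j with
  | zero => intro v _; simp
  | succ j ih =>
    intro v hv
    rw [iteratedDeriv_succ', deriv_Av hphi hv, ih (vc_dt hv), Function.iterate_succ_apply]

theorem vc_iter (j : ℕ) : ∀ {v : ℝ × V3 → ℝ}, Vc v → Vc (dt^[j] v) := by
  induction j with
  | zero => intro v hv; simpa using hv
  | succ j ih => intro v hv; rw [Function.iterate_succ_apply]; exact ih (vc_dt hv)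

theorem tb_zero {phi : V3 → ℝ} {m : ℕ} {D : ℝ} (h : TB phi m D) {x : V3} (hx : ‖x‖ ≤ 1) :
    ‖phi x‖ ≤ D := by
  have := h 0 (Nat.zero_le _) x hx
  rwa [norm_iteratedFDeriv_zero] at this

theorem tb_nonneg {phi : V3 → ℝ} {m : ℕ} {D : ℝ} (h : TB phi m D) : 0 ≤ D :=
  (norm_nonneg _).trans (tb_zero h (x := 0) (by simp))

theorem bound_Av {v : ℝ × V3 → ℝ} (hv : Vc v) : ∃ C : ℝ, ∀ (phi : V3 → ℝ) (m : ℕ) (D : ℝ),
    TB phi m D → ∀ t, |Av phi v t| ≤ C * D := by
  obtain ⟨C, hC⟩ := vc_bound hv
  refine ⟨C * (volume : Measure V3).real (Metric.closedBall 0 1), fun phi m D hD t => ?_⟩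
  have h0 : ∀ x ∉ Metric.closedBall (0 : V3) 1, phi x * v (t, x) = 0 := by
    intro x hx
    have h1x : 1 ≤ ‖x‖ := by
      by_contra h
      exact hx (by simpa using (le_of_lt (not_le.1 h)))
    rw [hv.2.1 t x h1x, mul_zero]
  have h1 : Av phi v t = ∫ x in Metric.closedBall (0 : V3) 1, phi x * v (t, x) :=
    (setIntegral_eq_integral_of_forall_compl_eq_zero h0).symm
  have h2 : ‖∫ x in Metric.closedBall (0 : V3) 1, phi x * v (t, x)‖ ≤
      (D * C) * (volume : Measure V3).real (Metric.closedBall 0 1) := by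
    refine norm_setIntegral_le_of_norm_le_const (isCompact_closedBall _ _).measure_lt_top ?_
    intro x hx
    rw [norm_mul]
    exact mul_le_mul (tb_zero hD (by simpa using hx)) (hC _) (norm_nonneg _) (tb_nonneg hD)
  rw [h1, ← Real.norm_eq_abs]
  refine h2.trans (le_of_eq ?_)
  ring

/-- Every smooth function has bounded derivatives on the unit ball. -/
theorem exists_tb {phi : V3 → ℝ} (hphi : ContDiff ℝ ∞ phi) (m : ℕ) : ∃ D : ℝ, TB phi m D := by
  have h : ∀ m' : ℕ, ∃ D : ℝ, ∀ x : V3, ‖x‖ ≤ 1 → ‖iteratedFDeriv ℝ m' phi x‖ ≤ D := by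
    intro m'
    have hc : Continuous (iteratedFDeriv ℝ m' phi) :=
      hphi.continuous_iteratedFDeriv (by exact_mod_cast le_top)
    obtain ⟨D, hD⟩ := (isCompact_closedBall (0 : V3) 1).exists_bound_of_continuousOn
      hc.continuousOn
    exact ⟨D, fun x hx => hD x (by simpa using hx)⟩
  choose D hD using h
  refine ⟨∑ i ∈ Finset.range (m + 1), |D i|, fun m' hm' x hx => ?_⟩
  refine (hD m' x hx).trans ((le_abs_self _).trans ?_)
  exact Finset.single_le_sum (f := fun i => |D i|) (fun i _ => abs_nonneg _)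
    (Finset.mem_range.2 (Nat.lt_succ_of_le hm'))

end I4

open I4 in
theorem prfI4 : claimI4 := by
  intro c P H w0 hw0 hH hB
  choose B hBs hB using hB
  have hTs : c.Ts < 3 := by
    have h1 := c.Ts_le 0
    have h2 := c.e_le 0
    have h3 := c.del_pos 0
    linarith
  -- the cut-off in time
  let z : ℝ → ℝ := fun t => 1 - Real.smoothTransition ((t - c.Ts) / (3 - c.Ts))
  have hz : ContDiff ℝ ∞ z := by
    refine contDiff_const.sub (Real.smoothTransition.contDiff.comp ?_)
    exact (contDiff_id.sub contDiff_const).div_const _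
  have hz1 : ∀ t ≤ c.Ts, z t = 1 := by
    intro t ht
    have : (t - c.Ts) / (3 - c.Ts) ≤ 0 := div_nonpos_of_nonpos_of_nonneg (by linarith) (by linarith)
    simp only [z]
    rw [Real.smoothTransition.zero_of_nonpos this, sub_zero]
  have hz3 : ∀ t, 3 ≤ t → z t = 0 := by
    intro t ht
    have : 1 ≤ (t - c.Ts) / (3 - c.Ts) := by
      rw [le_div_iff₀ (by linarith)]
      linarith
    simp only [z]
    rw [Real.smoothTransition.one_of_one_le this, sub_self]
  -- the large scale part
  let v : Fin 3 → ℝ × V3 → ℝ := fun a y => z y.1 * w0 y.1 y.2 a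
  have hv : ∀ a, Vc (v a) := by
    intro a
    refine ⟨?_, ?_, ?_⟩
    · have h1 : ContDiff ℝ ∞ (fun y : ℝ × V3 => w0 y.1 y.2 a) := contDiff_pi.1 hw0.smooth a
      exact (hz.comp contDiff_fst).mul h1
    · intro t x hx
      simp only [v]
      rw [hw0.supp t x hx]
      simp
    · intro t x ht
      simp only [v]
      rw [mem_Icc, not_and_or, not_le, not_le] at ht
      rcases ht with ht | ht
      · rw [hw0.zero t ht.le x]; simp
      · rw [hz3 t ht.le, zero_mul]
  -- the packets
  have hHs : ∀ (phi : V3 → ℝ), ContDiff ℝ ∞ phi → ∀ a, ∀ j : ℕ, ∀ D, TB phi j D →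
      ∀ k t, ‖iteratedFDeriv ℝ j (H k phi a) t‖ ≤ B j k * D := by
    intro phi hphi a j D hD k t
    rw [norm_iteratedFDeriv_eq_norm_iteratedDeriv, Real.norm_eq_abs]
    exact hB j k phi hphi D hD a t
  have hsum : ∀ (phi : V3 → ℝ), ContDiff ℝ ∞ phi → ∀ a,
      ContDiff ℝ ∞ (fun t => ∑' k, H k phi a t) ∧
      ∀ j : ℕ, ∀ D, TB phi j D → ∀ t,
        |iteratedDeriv j (fun t => ∑' k, H k phi a t) t| ≤ (∑' k, B j k) * D := by
    intro phi hphi a
    choose D hD using fun m => exists_tb hphi m
    have hf : ∀ k, ContDiff ℝ ((⊤ : ℕ∞) : ℕ∞ω) (H k phi a) := fun k => (hH k phi hphi a).1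
    have hs : ∀ j : ℕ, (j : ℕ∞) ≤ (⊤ : ℕ∞) → Summable (fun k => B j k * D j) :=
      fun j _ => (hBs j).mul_right _
    have hb : ∀ (j k : ℕ) (t : ℝ), (j : ℕ∞) ≤ (⊤ : ℕ∞) →
        ‖iteratedFDeriv ℝ j (H k phi a) t‖ ≤ B j k * D j :=
      fun j k t _ => hHs phi hphi a j (D j) (hD j) k t
    refine ⟨contDiff_tsum hf hs hb, fun j D' hD' t => ?_⟩
    rw [← Real.norm_eq_abs, ← norm_iteratedFDeriv_eq_norm_iteratedDeriv,
      iteratedFDeriv_tsum_apply hf hs hb le_top t, ← tsum_mul_right]
    exact tsum_of_norm_bounded ((hBs j).mul_right D').hasSum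
      (fun k => hHs phi hphi a j D' hD' k t)
  refine ⟨fun phi a t => Av phi (v a) t + ∑' k, H k phi a t, ?_, ?_⟩
  · intro phi hphi a
    refine ⟨(contDiff_Av hphi.continuous (hv a)).add (hsum phi hphi a).1, ?_, ?_⟩
    · intro t ht
      -- only finitely many packets are present at time `t`
      have hev : ∀ᶠ k in atTop, t < c.s k := (tendsto_order.1 c.s_lim).1 t ht
      obtain ⟨n, hn⟩ := hev.exists
      have hU : ∀ x, Ui P w0 t x = Un P w0 n t x := fun x => (prfC5 c P w0 n t hn.le x).1
      have hint : ∀ k, Integrable (fun x => phi x * P.w k t x a) := by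
        intro k
        have hc : Continuous fun x : V3 => P.w k t x a := by
          have h1 : Continuous (fun y : ℝ × V3 => P.w k y.1 y.2) := (P.w_smooth k).continuous
          have h2 : Continuous fun x : V3 => P.w k t x :=
            h1.comp (by fun_prop : Continuous fun x : V3 => (t, x))
          exact (continuous_apply a).comp h2
        refine Continuous.integrable_of_hasCompactSupport (hphi.continuous.mul hc) ?_
        refine HasCompactSupport.intro (isCompact_closedBall (0 : V3) (c.R k)) ?_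
        intro x hx
        have hx' : c.R k < ‖x‖ := by
          by_contra h
          exact hx (by simpa using (not_lt.1 h))
        by_cases hts : t ≤ c.s k
        · rw [(P.zero k t x hts).1]; simp
        · have hmem : t ∈ Icc (c.s k) (c.e k + c.del k) := by
            refine ⟨(not_le.1 hts).le, ?_⟩
            have h1 := c.Ts_le k
            have h2 := c.del_pos k
            linarith
          rw [(P.supp k t hmem x hx').1]; simp
      have hHk : ∀ k, H k phi a t = ∫ x, phi x * P.w k t x a := fun k =>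
        (hH k phi hphi a).2.1 t (ht.le.trans (c.Ts_le k))
      have hH0 : ∀ k ∉ Finset.range n, H k phi a t = 0 := by
        intro k hk
        rw [Finset.mem_range, not_lt] at hk
        exact (hH k phi hphi a).2.2.1 t (hn.le.trans (C5.s_mono c hk))
      have hint0 : Integrable (fun x => phi x * w0 t x a) := by
        have h := integrable_slice hphi.continuous (hv a) t
        refine h.congr (Eventually.of_forall fun x => ?_)
        simp only [v]
        rw [hz1 t ht.le, one_mul]
      calc Av phi (v a) t + ∑' k, H k phi a t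
          = (∫ x, phi x * w0 t x a) + ∑ k ∈ Finset.range n, ∫ x, phi x * P.w k t x a := by
            rw [tsum_eq_sum hH0]
            congr 1
            · unfold Av
              refine integral_congr_ae (Eventually.of_forall fun x => ?_)
              simp only [v]
              rw [hz1 t ht.le, one_mul]
            · exact Finset.sum_congr rfl fun k _ => hHk k
        _ = ∫ x, (phi x * w0 t x a + ∑ k ∈ Finset.range n, phi x * P.w k t x a) := by
            rw [integral_add hint0 (integrable_finsetSum _ fun k _ => hint k),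
              integral_finsetSum _ fun k _ => hint k]
        _ = ∫ x, phi x * Ui P w0 t x a := by
            refine integral_congr_ae (Eventually.of_forall fun x => ?_)
            simp only [hU x, Un, Pi.add_apply, Finset.sum_apply, mul_add, Finset.mul_sum]
    · intro t ht
      have h1 : Av phi (v a) t = 0 := by
        unfold Av
        have : ∀ x, phi x * v a (t, x) = 0 := fun x => by rw [(hv a).2.2 t x ht, mul_zero]
        simp [this]
      have h2 : ∀ k, H k phi a t = 0 := by
        intro k
        rw [mem_Icc, not_and_or, not_le, not_le] at ht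
        rcases ht with ht | ht
        · exact (hH k phi hphi a).2.2.1 t (by linarith [c.s_pos k])
        · exact (hH k phi hphi a).2.2.2 t (by linarith [c.e_le k])
      show Av phi (v a) t + ∑' k, H k phi a t = 0
      rw [h1, tsum_congr h2, tsum_zero, add_zero]
  · intro j
    choose C hC using fun a => bound_Av (vc_iter j (hv a))
    refine ⟨(∑ a, |C a|) + ∑' k, B j k, j, fun phi hphi D hD a t => ?_⟩
    have hD0 := tb_nonneg hD
    have h1 : iteratedDeriv j (fun t => Av phi (v a) t + ∑' k, H k phi a t) t =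
        iteratedDeriv j (Av phi (v a)) t + iteratedDeriv j (fun t => ∑' k, H k phi a t) t := by
      refine iteratedDeriv_fun_add ?_ ?_
      · exact ((contDiff_Av hphi.continuous (hv a)).of_le (by exact_mod_cast le_top)).contDiffAt
      · exact ((hsum phi hphi a).1.of_le (by exact_mod_cast le_top)).contDiffAt
    rw [h1, iter_Av hphi.continuous j (hv a), add_mul]
    refine (abs_add_le _ _).trans (add_le_add ?_ ((hsum phi hphi a).2 j D hD t))
    refine (hC a phi j D hD t).trans (mul_le_mul_of_nonneg_right ?_ hD0)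
    exact (le_abs_self _).trans
      (Finset.single_le_sum (f := fun a => |C a|) (fun i _ => abs_nonneg _) (Finset.mem_univ a))

end Pool.Agent.Work.MP_b0497c_an.Forced.S
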