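import Pool.Agent.Work.MP_b0497c_an.Forced.S.WKB2
import Pool.Agent.Work.MP_b0497c_an.Bd.B15
import Pool.Agent.Work.MP_b0497c_an.Forced.Asm.All

set_option autoImplicit false

/-!
# Theorem S', part I: the forced solution with smooth averages
-/

open scoped ContDiff Matrix
open Set Filter Topology MeasureTheory

namespace Pool.Agent.Work.MP_b0497c_an.Forced.S

theorem prfWKB2 (hI2 : claimI2) : claimWKB2 :=
  wkb2 W.prfA1 W.prfA2 W.prfA3 W.prfI1 W.prfI4 W.prfI6 W.prfJ1 W.prfJ2 W.hD7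
    (W.prfD8b W.hB3 W.hB4 W.prfB7 W.hD1 W.hD2 W.prfD6) W.hT6 W.hR2 W.prfR3 W.hR4 hI2

/-- Part I: from a cascade to a periodic solution with smooth averages. -/
theorem torusAvg (hI2 : claimI2) (hI3 : claimI3) (hI4 : claimI4) (hI5 : claimI5) (c : Casc) :
    ∃ (T : ℝ) (f u : ℝ → E3 → E3) (p : ℝ → E3 → ℝ), TorusAvg T f u p := by
  obtain ⟨P, H, hH, hB⟩ := hI3 (prfWKB2 hI2) c
  obtain ⟨w0, hw0⟩ := Forced.prfC2 c
  have havg : AvgOn c.Ts (Ui P w0) := hI4 c P H w0 hw0 hH hB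
  have hTs : c.Ts < 3 := by
    have h1 := c.Ts_le 0
    have h2 := c.e_le 0
    have h3 := c.del_pos 0
    linarith
  obtain ⟨z, hz, hz1, hz0⟩ : ∃ z : ℝ → ℝ, ContDiff ℝ ∞ z ∧ (∀ t, t ≤ 3 → z t = 1) ∧
      (∀ t, 4 ≤ t → z t = 0) := by
    refine ⟨fun t => Real.smoothTransition (4 - t), ?_, ?_, ?_⟩
    · exact Real.smoothTransition.contDiff.comp (contDiff_const.sub contDiff_id)
    · intro t ht
      exact Real.smoothTransition.one_of_one_le (by linarith)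
    · intro t ht
      exact Real.smoothTransition.zero_of_nonpos (by linarith)
  obtain ⟨hu, hp, hsupp, hzero, hdiv⟩ := Forced.prfC6 Forced.prfC5 c P w0 hw0
  obtain ⟨hf, hft, hfs⟩ := Forced.prfC7 c P w0 hw0 z hz hz0
  have hT : 0 < c.Ts := lt_of_lt_of_le (by norm_num) ((c.s_pos 0).trans (c.s_lt 0).le)
  have hsol : R3Sol c.Ts (Fi P w0 z) (Ui P w0) (Qi P) := by
    refine ⟨hf, hft, hfs, hu, hp, fun t ht x hx => (hsupp t ht x hx).1,
      fun t ht x hx => (hsupp t ht x hx).2, hzero, hdiv, ?_,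
      Forced.prfC9 Forced.prfC3 Forced.prfC5 c P w0 hw0⟩
    intro t ht x j
    rw [Forced.prfC8 (Forced.prfC4 Forced.prfC3) Forced.prfC5 c P w0 hw0 t ht x j]
    show _ = z t * eu w0 t x j + (∑' k, P.g k t x) j
    rw [hz1 t (by linarith), one_mul]
  obtain ⟨f', u', p', h'⟩ := hI5 c.Ts _ _ _ hT hTs hsol havg
  exact ⟨c.Ts, f', u', p', h'⟩

end Pool.Agent.Work.MP_b0497c_an.Forced.S
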