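import Pool.Agent.Work.MP_b0497c_an.Bd.B17
import Pool.Agent.Work.MP_b0497c_an.Forced.S.Fin3
import Pool.Agent.Work.MP_b0497c_an.Forced.S.PartI
import Pool.Agent.Work.MP_b0497c_an.Bd.B15
import Pool.Agent.Work.MP_b0497c_an.Forced.S.B2
import Pool.Agent.Work.MP_b0497c_an.Bd.B24
import Pool.Agent.Work.MP_b0497c_an.Forced.S.B5
import Pool.Agent.Work.MP_b0497c_an.Forced.S.B6
import Pool.Agent.Work.MP_b0497c_an.Forced.S.B7
import Pool.Agent.Work.MP_b0497c_an.Forced.S.B8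
import Pool.Agent.Work.MP_b0497c_an.Forced.S.B9
import Pool.Agent.Work.MP_b0497c_an.Forced.S.C5
import Pool.Agent.Work.MP_b0497c_an.Forced.S.C6
import Pool.Agent.Work.MP_b0497c_an.Bd.B20
import Pool.Agent.Work.MP_b0497c_an.Forced.S.I4

set_option autoImplicit false

/-!
# Theorem S': assembly of all items
-/

namespace Pool.Agent.Work.MP_b0497c_an.Forced.S

theorem sAll2 : SConclusion2 := by
  obtain ⟨c⟩ := Ode.casc_exists
  obtain ⟨T, f, u, p, h⟩ := torusAvg (prfI2 prfI1) prfI3 prfI4 prfI5 c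
  exact sfin2 prfA2 (prfB5 prfB1 prfB2 prfB3 prfB4) (prfB7 prfB1 prfB2 prfB3) prfB8 prfB9
    (prfC1 prfA1 prfA2 prfA4 prfB6) prfC2
    (prfC3 prfB6) prfC4 (prfC5 prfA1 prfA2 prfA3 prfA4 prfC4) (prfC6 prfA1 prfA2 prfA3) prfD1
    prfD2 prfD3 prfD4 prfD5 h

theorem sAll3 : SConclusion3 := by
  obtain ⟨c⟩ := Ode.casc_exists
  obtain ⟨T, f, u, p, h⟩ := torusAvg (prfI2 prfI1) prfI3 prfI4 prfI5 c
  exact sfin3 prfA2 (prfB5 prfB1 prfB2 prfB3 prfB4) (prfB7 prfB1 prfB2 prfB3) prfB8 prfB9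
    (prfC1 prfA1 prfA2 prfA4 prfB6) prfC2
    (prfC3 prfB6) prfC4 (prfC5 prfA1 prfA2 prfA3 prfA4 prfC4) (prfC6 prfA1 prfA2 prfA3) prfD1
    prfD2 prfD3 prfD4 prfD5 h

end Pool.Agent.Work.MP_b0497c_an.Forced.S
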