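import Pool.Agent.Work.MP_b0497c_an.Forced.S.Stmts

set_option autoImplicit false

/-!
# B8: the channels
-/

open scoped ContDiff Nat
open Set Filter Topology MeasureTheory

namespace Pool.Agent.Work.MP_b0497c_an.Forced.S

namespace B8

/-- The basic bump, supported in `[0, 1]`. -/
noncomputable def B (t : ℝ) : ℝ := Real.smoothTransition t * Real.smoothTransition (1 - t)

lemma B_contDiff : ContDiff ℝ ∞ B :=
  (Real.smoothTransition.contDiff).mul
    (Real.smoothTransition.contDiff.comp (contDiff_const.sub contDiff_id))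

lemma B_nonneg (t : ℝ) : 0 ≤ B t :=
  mul_nonneg (Real.smoothTransition.nonneg _) (Real.smoothTransition.nonneg _)

lemma B_pos (t : ℝ) (h0 : 0 < t) (h1 : t < 1) : 0 < B t :=
  mul_pos (Real.smoothTransition.pos_of_pos h0)
    (Real.smoothTransition.pos_of_pos (by linarith))

lemma B_zero_left (t : ℝ) (h0 : t ≤ 0) : B t = 0 := by
  unfold B; rw [Real.smoothTransition.zero_of_nonpos h0, zero_mul]

lemma B_zero_right (t : ℝ) (h0 : 1 ≤ t) : B t = 0 := by
  unfold B; rw [Real.smoothTransition.zero_of_nonpos (x := 1 - t) (by linarith), mul_zero]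

lemma B_support (t : ℝ) (h : B t ≠ 0) : 0 < t ∧ t < 1 := by
  constructor
  · by_contra h0
    exact h (B_zero_left t (not_lt.1 h0))
  · by_contra h0
    exact h (B_zero_right t (not_lt.1 h0))

lemma B_bounded (m : ℕ) : ∃ C : ℝ, ∀ t, ‖iteratedFDeriv ℝ m B t‖ ≤ C := by
  have h1 : HasCompactSupport B := by
    refine HasCompactSupport.intro (isCompact_Icc (a := (0 : ℝ)) (b := 1)) fun t ht => ?_
    simp only [mem_Icc, not_and_or, not_le] at ht
    rcases ht with ht | ht
    · exact B_zero_left t ht.le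
    · exact B_zero_right t ht.le
  have h2 : HasCompactSupport (iteratedFDeriv ℝ m B) := h1.iteratedFDeriv m
  exact (B_contDiff.continuous_iteratedFDeriv (m := m) (by exact_mod_cast le_top)).bounded_above_of_compact_support h2

lemma B_bounded' (m : ℕ) : ∃ C : ℝ, 0 ≤ C ∧ ∀ i ≤ m, ∀ t, ‖iteratedFDeriv ℝ i B t‖ ≤ C := by
  induction m with
  | zero =>
    obtain ⟨C, hC⟩ := B_bounded 0
    refine ⟨C, (norm_nonneg _).trans (hC 0), fun i hi t => ?_⟩
    obtain rfl : i = 0 := by omega
    exact hC t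
  | succ m ih =>
    obtain ⟨C, hC0, hC⟩ := ih
    obtain ⟨C', hC'⟩ := B_bounded (m + 1)
    refine ⟨max C C', le_max_of_le_left hC0, fun i hi t => ?_⟩
    rcases Nat.lt_or_ge i (m + 1) with h | h
    · exact (hC i (by omega) t).trans (le_max_left _ _)
    · obtain rfl : i = m + 1 := by omega
      exact (hC' t).trans (le_max_right _ _)

/-- The slope. -/
noncomputable def sl (n : ℕ) : ℝ := 8 * ((n : ℝ) + 1) * ((n : ℝ) + 2)

lemma sl_ge (n : ℕ) : 16 ≤ sl n := by
  unfold sl
  have : (0 : ℝ) ≤ n := Nat.cast_nonneg n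
  nlinarith

lemma sl_le (n : ℕ) : sl n ≤ 16 * ((n : ℝ) + 1) ^ 2 := by
  unfold sl
  have : (0 : ℝ) ≤ n := Nat.cast_nonneg n
  nlinarith

/-- The inner function. -/
noncomputable def inn (n : ℕ) (x : ℝ) : ℝ := sl n * (- Real.cos x - 3 / 4) - ((n : ℝ) + 1)

lemma inn_contDiff (n : ℕ) : ContDiff ℝ ∞ (inn n) := by
  unfold inn
  exact (contDiff_const.mul (Real.contDiff_cos.neg.sub contDiff_const)).sub contDiff_const

lemma inn_hasDerivAt (n : ℕ) (x : ℝ) : HasDerivAt (inn n) (sl n * Real.sin x) x := by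
  unfold inn
  have h1 : HasDerivAt (fun x => - Real.cos x - 3 / 4) (Real.sin x) x := by
    simpa using (Real.hasDerivAt_cos x).neg.sub_const (3 / 4)
  exact (h1.const_mul (sl n)).sub_const _

lemma inn_bound (n i : ℕ) (hi : 1 ≤ i) (x : ℝ) : ‖iteratedFDeriv ℝ i (inn n) x‖ ≤ sl n ^ i := by
  obtain ⟨j, rfl⟩ : ∃ j, i = j + 1 := ⟨i - 1, by omega⟩
  have h1 : deriv (inn n) = fun x => sl n * Real.sin x := by
    funext x
    exact (inn_hasDerivAt n x).deriv
  rw [norm_iteratedFDeriv_eq_norm_iteratedDeriv, iteratedDeriv_succ', h1]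
  have h2 : iteratedDeriv j (fun x => sl n * Real.sin x) x = sl n * iteratedDeriv j Real.sin x := by
    rw [iteratedDeriv_const_mul_field]
  rw [h2, norm_mul, Real.norm_eq_abs, Real.norm_eq_abs]
  have h3 := Real.abs_iteratedDeriv_sin_le_one j x
  have h4 := sl_ge n
  rw [abs_of_nonneg (by linarith : 0 ≤ sl n)]
  calc sl n * |iteratedDeriv j Real.sin x| ≤ sl n * 1 :=
        mul_le_mul_of_nonneg_left h3 (by linarith)
    _ = sl n ^ 1 := by ring
    _ ≤ sl n ^ (j + 1) := pow_le_pow_right₀ (by linarith) (by omega)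

/-- The unnormalised channel. -/
noncomputable def q (n : ℕ) : ℝ → ℝ := B ∘ inn n

lemma q_contDiff (n : ℕ) : ContDiff ℝ ∞ (q n) := B_contDiff.comp (inn_contDiff n)

lemma q_bound (m : ℕ) : ∃ C : ℝ, 0 ≤ C ∧ ∀ (n : ℕ) (x : ℝ),
    ‖iteratedFDeriv ℝ m (q n) x‖ ≤ C * ((n : ℝ) + 1) ^ (2 * m) := by
  obtain ⟨C, hC0, hC⟩ := B_bounded' m
  refine ⟨m ! * C * 16 ^ m, by positivity, fun n x => ?_⟩
  have h1 := norm_iteratedFDeriv_comp_le (g := B) (f := inn n) (n := m) (N := ∞) B_contDiff
    (inn_contDiff n) (by exact_mod_cast le_top) x (C := C) (D := sl n) (fun i hi => hC i hi _)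
    (fun i hi _ => inn_bound n i hi x)
  refine h1.trans ?_
  have h2 : sl n ^ m ≤ (16 * ((n : ℝ) + 1) ^ 2) ^ m :=
    pow_le_pow_left₀ (by have := sl_ge n; linarith) (sl_le n) m
  calc (m ! : ℝ) * C * sl n ^ m ≤ (m ! : ℝ) * C * (16 * ((n : ℝ) + 1) ^ 2) ^ m :=
        mul_le_mul_of_nonneg_left h2 (by positivity)
    _ = m ! * C * 16 ^ m * ((n : ℝ) + 1) ^ (2 * m) := by rw [mul_pow, ← pow_mul]; ring

lemma q_per (n : ℕ) : Per (q n) := by
  intro t
  simp only [q, Function.comp, inn, Real.cos_add_two_pi]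

lemma q_support (n : ℕ) (x : ℝ) (h : q n x ≠ 0) :
    1 < 8 * ((n : ℝ) + 2) * (- Real.cos x - 3 / 4) ∧
    8 * ((n : ℝ) + 1) * (- Real.cos x - 3 / 4) < 1 := by
  have h1 := B_support _ h
  unfold inn sl at h1
  have hn : (0 : ℝ) ≤ n := Nat.cast_nonneg n
  constructor
  · have h2 := h1.1
    have h3 : 0 < ((n : ℝ) + 1) * (8 * ((n : ℝ) + 2) * (- Real.cos x - 3 / 4) - 1) := by
      linarith
    have h4 := (pos_iff_pos_of_mul_pos h3).1 (by linarith)
    linarith
  · have h2 := h1.2
    have h3 : 0 < ((n : ℝ) + 2) * (1 - 8 * ((n : ℝ) + 1) * (- Real.cos x - 3 / 4)) := by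
      linarith
    have h4 := (pos_iff_pos_of_mul_pos h3).1 (by linarith)
    linarith

lemma q_disjoint (n m : ℕ) (h : n < m) (x : ℝ) : q n x * q m x = 0 := by
  by_contra h0
  have h1 := (q_support n x (left_ne_zero_of_mul h0)).1
  have h2 := (q_support m x (right_ne_zero_of_mul h0)).2
  have hn : (0 : ℝ) ≤ n := Nat.cast_nonneg n
  have h3 : (n : ℝ) + 1 ≤ m := by exact_mod_cast h
  have h4 : 0 < - Real.cos x - 3 / 4 := by
    by_contra h5
    have : 8 * ((n : ℝ) + 2) * (- Real.cos x - 3 / 4) ≤ 0 :=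
      mul_nonpos_of_nonneg_of_nonpos (by linarith) (not_lt.1 h5)
    linarith
  have h5 : 8 * ((n : ℝ) + 2) * (- Real.cos x - 3 / 4) ≤
      8 * ((m : ℝ) + 1) * (- Real.cos x - 3 / 4) :=
    mul_le_mul_of_nonneg_right (by linarith) h4.le
  linarith

/-- The energy of the bump. -/
noncomputable def be : ℝ := ∫ t in (0 : ℝ)..1, B t * B t

lemma BB_cont : Continuous fun t => B t * B t := B_contDiff.continuous.mul B_contDiff.continuous

lemma be_pos : 0 < be := by
  refine intervalIntegral.intervalIntegral_pos_of_pos_on (BB_cont.intervalIntegrable _ _)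
    (fun t ht => ?_) one_pos
  exact mul_pos (B_pos t ht.1 ht.2) (B_pos t ht.1 ht.2)

/-- The energy of the unnormalised channel. -/
noncomputable def en (n : ℕ) : ℝ := ∫ x in (0 : ℝ)..(2 * Real.pi), q n x * q n x

lemma qq_cont (n : ℕ) : Continuous fun t => q n t * q n t :=
  (q_contDiff n).continuous.mul (q_contDiff n).continuous

lemma en_ge (n : ℕ) : be ≤ sl n * en n := by
  have hpi := Real.pi_gt_three
  have hsl := sl_ge n
  have h1 : ∫ x in (Real.pi / 2)..Real.pi, ((fun t => B t * B t) ∘ inn n) x * (sl n * Real.sin x)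
      = ∫ t in (inn n (Real.pi / 2))..(inn n Real.pi), B t * B t :=
    intervalIntegral.integral_comp_mul_deriv (fun x _ => inn_hasDerivAt n x)
      (by fun_prop) BB_cont
  have hn : (0 : ℝ) ≤ n := Nat.cast_nonneg n
  have h2 : inn n (Real.pi / 2) ≤ 0 := by
    unfold inn
    rw [Real.cos_pi_div_two]
    nlinarith
  have h3 : 1 ≤ inn n Real.pi := by
    unfold inn sl
    rw [Real.cos_pi]
    nlinarith
  have h4 : be ≤ ∫ t in (inn n (Real.pi / 2))..(inn n Real.pi), B t * B t :=
    intervalIntegral.integral_mono_interval h2 zero_le_one h3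
      (Eventually.of_forall fun t => mul_self_nonneg _) (BB_cont.intervalIntegrable _ _)
  have h5 : ∫ x in (Real.pi / 2)..Real.pi, q n x * q n x ≤ en n :=
    intervalIntegral.integral_mono_interval (by linarith) (by linarith) (by linarith)
      (Eventually.of_forall fun t => mul_self_nonneg _) ((qq_cont n).intervalIntegrable _ _)
  have h6 : ∫ x in (Real.pi / 2)..Real.pi, ((fun t => B t * B t) ∘ inn n) x * (sl n * Real.sin x)
      ≤ ∫ x in (Real.pi / 2)..Real.pi, sl n * (q n x * q n x) := by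
    refine intervalIntegral.integral_mono_on (by linarith) ?_ ?_ fun x _ => ?_
    · have hc : Continuous fun x => ((fun t => B t * B t) ∘ inn n) x * (sl n * Real.sin x) :=
        (BB_cont.comp (inn_contDiff n).continuous).mul (by fun_prop)
      exact hc.intervalIntegrable _ _
    · exact (continuous_const.mul (qq_cont n)).intervalIntegrable _ _
    · have h7 : ((fun t => B t * B t) ∘ inn n) x = q n x * q n x := rfl
      rw [h7]
      have h8 := Real.sin_le_one x
      have h9 := mul_self_nonneg (q n x)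
      have h10 : 0 ≤ (q n x * q n x) * sl n := mul_nonneg h9 (by linarith)
      nlinarith
  rw [intervalIntegral.integral_const_mul] at h6
  have h7 : sl n * ∫ x in (Real.pi / 2)..Real.pi, q n x * q n x ≤ sl n * en n :=
    mul_le_mul_of_nonneg_left h5 (by linarith)
  linarith

lemma en_pos (n : ℕ) : 0 < en n := by
  have h1 := en_ge n
  have h2 := be_pos
  have h3 := sl_ge n
  by_contra h
  have : sl n * en n ≤ 0 := mul_nonpos_of_nonneg_of_nonpos (by linarith) (not_lt.1 h)
  linarith

/-- The normalisation. -/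
noncomputable def nc (n : ℕ) : ℝ := (Real.sqrt (2 * Real.pi * en n))⁻¹

lemma nc_sq (n : ℕ) : nc n * nc n * (2 * Real.pi * en n) = 1 := by
  have h1 : 0 < 2 * Real.pi * en n := by have := en_pos n; positivity
  have h2 : 0 < Real.sqrt (2 * Real.pi * en n) := Real.sqrt_pos.2 h1
  unfold nc
  have h3 := Real.mul_self_sqrt h1.le
  field_simp
  nlinarith

lemma nc_nonneg (n : ℕ) : 0 ≤ nc n := by unfold nc; positivity

lemma nc_le (n : ℕ) : nc n ≤ (1 + 16 / be) * ((n : ℝ) + 1) ^ 2 := by
  have h1 := nc_sq n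
  have h2 := en_ge n
  have h3 := be_pos
  have h4 := sl_le n
  have h5 := en_pos n
  have h6 := nc_nonneg n
  have h7 := Real.pi_gt_three
  have h8 : nc n * nc n * en n ≤ 1 := by
    have : 0 ≤ nc n * nc n * en n := by positivity
    nlinarith
  have h9 : nc n * nc n * be ≤ sl n := by
    have h10 : nc n * nc n * be ≤ nc n * nc n * (sl n * en n) :=
      mul_le_mul_of_nonneg_left h2 (by positivity)
    have h11 : nc n * nc n * (sl n * en n) = sl n * (nc n * nc n * en n) := by ring
    have h12 : sl n * (nc n * nc n * en n) ≤ sl n * 1 :=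
      mul_le_mul_of_nonneg_left h8 (by have := sl_ge n; linarith)
    linarith
  have h10 : nc n * nc n ≤ 16 / be * ((n : ℝ) + 1) ^ 2 := by
    rw [div_mul_eq_mul_div, le_div_iff₀ h3]
    linarith
  have h11 : nc n ≤ 1 + nc n * nc n := by nlinarith [sq_nonneg (nc n - 1)]
  have h12 : (1 : ℝ) ≤ ((n : ℝ) + 1) ^ 2 := by
    have : (0 : ℝ) ≤ n := Nat.cast_nonneg n
    nlinarith
  nlinarith

end B8

open B8 in
theorem prfB8 : claimB8 := by
  refine ⟨fun n x => nc n * q n x, fun x => Real.smoothTransition (-4 * Real.cos x - 2),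
    ⟨?_, ?_⟩, ?_, ?_, ?_, ?_, ?_, ?_, ?_⟩
  · intro n
    exact contDiff_const.mul (q_contDiff n)
  · intro m
    obtain ⟨C, hC0, hC⟩ := q_bound m
    have hb := be_pos
    refine ⟨(1 + 16 / be) * C, 2 + 2 * m, fun n x => ?_⟩
    have h1 : iteratedFDeriv ℝ m (fun x => nc n * q n x) x =
        nc n • iteratedFDeriv ℝ m (q n) x := by
      have h2 : (fun x => nc n * q n x) = nc n • q n := by
        funext x
        simp [smul_eq_mul]
      rw [h2]
      exact iteratedFDeriv_const_smul_apply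
        ((q_contDiff n).contDiffAt.of_le (by exact_mod_cast le_top))
    rw [h1, norm_smul, Real.norm_eq_abs, abs_of_nonneg (nc_nonneg n)]
    calc nc n * ‖iteratedFDeriv ℝ m (q n) x‖
        ≤ ((1 + 16 / be) * ((n : ℝ) + 1) ^ 2) * (C * ((n : ℝ) + 1) ^ (2 * m)) :=
          mul_le_mul (nc_le n) (hC n x) (norm_nonneg _) (by positivity)
      _ = (1 + 16 / be) * C * ((n : ℝ) + 1) ^ (2 + 2 * m) := by rw [pow_add]; ring
  · intro n t
    simp only
    rw [q_per n t]
  · exact Real.smoothTransition.contDiff.comp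
      ((contDiff_const.mul Real.contDiff_cos).sub contDiff_const)
  · intro t
    simp only [Real.cos_add_two_pi]
  · intro n m hnm x
    have h1 : q n x * q m x = 0 := by
      rcases lt_or_gt_of_ne hnm with h | h
      · exact q_disjoint n m h x
      · rw [mul_comm]; exact q_disjoint m n h x
    calc nc n * q n x * (nc m * q m x) = nc n * nc m * (q n x * q m x) := by ring
      _ = 0 := by rw [h1, mul_zero]
  · intro n
    have h1 : ∀ x, nc n * q n x * (nc n * q n x) = (nc n * nc n) * (q n x * q n x) := by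
      intro x; ring
    simp only [h1]
    rw [intervalIntegral.integral_const_mul]
    have h2 := nc_sq n
    unfold en at h2
    linarith
  · intro n x hx
    have h1 := (q_support n x (right_ne_zero_of_mul hx)).1
    have hn : (0 : ℝ) ≤ n := Nat.cast_nonneg n
    have h4 : 0 < - Real.cos x - 3 / 4 := by
      by_contra h5
      have : 8 * ((n : ℝ) + 2) * (- Real.cos x - 3 / 4) ≤ 0 :=
        mul_nonpos_of_nonneg_of_nonpos (by linarith) (not_lt.1 h5)
      linarith
    exact Real.smoothTransition.one_of_one_le (by linarith)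
  · intro x hx
    refine ⟨Real.smoothTransition.zero_of_nonpos (by linarith), fun n => ?_⟩
    have h1 : q n x = 0 := by
      by_contra h0
      have h1 := (q_support n x h0).1
      have hn : (0 : ℝ) ≤ n := Nat.cast_nonneg n
      have : 8 * ((n : ℝ) + 2) * (- Real.cos x - 3 / 4) ≤ 0 :=
        mul_nonpos_of_nonneg_of_nonpos (by linarith) (by linarith)
      linarith
    simp only [h1, mul_zero]

end Pool.Agent.Work.MP_b0497c_an.Forced.S
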