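import Pool.Agent.Work.MP_b0497c_an.Bd.B01

set_option autoImplicit false

/-!
# Switching on, with the sharper bound for the velocity (copy of D8)
-/

open scoped ContDiff Matrix
open Set

namespace Pool.Agent.Work.MP_b0497c_an.Forced.W

/-- D8 with the sharper bound for the velocity. -/
def claimD8b : Prop := ∀ (ι : Type) (S : Data ι) (J : ℕ) (h : ℝ → ℝ) (b sig : ι → ℝ)
    (eta : ι → ℝ → ℝ) (V : Fin 3 → Sm ι) (q s : Sm ι) (m o : Fin 3 → Sm ι),
    (∀ k, V k ∈ S.O 0) → q ∈ S.O 0 → s ∈ S.O 0 → (∑ k, S.ks k * V k = S.Nis * s) →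
    (∑ k, S.D k (V k) = 0) → (∀ a, m a ∈ S.Km 1) → (∀ a, o a ∈ S.Kz (J + 1)) →
    (∀ a, S.E V q a = m a + o a) →
    (∀ k i z, ‖z.2.1‖ < 1 / 2 → (V k).1 i z = (S.N i)⁻¹ * S.v k i z.1 * h z.2.2) →
    (∀ i, 0 ≤ b i) → (∀ i, ∀ t ∈ S.I i, t ≤ sig i → S.p i t ≤ b i) →
    Mod S.Lam S.I (fun _ _ => 1) eta →
    Mod S.Lam S.I (fun i t => if t ≤ sig i then 1 else 0) (fun i t => deriv (eta i) t) →
    Mod S.Lam S.I (fun i t => if t ≤ sig i then 1 else 0)
      (fun i t => eta i t * eta i t - eta i t) →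
    ∃ (V' : Fin 3 → Sm ι) (q' : Sm ι) (m' o' : Fin 3 → Sm ι),
      (∀ k, V' k ∈ Sym S.Lam S.I (fun i _ => (1 + S.a i) / S.N i) Pb Qp) ∧
      (∀ k, V' k ∈ Sym S.Lam S.I (fun _ _ => 1) Pb Qp) ∧
      q' ∈ Sym S.Lam S.I (fun _ _ => 1) Pb Qp ∧
      (∑ k, S.D k (V' k) = 0) ∧
      (∀ a, m' a ∈ Sym S.Lam S.I (fun i _ => (1 + S.a i) ^ 2 * (S.N i ^ 2)⁻¹) Pb Q1) ∧
      (∀ a, o' a ∈ Sym S.Lam S.I (fun i _ => b i + ((1 + S.a i) / S.N i) ^ J) Pb Qp) ∧
      (∀ a, S.E V' q' a = m' a + o' a) ∧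
      (∀ i t z, eta i t = 0 → z.1 = t → (∀ k, (V' k).1 i z = 0) ∧ q'.1 i z = 0) ∧
      ∀ k i z, ‖z.2.1‖ < 1 / 2 →
        (V' k).1 i z = eta i z.1 * ((S.N i)⁻¹ * S.v k i z.1 * h z.2.2)

theorem prfD8b (hB3 : claimB3) (hB4 : claimB4)
    (hB7 : claimB7) (hD1 : claimD1) (hD2 : claimD2) (hD6 : claimD6) : claimD8b := by
  intro ι S J h b sig eta V q s m o e1 e2 e3 e4 e5 e6 e7 e8 e9 hb hpb meta1 meta2 meta3
  obtain ⟨d1, -, -⟩ := hD1 ι S
  obtain ⟨c1, c2, c3, c4, c5, c6, c7, c8, c9⟩ := hD2 ι S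
  obtain ⟨f1, f2, -⟩ := hD6 ι S V V q q s e4 c9 d1
  set et : Sm ι := cf eta meta1.1 with het
  set et' : Sm ι := cf (fun i t => deriv (eta i) t) meta2.1 with het'
  have hDet : ∀ k, S.D k et = 0 := fun k => D8.D_cf S eta meta1.1 k
  have hdt : dt et = et' := D8.dt_cf eta meta1.1 meta2.1
  set et2 : Sm ι := cf (fun i t => eta i t * eta i t - eta i t) meta3.1 with het2
  have hsq : et2 = et * et - et := by
    apply Subtype.ext
    funext i z
    rfl
  have hw : ∀ i, ∀ t ∈ S.I i, ∀ j l : ℕ, wt S.N S.a S.p j i t * wt S.N S.a S.p l i t ≤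
      wt S.N S.a S.p (j + l + 1) i t := fun i t ht j l =>
    (hB7 ι S.I S.N S.a S.p S.a_nonneg S.a_le S.p_nonneg S.p_le i t ht j l).1
  -- the quadratic term
  have hquad : ∀ a, ∑ b, S.Gs a b * ∑ k, V k * S.D k (V b) ∈ S.O 1 := by
    intro a
    refine (S.O 1).sum_mem fun b _ => ?_
    refine ((c6 1 _ ?_).2.2 a b).1
    rw [f1]
    have hprod : ∀ f g, f ∈ S.O 0 → g ∈ S.O 0 → f * g ∈ S.O 1 := by
      intro f g hf hg
      exact hB3 ι S.Lam S.I (wt S.N S.a S.p 0) (wt S.N S.a S.p 0) (wt S.N S.a S.p 1) Pb Pb Pb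
        Qp Qp Qp f g S.two_le_Lam D8.Pb_mul D8.Qp_mul (fun i t ht => hw i t ht 0 0) hf hg
    refine (S.O 1).add_mem ((S.O 1).sum_mem fun k _ => ?_) ?_
    · exact hprod _ _ (e1 k) ((c4 0 _ (e1 b)).2.2 k)
    · exact hprod _ _ e3 (c4 0 _ (e1 b)).2.1
  have hlin : ∀ a, ∑ b, S.Gs a b * V b ∈ S.O 0 := fun a =>
    (S.O 0).sum_mem fun b _ => ((c6 0 _ (e1 b)).2.2 a b).1
  -- coefficient times symbol of the class `O 0`
  have hmul0 : ∀ f ∈ S.O 0, et * f ∈ Sym S.Lam S.I (fun _ _ => 1) Pb Qp := by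
    intro f hf
    exact (hB4 ι S.Lam S.I (wt S.N S.a S.p 0) (fun _ _ => 1) (fun _ _ => 1) Pb Pb Qp Qp f
      S.two_le_Lam (fun _ hx => hx) (fun _ hx => hx) hf).2 eta et meta1 (fun i z => rfl)
      (fun i t ht => D8.w0 S i t ht)
  have hmul1 : ∀ f ∈ S.O 0, et * f ∈ Sym S.Lam S.I (fun i _ => (1 + S.a i) / S.N i) Pb Qp := by
    intro f hf
    refine (hB4 ι S.Lam S.I (wt S.N S.a S.p 0) (fun _ _ => 1) (fun i _ => (1 + S.a i) / S.N i)
      Pb Pb Qp Qp f S.two_le_Lam (fun _ hx => hx) (fun _ hx => hx) hf).2 eta et meta1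
      (fun i z => rfl) (fun i t ht => ?_)
    unfold wt
    rw [pow_zero, one_mul, one_mul, div_eq_inv_mul]
    exact mul_le_mul_of_nonneg_left (by linarith [S.p_le i t ht])
      (inv_nonneg.mpr (D8.N_pos S i).le)
  refine ⟨fun k => et * V k, et * q, fun a => et * m a,
    fun a => et * o a + et' * ∑ b, S.Gs a b * V b +
      et2 * ∑ b, S.Gs a b * ∑ k, V k * S.D k (V b), ?_, ?_, ?_, ?_, ?_, ?_, ?_, ?_, ?_⟩
  · exact fun k => hmul1 _ (e1 k)
  · exact fun k => hmul0 _ (e1 k)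
  · exact hmul0 _ e2
  · have : ∀ k, S.D k (et * V k) = et * S.D k (V k) := by
      intro k
      rw [Derivation.leibniz, hDet, smul_zero, add_zero, smul_eq_mul]
    rw [Finset.sum_congr rfl fun k _ => this k, ← Finset.mul_sum, e5, mul_zero]
  · intro a
    exact (hB4 ι S.Lam S.I (wt S.N S.a S.p 1) (fun _ _ => 1)
      (fun i _ => (1 + S.a i) ^ 2 * (S.N i ^ 2)⁻¹) Pf Pb Q1 Q1 (m a)
      S.two_le_Lam (fun _ hx => hx.1) (fun _ hx => hx) (e6 a)).2 eta et meta1 (fun i z => rfl)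
      (fun i t ht => D8.w1 S i t ht)
  · intro a
    refine Submodule.add_mem _ (Submodule.add_mem _ ?_ ?_) ?_
    · refine (hB4 ι S.Lam S.I (wt S.N S.a S.p (J + 1)) (fun _ _ => 1)
        (fun i _ => b i + ((1 + S.a i) / S.N i) ^ J) Pf Pb Qz Qp (o a)
        S.two_le_Lam (fun _ hx => hx.1) (fun _ hx => hx.1) (e7 a)).2 eta et meta1
        (fun i z => rfl) (fun i t ht => ?_)
      have h1 := D8.wJ S i t ht J
      have h2 := hb i
      linarith
    · refine (hB4 ι S.Lam S.I (wt S.N S.a S.p 0) (fun i t => if t ≤ sig i then 1 else 0)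
        (fun i _ => b i + ((1 + S.a i) / S.N i) ^ J) Pb Pb Qp Qp _
        S.two_le_Lam (fun _ hx => hx) (fun _ hx => hx) (hlin a)).2 _ et' meta2
        (fun i z => rfl) (fun i t ht => ?_)
      have h3 : 0 ≤ ((1 + S.a i) / S.N i) ^ J := pow_nonneg (D8.eps_nonneg S i) J
      have h2 := hb i
      split_ifs with hts
      · have h4 := (D8.wb S i t (b i) (hpb i t ht hts)).1
        linarith
      · linarith
    · refine (hB4 ι S.Lam S.I (wt S.N S.a S.p 1) (fun i t => if t ≤ sig i then 1 else 0)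
        (fun i _ => b i + ((1 + S.a i) / S.N i) ^ J) Pb Pb Qp Qp _
        S.two_le_Lam (fun _ hx => hx) (fun _ hx => hx) (hquad a)).2 _ et2 meta3
        (fun i z => rfl) (fun i t ht => ?_)
      have h3 : 0 ≤ ((1 + S.a i) / S.N i) ^ J := pow_nonneg (D8.eps_nonneg S i) J
      have h2 := hb i
      split_ifs with hts
      · have h4 := (D8.wb S i t (b i) (hpb i t ht hts)).2
        linarith
      · linarith
  · intro a
    have h1 := e8 a
    rw [f2 a] at h1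
    unfold Data.L LL at h1
    unfold Data.E EE
    have k1 : ∀ b, dt (et * V b) = et * dt (V b) + V b * et' := by
      intro b
      rw [Derivation.leibniz, hdt, smul_eq_mul, smul_eq_mul]
    have k2 : ∀ k (f : Sm ι), S.D k (et * f) = et * S.D k f := by
      intro k f
      rw [Derivation.leibniz, hDet, smul_zero, add_zero, smul_eq_mul]
    simp only [k1, k2, hsq]
    simp only [Fin.sum_univ_three] at h1 ⊢
    linear_combination et * h1
  · intro i t z h0 hz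
    refine ⟨fun k => ?_, ?_⟩
    · show eta i z.1 * (V k).1 i z = 0
      rw [hz, h0, zero_mul]
    · show eta i z.1 * q.1 i z = 0
      rw [hz, h0, zero_mul]
  · intro k i z hz
    show eta i z.1 * (V k).1 i z = _
    rw [e9 k i z hz]

end Pool.Agent.Work.MP_b0497c_an.Forced.W
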