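import Pool.Agent.Work.MP_b0497c_an.Forced.S.Stmts

set_option autoImplicit false

/-!
# Theorem S', part II: assembly from `TorusAvg`
-/

open scoped ContDiff
open Set Filter Topology MeasureTheory

namespace Pool.Agent.Work.MP_b0497c_an.Forced.S

open Pool.Agent.Work.MP_b0497c_an.Dec (cube)

theorem sfin (hB5 : claimB5) (hB7 : claimB7) (hB8 : claimB8) (hB9 : claimB9) (hC1 : claimC1)
    (hC2 : claimC2) (hC3 : claimC3) (hC4 : claimC4) (hC5 : claimC5) (hC6 : claimC6)
    (hD1 : claimD1) (hD2 : claimD2) (hD3 : claimD3) (hD4 : claimD4) (hD5 : claimD5)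
    {T : ℝ} {f u : ℝ → E3 → E3} {p : ℝ → E3 → ℝ} (h : TorusAvg T f u p) : SConclusion := by
  classical
  obtain ⟨F, b, hF, hFper, hb, hbper, hbsupp, hexp⟩ := hB7 f h.f_smooth h.f_per h.f_time
  obtain ⟨G, hG1, hG2⟩ := h.avg
  -- the averages
  have hgRD : RD (fun n => G (b n)) := by
    refine ⟨fun n => (hG1 (b n) (hb.1 n) (hbper n)).1, fun m k => ?_⟩
    obtain ⟨C, m', hC⟩ := hG2 m
    -- bounds of the derivatives of `b n` up to order `m'`
    have h1 : ∀ i : ℕ, ∃ D : ℝ, ∀ (n : ℕ) (z : E3),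
        ((n : ℝ) + 1) ^ k * ‖iteratedFDeriv ℝ i (b n) z‖ ≤ D := fun i => hb.2 i k
    choose D hD using h1
    have hDn : ∀ i, 0 ≤ D i := fun i => le_trans (by positivity) (hD i 0 0)
    set D' : ℝ := ∑ i ∈ Finset.range (m' + 1), D i with hD'
    have hDle : ∀ i ≤ m', D i ≤ D' := fun i hi =>
      Finset.single_le_sum (f := D) (fun j _ => hDn j) (Finset.mem_range.2 (Nat.lt_succ_of_le hi))
    refine ⟨C * D', fun n t => ?_⟩
    have hpos : (0 : ℝ) < ((n : ℝ) + 1) ^ k := by positivity
    have h2 := hC (b n) (hb.1 n) (hbper n) (D' / ((n : ℝ) + 1) ^ k) (fun i hi x => by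
      rw [le_div_iff₀ hpos, mul_comm]
      exact le_trans (hD i n x) (hDle i hi)) t
    rw [norm_iteratedFDeriv_eq_norm_iteratedDeriv, Real.norm_eq_abs]
    calc ((n : ℝ) + 1) ^ k * |iteratedDeriv m (G (b n)) t|
        ≤ ((n : ℝ) + 1) ^ k * (C * (D' / ((n : ℝ) + 1) ^ k)) :=
          mul_le_mul_of_nonneg_left h2 hpos.le
      _ = C * D' := by
          field_simp
  obtain ⟨Gp, hGp, hGpper, hGpeq, hGp0⟩ := hB9 _ hgRD
    (fun n t ht => (hG1 (b n) (hb.1 n) (hbper n)).2.2 t ht)
  obtain ⟨r, Phi, Gam, hr, hrper, hreven, hPhi, hGam, hPhiper, hGamper, hFr, hGr⟩ :=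
    hB5 F Gp hF hGp hFper hGpper
  obtain ⟨psi, U, hpsi, hpsiper, hU, hUper, hdisj, hnorm, hpsiU, hsupp⟩ := hB8
  obtain ⟨hCn, hCnper⟩ := hC1 r Phi Gam hr hrper hPhi hGam hPhiper hGamper
  obtain ⟨hK, hact⟩ := hC5 r psi b hr hrper hpsi hpsiper hb hbper
  obtain ⟨hVs, hVper, hVdiv, hVeu⟩ := hC6 U psi (Cn r Phi Gam) hpsi hpsiper hU hUper hCn hCnper
    hpsiU
  set V : ℝ → E3 → E3 := VV U psi (Cn r Phi Gam) with hV
  have hVsupp : ∀ t, ∀ x : E3, - (1 / 2) ≤ Real.cos (x 0) → V t x = 0 := by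
    intro t x hx
    obtain ⟨h1, h2⟩ := hsupp (x 0) hx
    simp only [hV, VV, h1, h2]
    simp
  have hVc : ∀ t, Continuous (V t) := fun t =>
    hVs.continuous.comp (continuous_const.prodMk continuous_id)
  have huc : ∀ t < T, Continuous (u t) := by
    intro t ht
    have h1 : ContinuousOn (fun z : ℝ × E3 => u z.1 z.2) (Iio T ×ˢ univ) := h.u_smooth.continuousOn
    have h2 : ContinuousOn ((fun z : ℝ × E3 => u z.1 z.2) ∘ (fun x : E3 => (t, x))) univ :=
      h1.comp (continuous_const.prodMk continuous_id).continuousOn (fun x _ => ⟨ht, mem_univ _⟩)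
    exact continuousOn_univ.mp h2
  have hpsic : ∀ n, Continuous (psi n) := fun n => (hpsi.1 n).continuous
  have hrc : Continuous r := hr.continuous
  have hCc : ∀ n, Continuous (Cn r Phi Gam n) := fun n => (hCn.1 n).continuous
  -- reading the channels
  have hread : ∀ t < T, ∀ n, ∫ y in cube, psi n (y 0) * r (y 1) * (u t y + V t y) 2 = F n t := by
    intro t ht n
    have h1 : ∀ y : E3, psi n (y 0) * r (y 1) * (u t y + V t y) 2 =
        (psi n (y 0) * psi n (y 0)) * (r (y 1) * Cn r Phi Gam n (t, y 1)) := by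
      intro y
      by_cases hp : psi n (y 0) = 0
      · simp [hp]
      · have hcos : Real.cos (y 0) < -(1 / 2) := by
          by_contra hcon
          exact hp ((hsupp (y 0) (not_lt.1 hcon)).2 n)
        have hu0 : u t y = 0 := h.u_supp t ht y (by linarith)
        have hV2 : V t y 2 = psi n (y 0) * Cn r Phi Gam n (t, y 1) := by
          have h3 : ∑' m, psi m (y 0) * Cn r Phi Gam m (t, y 1) =
              psi n (y 0) * Cn r Phi Gam n (t, y 1) := by
            apply tsum_eq_single n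
            intro m hm
            have := hdisj m n hm (y 0)
            rcases mul_eq_zero.1 this with h4 | h4
            · rw [h4, zero_mul]
            · exact absurd h4 hp
          simp only [hV, VV, h3]
          simp [e]
        rw [hu0, zero_add, hV2]
        ring
    simp only [h1]
    rw [hC4.1 (fun s => psi n s * psi n s) (fun s => r s * Cn r Phi Gam n (t, s))
      ((hpsic n).mul (hpsic n)) (hrc.mul ((hCc n).comp (continuous_const.prodMk continuous_id))),
      hnorm n, one_mul, hC2 r Phi Gam hr hrper hreven hPhi hGam hPhiper hGamper n t, hFr n t]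
  -- the averages against `b n`
  have havg : ∀ t, 0 ≤ t → t < T → ∀ n, ∫ y in cube, inner ℝ (b n y) (u t y + V t y) =
      cv r (Gam n) t := by
    intro t ht0 ht n
    have h1 : ∀ y : E3, inner ℝ (b n y) (u t y + V t y) = inner ℝ (b n y) (u t y) := by
      intro y
      rcases lt_or_ge (Real.cos (y 0)) (1 / 2) with hc | hc
      · have : b n y = 0 := hbsupp n y (fun s => h.f_supp s y hc)
        simp [this]
      · rw [hVsupp t y (by linarith), add_zero]
    simp only [h1]
    rw [← (hG1 (b n) (hb.1 n) (hbper n)).2.1 t ht, ← hGr n t]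
    exact (hGpeq n t ⟨ht0, by linarith [h.T_lt]⟩).symm
  have hT3 : T < 3 := h.T_lt
  -- the perturbation acting on the flow
  have hpert : ∀ t ∈ Ico 0 T, ∀ x, op 1 (KK r psi b) (fun y => u t y + V t y) x =
      f t x + (deriv (fun s => V s x) t + fderiv ℝ (V t) x (V t x)) := by
    intro t ht x
    have hcont : Continuous (fun y => u t y + V t y) := (huc t ht.2).add (hVc t)
    have hper : Periodic3 (fun y => u t y + V t y) := fun i y => by
      show u t (y + (2 * Real.pi) • e i) + V t (y + (2 * Real.pi) • e i) = u t y + V t y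
      rw [h.u_per t ht.2 i y, hVper t i y]
    obtain ⟨hs1, hs2, hint⟩ := hact _ hcont hper x
    simp only [op, one_smul]
    rw [hint, (hVeu t x).2]
    have e1 : ∑' n, (∫ y in cube, psi n (y 0) * r (y 1) * (u t y + V t y) 2) • b n x = f t x := by
      simp only [hread t ht.2]
      exact (hexp t ⟨ht.1, by linarith [ht.2]⟩ x).tsum_eq
    have e2 : ∑' n, psi n (x 0) * r (x 1) * ∫ y in cube, inner ℝ (b n y) (u t y + V t y) =
        - ∑' n, psi n (x 0) * fderiv ℝ (Cn r Phi Gam n) (t, x 1) (1, 1) := by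
      rw [← tsum_neg]
      congr 1
      funext n
      rw [havg t ht.1 ht.2 n, hC3 r Phi Gam hr hrper hreven hPhi hGam hPhiper hGamper n t (x 1)
        (by
          rw [← hGr n (t - 3)]
          exact hGp0 n (t - 3) ⟨by linarith [ht.1], by linarith [ht.2]⟩)]
      ring
    rw [e1, e2, neg_smul, sub_neg_eq_add]
  obtain ⟨hus, hps, hsol, hblow⟩ := hD5 T f u V p (op 1 (KK r psi b)) h hVs hVper hVdiv hVsupp
    hpert
  refine ⟨KK r psi b, hK, fun x => V 0 x, ?_, ?_⟩
  · exact hVs.comp (contDiff_const.prodMk contDiff_id)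
  intro ε hε
  obtain ⟨k1, k2, k3, k4⟩ := hD3 T (KK r psi b) _ p ε hε h.T_pos hus hps hsol hblow
  have hT' : 0 < T / ε := div_pos h.T_pos hε
  refine ⟨T / ε, _, _, hT', k1, k2, k3, ?_, hD2 _ ε _ _ _ hK k3, k4, ?_⟩
  · intro x
    simp only [mul_zero]
    rw [h.u_zero 0 le_rfl x, zero_add]
  · exact hD4 (T / ε) ε (KK r psi b) _ _ hT' hK hD1 k3 k4

end Pool.Agent.Work.MP_b0497c_an.Forced.S
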