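import Pool.Agent.Work.MP_b0497c_an.Forced.Asm.Defs
import Pool.Agent.Work.MP_b0497c_an.Dec.Defs

set_option autoImplicit false

/-!
# Theorem S': definitions and claims of part II (see PROOF_S.md)

Euler plus `ε S u`, `S` an autonomous linear skew-adjoint operator with smooth kernel.
-/

open scoped ContDiff
open Set Filter Topology MeasureTheory

namespace Pool.Agent.Work.MP_b0497c_an.Forced.S

open Pool.Agent.Work.MP_b0497c_an.Dec (cube)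

/-- `2π`-periodic functions. -/
def Per {F : Type} (g : ℝ → F) : Prop := ∀ t, g (t + 2 * Real.pi) = g t

/-- Rapidly decreasing families of smooth functions. -/
def RD {E F : Type} [NormedAddCommGroup E] [NormedSpace ℝ E] [NormedAddCommGroup F]
    [NormedSpace ℝ F] (f : ℕ → E → F) : Prop :=
  (∀ n, ContDiff ℝ ∞ (f n)) ∧
    ∀ m k : ℕ, ∃ C : ℝ, ∀ (n : ℕ) (z : E), ((n : ℝ) + 1) ^ k * ‖iteratedFDeriv ℝ m (f n) z‖ ≤ C

/-- Families of smooth functions with polynomially growing norms. -/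
def TM {E F : Type} [NormedAddCommGroup E] [NormedSpace ℝ E] [NormedAddCommGroup F]
    [NormedSpace ℝ F] (f : ℕ → E → F) : Prop :=
  (∀ n, ContDiff ℝ ∞ (f n)) ∧
    ∀ m : ℕ, ∃ (C : ℝ) (k : ℕ), ∀ (n : ℕ) (z : E), ‖iteratedFDeriv ℝ m (f n) z‖ ≤ C * ((n : ℝ) + 1) ^ k

/-- Periodic convolution. -/
noncomputable def cv (r g : ℝ → ℝ) (t : ℝ) : ℝ := ∫ y in (0 : ℝ)..(2 * Real.pi), r (t - y) * g y

/-- The trigonometric system `1, sin t, cos t, sin 2t, cos 2t, ...`. -/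
noncomputable def tau (n : ℕ) (t : ℝ) : ℝ :=
  if Even n then Real.cos ((n / 2 : ℕ) * t) else Real.sin (((n + 1) / 2 : ℕ) * t)

/-- The Fourier coefficients with respect to `tau`. -/
noncomputable def coef (n : ℕ) (g : ℝ → ℝ) : ℝ :=
  (if n = 0 then (2 * Real.pi)⁻¹ else Real.pi⁻¹) * ∫ s in (0 : ℝ)..(2 * Real.pi), g s * tau n s

/-- The integral operator on the torus with kernel `ε K`. -/
noncomputable def op (ε : ℝ) (K : E3 → E3 → E3 →L[ℝ] E3) (v : E3 → E3) (x : E3) : E3 :=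
  ε • ∫ y in cube, K x y (v y)

/-- Classical solution of `u_t + (u·∇)u = -∇p + A u`, `div u = 0` on the torus, on `[0, T)`. -/
structure IsPertSolution (T : ℝ) (A : (E3 → E3) → E3 → E3) (u : ℝ → E3 → E3)
    (p : ℝ → E3 → ℝ) : Prop where
  periodic_u : ∀ t ∈ Ico 0 T, Periodic3 (u t)
  periodic_p : ∀ t ∈ Ico 0 T, Periodic3 (p t)
  contDiff_u : ContDiffOn ℝ 1 (fun z : ℝ × E3 => u z.1 z.2) (Ico 0 T ×ˢ univ)
  contDiff_p : ContDiffOn ℝ 1 (fun z : ℝ × E3 => p z.1 z.2) (Ico 0 T ×ˢ univ)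
  momentum : ∀ t ∈ Ico 0 T, ∀ x, derivWithin (fun s => u s x) (Ico 0 T) t
    + fderiv ℝ (u t) x (u t x) = - gradient (p t) x + A (u t) x
  div_free : ∀ t ∈ Ico 0 T, ∀ x, LinearMap.trace ℝ E3 (fderiv ℝ (u t) x) = 0

/-- Smooth, periodic, skew kernels. -/
structure GoodKernel (K : E3 → E3 → E3 →L[ℝ] E3) : Prop where
  smooth : ContDiff ℝ ∞ (fun z : E3 × E3 => K z.1 z.2)
  per1 : ∀ (i : Fin 3) (x y : E3), K (x + (2 * Real.pi) • e i) y = K x y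
  per2 : ∀ (i : Fin 3) (x y : E3), K x (y + (2 * Real.pi) • e i) = K x y
  skew : ∀ x y v w : E3, inner ℝ (K x y v) w = - inner ℝ v (K y x w)

/-- Input of part II: the solution of the forced problem together with the smoothness of the
averages of `u` up to (and beyond) the blow-up time. -/
structure TorusAvg (T : ℝ) (f u : ℝ → E3 → E3) (p : ℝ → E3 → ℝ) : Prop where
  T_pos : 0 < T
  T_lt : T < 3
  f_smooth : ContDiff ℝ ∞ (fun z : ℝ × E3 => f z.1 z.2)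
  f_per : ∀ t, Periodic3 (f t)
  f_time : ∀ t, t ∉ Icc (0 : ℝ) 4 → ∀ x, f t x = 0
  u_smooth : ContDiffOn ℝ ∞ (fun z : ℝ × E3 => u z.1 z.2) (Iio T ×ˢ univ)
  p_smooth : ContDiffOn ℝ ∞ (fun z : ℝ × E3 => p z.1 z.2) (Iio T ×ˢ univ)
  u_per : ∀ t < T, Periodic3 (u t)
  p_per : ∀ t < T, Periodic3 (p t)
  u_zero : ∀ t ≤ 0, ∀ x, u t x = 0
  /-- everything lives in `|x₁| ≤ 1` modulo `2π` -/
  f_supp : ∀ t, ∀ x : E3, Real.cos (x 0) < 1 / 2 → f t x = 0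
  u_supp : ∀ t < T, ∀ x : E3, Real.cos (x 0) < 1 / 2 → u t x = 0
  p_supp : ∀ t < T, ∀ x : E3, Real.cos (x 0) < 1 / 2 → p t x = 0
  euler : ∀ t < T, ∀ x, deriv (fun s => u s x) t + fderiv ℝ (u t) x (u t x)
    = - gradient (p t) x + f t x
  div_free : ∀ t < T, ∀ x, LinearMap.trace ℝ E3 (fderiv ℝ (u t) x) = 0
  blow : Tendsto (fun t => ‖curl (u t) 0‖) (𝓝[<] T) atTop
  avg : ∃ G : (E3 → E3) → ℝ → ℝ,
    (∀ φ : E3 → E3, ContDiff ℝ ∞ φ → Periodic3 φ → ContDiff ℝ ∞ (G φ) ∧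
      (∀ t < T, G φ t = ∫ x in cube, inner ℝ (φ x) (u t x)) ∧
      (∀ t, t ∉ Icc (0 : ℝ) 3 → G φ t = 0)) ∧
    ∀ j : ℕ, ∃ (C : ℝ) (m : ℕ), ∀ φ : E3 → E3, ContDiff ℝ ∞ φ → Periodic3 φ →
      ∀ D : ℝ, (∀ m' ≤ m, ∀ x, ‖iteratedFDeriv ℝ m' φ x‖ ≤ D) →
      ∀ t, |iteratedDeriv j (G φ) t| ≤ C * D

/-- The conclusion. -/
def SConclusion : Prop := ∃ K : E3 → E3 → E3 →L[ℝ] E3, GoodKernel K ∧
  ∃ u0 : E3 → E3, ContDiff ℝ ∞ u0 ∧ ∀ ε : ℝ, 0 < ε →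
  ∃ (T : ℝ) (u : ℝ → E3 → E3) (p : ℝ → E3 → ℝ), 0 < T ∧
    ContDiffOn ℝ ∞ (fun z : ℝ × E3 => u z.1 z.2) (Ico 0 T ×ˢ univ) ∧
    ContDiffOn ℝ ∞ (fun z : ℝ × E3 => p z.1 z.2) (Ico 0 T ×ˢ univ) ∧
    IsPertSolution T (op ε K) u p ∧ (∀ x, u 0 x = ε • u0 x) ∧
    (∀ t ∈ Ico 0 T, ∫ x in cube, ‖u t x‖ ^ 2 = ∫ x in cube, ‖u 0 x‖ ^ 2) ∧
    Tendsto (fun t => ‖curl (u t) 0‖) (𝓝[<] T) atTop ∧
    ∀ (T' : ℝ) (v : ℝ → E3 → E3) (q : ℝ → E3 → ℝ), IsPertSolution T' (op ε K) v q →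
      (∀ x, v 0 x = u 0 x) → T' ≤ T ∧ ∀ t ∈ Ico 0 T', ∀ x, v t x = u t x

/-! ## Claims -/

/-- A1: products, composition with continuous linear maps. -/
def claimA1 : Prop := ∀ (E F : Type) [NormedAddCommGroup E] [NormedSpace ℝ E]
    [NormedAddCommGroup F] [NormedSpace ℝ F] (f : ℕ → E → F) (g : ℕ → E → ℝ),
    (RD f → TM g → RD (fun n z => g n z • f n z)) ∧
    (TM f → TM g → TM (fun n z => g n z • f n z)) ∧
    (TM f → RD g → RD (fun n z => g n z • f n z)) ∧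
    (RD f → ∀ g' : ℕ → E → F, RD g' → RD (fun n z => f n z + g' n z)) ∧
    (RD f → TM f)

/-- A2: composition with linear maps on both sides; a single function with bounded derivatives
as a constant family. -/
def claimA2 : Prop := ∀ (E E' F F' : Type) [NormedAddCommGroup E] [NormedSpace ℝ E]
    [NormedAddCommGroup E'] [NormedSpace ℝ E'] [NormedAddCommGroup F'] [NormedSpace ℝ F']
    [NormedAddCommGroup F] [NormedSpace ℝ F] (f : ℕ → E → F) (L : E' →L[ℝ] E) (M : F →L[ℝ] F'),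
    (RD f → RD (fun n z => M (f n (L z)))) ∧ (TM f → TM (fun n z => M (f n (L z)))) ∧
    ∀ g : E → F, ContDiff ℝ ∞ g → (∀ m : ℕ, ∃ C : ℝ, ∀ z, ‖iteratedFDeriv ℝ m g z‖ ≤ C) →
      TM (fun _ => g)

/-- A3: sums of rapidly decreasing families. -/
def claimA3 : Prop := ∀ (E F : Type) [NormedAddCommGroup E] [NormedSpace ℝ E]
    [NormedAddCommGroup F] [NormedSpace ℝ F] [CompleteSpace F] (f : ℕ → E → F), RD f →
    (∀ z, Summable (fun n => ‖f n z‖)) ∧ (∀ z, Summable (fun n => ‖fderiv ℝ (f n) z‖)) ∧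
    (∃ C : ℕ → ℝ, Summable C ∧ ∀ n z, ‖f n z‖ ≤ C n) ∧
    ContDiff ℝ ∞ (fun z => ∑' n, f n z) ∧
    ∀ z, HasFDerivAt (fun z => ∑' n, f n z) (∑' n, fderiv ℝ (f n) z) z

/-- A4: smooth periodic functions on the line have bounded derivatives; smooth functions with
period `2π` in both variables too. -/
def claimA4 : Prop := (∀ (F : Type) [NormedAddCommGroup F] [NormedSpace ℝ F] (g : ℝ → F),
    ContDiff ℝ ∞ g → Per g → ∀ m : ℕ, ∃ C : ℝ, ∀ z, ‖iteratedFDeriv ℝ m g z‖ ≤ C)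

/-- B1: slowly decreasing multipliers. -/
def claimB1 : Prop := ∀ A : ℕ → ℕ → ℝ, (∀ j n, 0 ≤ A j n) →
    (∀ j k : ℕ, ∃ C : ℝ, ∀ n : ℕ, ((n : ℝ) + 1) ^ k * A j n ≤ C) →
    ∃ gam : ℕ → ℝ, (∀ n, 0 < gam n) ∧
      (∀ k : ℕ, ∃ C : ℝ, ∀ n : ℕ, ((n : ℝ) + 1) ^ k * gam n ≤ C) ∧
      ∀ j k : ℕ, ∃ C : ℝ, ∀ n : ℕ, ((n : ℝ) + 1) ^ k * A j n ≤ C * gam n

/-- B2: real Fourier series of smooth periodic functions. -/
def claimB2 : Prop :=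
    (∀ g : ℝ → ℝ, ContDiff ℝ ∞ g → Per g → ∀ t, HasSum (fun n => coef n g * tau n t) (g t)) ∧
    ∃ K : ℕ → ℝ, ∀ (j : ℕ) (g : ℝ → ℝ) (D : ℝ), ContDiff ℝ ∞ g → Per g → (∀ t, |g t| ≤ D) →
      (∀ t, |iteratedDeriv j g t| ≤ D) → ∀ n : ℕ, ((n : ℝ) + 1) ^ j * |coef n g| ≤ K j * D

/-- B3: the trigonometric system has polynomially bounded derivatives, so rapidly decreasing
coefficients give rapidly decreasing families. -/
def claimB3 : Prop :=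
    (∀ n, Per (tau n)) ∧ (∀ n, ContDiff ℝ ∞ (tau n)) ∧
    (∀ (m n : ℕ) (t : ℝ), ‖iteratedFDeriv ℝ m (tau n) t‖ ≤ ((n : ℝ) + 1) ^ m) ∧
    ∀ c : ℕ → ℕ → ℝ, (∀ k l : ℕ, ∃ C : ℝ, ∀ n i : ℕ,
        ((n : ℝ) + 1) ^ k * ((i : ℝ) + 1) ^ l * |c n i| ≤ C) →
      RD (fun n t => ∑' i, c n i * tau i t) ∧ ∀ n, Per (fun t => ∑' i, c n i * tau i t)

/-- B4: an even smooth kernel with prescribed positive coefficients `beta l` at frequency `l`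
acts diagonally. -/
def claimB4 : Prop := ∀ beta : ℕ → ℝ,
    (∀ k : ℕ, ∃ C : ℝ, ∀ n : ℕ, ((n : ℝ) + 1) ^ k * |beta n| ≤ C) →
    ContDiff ℝ ∞ (fun t => ∑' l : ℕ, beta l * Real.cos (l * t)) ∧
    Per (fun t => ∑' l : ℕ, beta l * Real.cos (l * t)) ∧
    ∀ n t, cv (fun t => ∑' l : ℕ, beta l * Real.cos (l * t)) (tau n) t =
      (if n = 0 then 2 * Real.pi else Real.pi) * beta ((n + 1) / 2) * tau n t

/-- B5: factorisation. -/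
def claimB5 : Prop := ∀ F G : ℕ → ℝ → ℝ, RD F → RD G → (∀ n, Per (F n)) → (∀ n, Per (G n)) →
    ∃ (r : ℝ → ℝ) (Phi Gam : ℕ → ℝ → ℝ), ContDiff ℝ ∞ r ∧ Per r ∧ (∀ t, r (-t) = r t) ∧
      RD Phi ∧ RD Gam ∧ (∀ n, Per (Phi n)) ∧ (∀ n, Per (Gam n)) ∧
      (∀ n t, F n t = cv r (Phi n) t) ∧ ∀ n t, G n t = cv r (Gam n) t

/-- B6: parametric integrals over a compact interval. -/
def claimB6 : Prop := ∀ (E F : Type) [NormedAddCommGroup E] [NormedSpace ℝ E]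
    [FiniteDimensional ℝ E] [NormedAddCommGroup F] [NormedSpace ℝ F] [CompleteSpace F]
    (h : ℕ → ℝ × E → F) (a b : ℝ), a ≤ b →
    ((∀ n, ContDiff ℝ ∞ (h n)) → ∀ n, ContDiff ℝ ∞ (fun x => ∫ s in a..b, h n (s, x))) ∧
    (RD h → RD (fun n x => ∫ s in a..b, h n (s, x))) ∧
    ∀ n, ContDiff ℝ ∞ (h n) → ∀ x v, fderiv ℝ (fun x => ∫ s in a..b, h n (s, x)) x v =
      ∫ s in a..b, fderiv ℝ (h n) (s, x) (0, v)

/-- B7: expansion of the force. -/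
def claimB7 : Prop := ∀ f : ℝ → E3 → E3, ContDiff ℝ ∞ (fun z : ℝ × E3 => f z.1 z.2) →
    (∀ t, Periodic3 (f t)) → (∀ t, t ∉ Icc (0 : ℝ) 4 → ∀ x, f t x = 0) →
    ∃ (F : ℕ → ℝ → ℝ) (b : ℕ → E3 → E3), RD F ∧ (∀ n, Per (F n)) ∧ RD b ∧
      (∀ n, Periodic3 (b n)) ∧ (∀ n x, (∀ t, f t x = 0) → b n x = 0) ∧
      ∀ t ∈ Icc (0 : ℝ) 4, ∀ x, HasSum (fun n => F n t • b n x) (f t x)

/-- B8: the channels. -/
def claimB8 : Prop := ∃ (psi : ℕ → ℝ → ℝ) (U : ℝ → ℝ), TM psi ∧ (∀ n, Per (psi n)) ∧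
    ContDiff ℝ ∞ U ∧ Per U ∧ (∀ n m, n ≠ m → ∀ x, psi n x * psi m x = 0) ∧
    (∀ n, 2 * Real.pi * ∫ x in (0 : ℝ)..(2 * Real.pi), psi n x * psi n x = 1) ∧
    (∀ n x, psi n x ≠ 0 → U x = 1) ∧
    ∀ x, - (1 / 2) ≤ Real.cos x → U x = 0 ∧ ∀ n, psi n x = 0

/-- B9: periodisation in time of functions supported in `[0, 3]`. -/
def claimB9 : Prop := ∀ g : ℕ → ℝ → ℝ, RD g → (∀ n t, t ∉ Icc (0 : ℝ) 3 → g n t = 0) →
    ∃ G : ℕ → ℝ → ℝ, RD G ∧ (∀ n, Per (G n)) ∧ (∀ n, ∀ t ∈ Icc (0 : ℝ) 3, G n t = g n t) ∧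
      ∀ n, ∀ t ∈ Icc (-3 : ℝ) 0, G n t = 0

/-- The free content of the channels. -/
noncomputable def Om (r : ℝ → ℝ) (Phi Gam : ℕ → ℝ → ℝ) (n : ℕ) (z : ℝ) : ℝ :=
  Phi n z + ∫ s in (0 : ℝ)..3, cv r r s * Gam n (z - s)

/-- The content `Om(t - y) - Q(t, y)` of channel `n`. -/
noncomputable def Cn (r : ℝ → ℝ) (Phi Gam : ℕ → ℝ → ℝ) (n : ℕ) (z : ℝ × ℝ) : ℝ :=
  Om r Phi Gam n (z.1 - z.2) - ∫ s in (0 : ℝ)..3, r (s - z.2) * cv r (Gam n) (z.1 - s)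

/-- C1: regularity of the content. -/
def claimC1 : Prop := ∀ (r : ℝ → ℝ) (Phi Gam : ℕ → ℝ → ℝ), ContDiff ℝ ∞ r → Per r →
    RD Phi → RD Gam → (∀ n, Per (Phi n)) → (∀ n, Per (Gam n)) →
    RD (Cn r Phi Gam) ∧ ∀ n t y, Cn r Phi Gam n (t, y + 2 * Real.pi) = Cn r Phi Gam n (t, y)

/-- C2: reading the content gives `F n = r * Phi n`. -/
def claimC2 : Prop := ∀ (r : ℝ → ℝ) (Phi Gam : ℕ → ℝ → ℝ), ContDiff ℝ ∞ r → Per r →
    (∀ t, r (-t) = r t) → RD Phi → RD Gam → (∀ n, Per (Phi n)) → (∀ n, Per (Gam n)) →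
    ∀ n t, ∫ y in (0 : ℝ)..(2 * Real.pi), r y * Cn r Phi Gam n (t, y) = cv r (Phi n) t

/-- C3: the transport equation for the content. -/
def claimC3 : Prop := ∀ (r : ℝ → ℝ) (Phi Gam : ℕ → ℝ → ℝ), ContDiff ℝ ∞ r → Per r →
    (∀ t, r (-t) = r t) → RD Phi → RD Gam → (∀ n, Per (Phi n)) → (∀ n, Per (Gam n)) →
    ∀ n t y, cv r (Gam n) (t - 3) = 0 →
      fderiv ℝ (Cn r Phi Gam n) (t, y) (1, 1) = - (r y * cv r (Gam n) t)

/-- C4: integrals over the cube of functions of two coordinates. -/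
def claimC4 : Prop := (∀ a b : ℝ → ℝ, Continuous a → Continuous b →
    ∫ y in cube, a (y 0) * b (y 1) =
      2 * Real.pi * (∫ s in (0 : ℝ)..(2 * Real.pi), a s) * ∫ s in (0 : ℝ)..(2 * Real.pi), b s) ∧
    (∀ g : E3 → E3, Continuous g → IntegrableOn g cube) ∧
    ∀ g : E3 → ℝ, Continuous g → IntegrableOn g cube

/-- The rank one kernel `v ↦ v₃ b`. -/
noncomputable def colE (b : E3) : E3 →L[ℝ] E3 := (innerSL ℝ (e 2)).smulRight b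

/-- The rank one kernel `v ↦ (b·v) e₃`. -/
noncomputable def rowE (b : E3) : E3 →L[ℝ] E3 := (innerSL ℝ b).smulRight (e 2)

/-- The kernel. -/
noncomputable def KK (r : ℝ → ℝ) (psi : ℕ → ℝ → ℝ) (b : ℕ → E3 → E3) (x y : E3) :
    E3 →L[ℝ] E3 :=
  ∑' n, ((psi n (y 0) * r (y 1)) • colE (b n x) - (psi n (x 0) * r (x 1)) • rowE (b n y))

/-- C5: the kernel is good, and the action of the operator. -/
def claimC5 : Prop := ∀ (r : ℝ → ℝ) (psi : ℕ → ℝ → ℝ) (b : ℕ → E3 → E3), ContDiff ℝ ∞ r →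
    Per r → TM psi → (∀ n, Per (psi n)) → RD b → (∀ n, Periodic3 (b n)) →
    GoodKernel (KK r psi b) ∧
    ∀ v : E3 → E3, Continuous v → Periodic3 v → ∀ x,
      (Summable fun n => (∫ y in cube, psi n (y 0) * r (y 1) * v y 2) • b n x) ∧
      (Summable fun n => (psi n (x 0) * r (x 1) * ∫ y in cube, inner ℝ (b n y) (v y))) ∧
      ∫ y in cube, KK r psi b x y (v y) =
        ∑' n, (∫ y in cube, psi n (y 0) * r (y 1) * v y 2) • b n x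
        - (∑' n, psi n (x 0) * r (x 1) * ∫ y in cube, inner ℝ (b n y) (v y)) • e 2

/-- The flow in the slab. -/
noncomputable def VV (U : ℝ → ℝ) (psi : ℕ → ℝ → ℝ) (C : ℕ → ℝ × ℝ → ℝ) (t : ℝ) (x : E3) : E3 :=
  U (x 0) • e 1 + (∑' n, psi n (x 0) * C n (t, x 1)) • e 2

/-- C6: the flow in the slab: smooth, periodic, divergence free, and its Euler expression. -/
def claimC6 : Prop := ∀ (U : ℝ → ℝ) (psi : ℕ → ℝ → ℝ) (C : ℕ → ℝ × ℝ → ℝ), TM psi →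
    (∀ n, Per (psi n)) → ContDiff ℝ ∞ U → Per U → RD C →
    (∀ n t y, C n (t, y + 2 * Real.pi) = C n (t, y)) → (∀ n x, psi n x ≠ 0 → U x = 1) →
    ContDiff ℝ ∞ (fun z : ℝ × E3 => VV U psi C z.1 z.2) ∧ (∀ t, Periodic3 (VV U psi C t)) ∧
    (∀ t x, LinearMap.trace ℝ E3 (fderiv ℝ (VV U psi C t) x) = 0) ∧
    (∀ t x, (Summable fun n => psi n (x 0) * fderiv ℝ (C n) (t, x 1) (1, 1)) ∧
      deriv (fun s => VV U psi C s x) t + fderiv ℝ (VV U psi C t) x (VV U psi C t x) =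
      (∑' n, psi n (x 0) * fderiv ℝ (C n) (t, x 1) (1, 1)) • e 2)

/-- D1: uniqueness. -/
def claimD1 : Prop := ∀ (T₁ T₂ ε : ℝ) (K : E3 → E3 → E3 →L[ℝ] E3) (u v : ℝ → E3 → E3)
    (p q : ℝ → E3 → ℝ), GoodKernel K → IsPertSolution T₁ (op ε K) u p →
    IsPertSolution T₂ (op ε K) v q → (∀ x, u 0 x = v 0 x) →
    ∀ t ∈ Ico 0 (min T₁ T₂), ∀ x, u t x = v t x

/-- D2: conservation of energy. -/
def claimD2 : Prop := ∀ (T ε : ℝ) (K : E3 → E3 → E3 →L[ℝ] E3) (u : ℝ → E3 → E3)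
    (p : ℝ → E3 → ℝ), GoodKernel K → IsPertSolution T (op ε K) u p →
    ∀ t ∈ Ico 0 T, ∫ x in cube, ‖u t x‖ ^ 2 = ∫ x in cube, ‖u 0 x‖ ^ 2

/-- D3: scaling. -/
def claimD3 : Prop := ∀ (T : ℝ) (K : E3 → E3 → E3 →L[ℝ] E3) (u : ℝ → E3 → E3)
    (p : ℝ → E3 → ℝ) (ε : ℝ), 0 < ε → 0 < T →
    ContDiffOn ℝ ∞ (fun z : ℝ × E3 => u z.1 z.2) (Ico 0 T ×ˢ univ) →
    ContDiffOn ℝ ∞ (fun z : ℝ × E3 => p z.1 z.2) (Ico 0 T ×ˢ univ) →
    IsPertSolution T (op 1 K) u p → Tendsto (fun t => ‖curl (u t) 0‖) (𝓝[<] T) atTop →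
    ContDiffOn ℝ ∞ (fun z : ℝ × E3 => ε • u (ε * z.1) z.2) (Ico 0 (T / ε) ×ˢ univ) ∧
    ContDiffOn ℝ ∞ (fun z : ℝ × E3 => ε ^ 2 * p (ε * z.1) z.2) (Ico 0 (T / ε) ×ˢ univ) ∧
    IsPertSolution (T / ε) (op ε K) (fun t x => ε • u (ε * t) x)
      (fun t x => ε ^ 2 * p (ε * t) x) ∧
    Tendsto (fun t => ‖curl (fun x => ε • u (ε * t) x) 0‖) (𝓝[<] (T / ε)) atTop

/-- D4: no classical solution survives the blow-up time. -/
def claimD4 : Prop := ∀ (T ε : ℝ) (K : E3 → E3 → E3 →L[ℝ] E3) (u : ℝ → E3 → E3)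
    (p : ℝ → E3 → ℝ), 0 < T → GoodKernel K → claimD1 → IsPertSolution T (op ε K) u p →
    Tendsto (fun t => ‖curl (u t) 0‖) (𝓝[<] T) atTop →
    ∀ (T' : ℝ) (v : ℝ → E3 → E3) (q : ℝ → E3 → ℝ), IsPertSolution T' (op ε K) v q →
      (∀ x, v 0 x = u 0 x) → T' ≤ T ∧ ∀ t ∈ Ico 0 T', ∀ x, v t x = u t x

/-- D5: adding two flows with disjoint supports. -/
def claimD5 : Prop := ∀ (T : ℝ) (f u V : ℝ → E3 → E3) (p : ℝ → E3 → ℝ) (A : (E3 → E3) → E3 → E3),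
    TorusAvg T f u p → ContDiff ℝ ∞ (fun z : ℝ × E3 => V z.1 z.2) → (∀ t, Periodic3 (V t)) →
    (∀ t x, LinearMap.trace ℝ E3 (fderiv ℝ (V t) x) = 0) →
    (∀ t, ∀ x : E3, - (1 / 2) ≤ Real.cos (x 0) → V t x = 0) →
    (∀ t ∈ Ico 0 T, ∀ x, A (fun y => u t y + V t y) x =
      f t x + (deriv (fun s => V s x) t + fderiv ℝ (V t) x (V t x))) →
    ContDiffOn ℝ ∞ (fun z : ℝ × E3 => u z.1 z.2 + V z.1 z.2) (Ico 0 T ×ˢ univ) ∧
    ContDiffOn ℝ ∞ (fun z : ℝ × E3 => p z.1 z.2) (Ico 0 T ×ˢ univ) ∧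
    IsPertSolution T A (fun t x => u t x + V t x) p ∧
    Tendsto (fun t => ‖curl (fun x => u t x + V t x) 0‖) (𝓝[<] T) atTop

end Pool.Agent.Work.MP_b0497c_an.Forced.S
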