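import Pool.Agent.Work.MP_b0497c_an.Forced.S.StmtsI
import Pool.Agent.Work.MP_b0497c_an.Forced.S.D8b
import Pool.Agent.Work.MP_b0497c_an.Forced.W.Fin

set_option autoImplicit false

/-!
# The WKB module with averages
-/

open scoped ContDiff Matrix
open Set MeasureTheory

namespace Pool.Agent.Work.MP_b0497c_an.Forced.S

open Pool.Agent.Work.MP_b0497c_an.Forced.W (Lev Sm Sym Pb Qp Phi Mod vel prs frc)

namespace WKB2

variable {ι : Type}

/-- The averages with the end cut-off. -/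
noncomputable def H (S : Lev ι) (ze : ι → ℝ → ℝ) (V : Fin 3 → Sm ι) (i : ι) (phi : V3 → ℝ)
    (a : Fin 3) (t : ℝ) : ℝ :=
  ∑ b, ((1 - ze i t) * (S.rho i * S.F i t a b)) * ∫ x, phi x * (V b).1 i (Phi S i (t, x))

theorem cpt (S : Lev ι) (i : ι) (t : ℝ) (f : V3 → ℝ)
    (hf : ∀ x, S.rho i ≤ ‖S.Fi i t *ᵥ x‖ → f x = 0) : HasCompactSupport f := by
  have hcomp : IsCompact ((fun y : V3 => S.F i t *ᵥ y) '' Metric.closedBall (0 : V3) (S.rho i)) :=
    (isCompact_closedBall _ _).image (Continuous.matrix_mulVec continuous_const continuous_id)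
  refine HasCompactSupport.intro hcomp fun x hx => hf x ?_
  by_contra hcon
  apply hx
  refine ⟨S.Fi i t *ᵥ x, ?_, ?_⟩
  · rw [Metric.mem_closedBall, dist_zero_right]
    exact (not_le.1 hcon).le
  · show S.F i t *ᵥ (S.Fi i t *ᵥ x) = x
    rw [Matrix.mulVec_mulVec, S.F_Fi, Matrix.one_mulVec]

theorem leibniz {c g : ℝ → ℝ} (hc : ContDiff ℝ ∞ c) (hg : ContDiff ℝ ∞ g) (j : ℕ) (t A B : ℝ)
    (hA : 0 ≤ A) (h1 : ∀ i ≤ j, |iteratedDeriv i c t| ≤ A)
    (h2 : ∀ i ≤ j, |iteratedDeriv i g t| ≤ B) :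
    |iteratedDeriv j (fun t => c t * g t) t| ≤ 2 ^ j * (A * B) := by
  have h := norm_iteratedFDeriv_mul_le (𝕜 := ℝ) (N := ∞) hc hg t (n := j)
    (by exact_mod_cast le_top)
  rw [norm_iteratedFDeriv_eq_norm_iteratedDeriv, Real.norm_eq_abs] at h
  refine h.trans ?_
  calc ∑ i ∈ Finset.range (j + 1), (j.choose i : ℝ) * ‖iteratedFDeriv ℝ i c t‖ *
        ‖iteratedFDeriv ℝ (j - i) g t‖
      ≤ ∑ i ∈ Finset.range (j + 1), (j.choose i : ℝ) * (A * B) := by
        refine Finset.sum_le_sum fun i hi => ?_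
        have hi' : i ≤ j := Nat.lt_succ_iff.1 (Finset.mem_range.1 hi)
        rw [norm_iteratedFDeriv_eq_norm_iteratedDeriv, norm_iteratedFDeriv_eq_norm_iteratedDeriv,
          Real.norm_eq_abs, Real.norm_eq_abs, mul_assoc]
        exact mul_le_mul_of_nonneg_left (mul_le_mul (h1 i hi') (h2 _ (Nat.sub_le _ _))
          (abs_nonneg _) hA) (Nat.cast_nonneg _)
    _ = 2 ^ j * (A * B) := by
        rw [← Finset.sum_mul]
        congr 1
        exact_mod_cast Nat.sum_range_choose j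

/-- A uniform exponent for finitely many orders. -/
theorem unif {P : ℕ → ℕ → Prop} (hP : ∀ l n m, n ≤ m → P l n → P l m)
    (h : ∀ l, ∃ n, P l n) (j : ℕ) : ∃ n, ∀ l ≤ j, P l n := by
  choose n hn using h
  refine ⟨∑ l ∈ Finset.range (j + 1), n l, fun l hl => hP l (n l) _ ?_ (hn l)⟩
  exact Finset.single_le_sum (f := n) (fun _ _ => Nat.zero_le _)
    (Finset.mem_range.2 (Nat.lt_succ_of_le hl))

theorem avg (hA1 : W.claimA1) (hA2 : W.claimA2) (hA3 : W.claimA3) (hI2 : claimI2) (S : Lev ι)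
    (hR3 : W.claimR3)
    (ze : ι → ℝ → ℝ) (hze : Mod S.Lam S.I (fun _ _ => 1) ze)
    (hze0 : ∀ i t, t ≤ S.e i → ze i t = 0) (hze1 : ∀ i t, S.e i + S.del i ≤ t → ze i t = 1)
    (V : Fin 3 → Sm ι) (mu : ι → ℝ) (hmu : ∀ i, 0 ≤ mu i)
    (hV : ∀ b, V b ∈ Sym S.Lam S.I (fun i _ => mu i) Pb Qp)
    (hV0 : ∀ i t x, t ≤ S.s i → ∀ b, (V b).1 i (Phi S i (t, x)) = 0) :
    (∀ i (phi : V3 → ℝ), ContDiff ℝ ∞ phi → ∀ a, ContDiff ℝ ∞ (H S ze V i phi a) ∧
        (∀ t ≤ S.e i, H S ze V i phi a t = ∫ x, phi x * vel S V i t x a) ∧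
        (∀ t, t ≤ S.s i → H S ze V i phi a t = 0) ∧
        (∀ t, S.e i + S.del i ≤ t → H S ze V i phi a t = 0)) ∧
      ∀ j : ℕ, ∃ n : ℕ, ∀ i (phi : V3 → ℝ), ContDiff ℝ ∞ phi → ∀ D : ℝ, TB phi j D →
        ∀ a t, |iteratedDeriv j (H S ze V i phi a) t| ≤ S.Lam i ^ n * mu i * D := by
  have hI := fun b => hI2 ι S mu (V b) hmu (hV b)
  have hcsm : ∀ i a b, ContDiff ℝ ∞ (fun t => (1 - ze i t) * (S.rho i * S.F i t a b)) :=
    fun i a b => (contDiff_const.sub (hze.1 i)).mul (contDiff_const.mul ((S.mod_F a b).1 i))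
  have hzero : ∀ i (phi : V3 → ℝ) a t, t ≤ S.s i → H S ze V i phi a t = 0 := by
    intro i phi a t ht
    simp only [H]
    refine Finset.sum_eq_zero fun b _ => ?_
    have : ∀ x, phi x * (V b).1 i (Phi S i (t, x)) = 0 := fun x => by
      rw [hV0 i t x ht b, mul_zero]
    simp only [this]
    simp
  have hend : ∀ i (phi : V3 → ℝ) a t, S.e i + S.del i ≤ t → H S ze V i phi a t = 0 := by
    intro i phi a t ht
    simp only [H, hze1 i t ht]
    simp
  refine ⟨fun i phi hphi a => ⟨?_, ?_, hzero i phi a, hend i phi a⟩, ?_⟩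
  · unfold H
    exact ContDiff.sum fun b _ => (hcsm i a b).mul ((hI b).1 i phi hphi)
  · intro t ht
    have hint : ∀ b, Integrable (fun x => phi x * (V b).1 i (Phi S i (t, x))) := by
      intro b
      have hsup := (hR3 ι S _ _ (V b) (hV b)).2.1 i t
      have hcont : Continuous (fun x => (V b).1 i (Phi S i (t, x))) :=
        ((hR3 ι S _ _ (V b) (hV b)).1 i).continuous.comp
          (continuous_const.prodMk continuous_id)
      refine (hphi.continuous.mul hcont).integrable_of_hasCompactSupport ?_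
      refine cpt S i t _ fun x hx => ?_
      show phi x * (V b).1 i (Phi S i (t, x)) = 0
      rw [hsup x hx, mul_zero]
    have h1 : ∀ x, phi x * vel S V i t x a =
        ∑ b, (S.rho i * S.F i t a b) * (phi x * (V b).1 i (Phi S i (t, x))) := by
      intro x
      simp only [vel]
      rw [Finset.mul_sum, Finset.mul_sum]
      refine Finset.sum_congr rfl fun b _ => ?_
      ring
    simp only [h1]
    rw [integral_finsetSum _ (fun b _ => (hint b).const_mul _)]
    simp only [H]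
    refine Finset.sum_congr rfl fun b _ => ?_
    rw [integral_const_mul, hze0 i t ht]
    ring
  · intro j
    -- coefficients
    have hone : Mod S.Lam S.I (fun _ _ => (1 : ℝ)) (fun _ _ => (1 : ℝ)) :=
      hA3 ι S.Lam S.I (fun _ _ => 1) (fun _ => 1) S.two_le_Lam ⟨0, fun i t _ => by simp⟩
    have hz1 : Mod S.Lam S.I (fun _ _ => (1 : ℝ)) (fun i t => 1 + (-1) * ze i t) :=
      (hA2 ι S.Lam S.I _ _ S.two_le_Lam hone).1 _
        ((hA2 ι S.Lam S.I _ _ S.two_le_Lam hze).2.1 (-1))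
    have hrho : Mod S.Lam S.I (fun _ _ => (1 : ℝ)) (fun i _ => S.rho i) :=
      hA3 ι S.Lam S.I (fun _ _ => 1) S.rho S.two_le_Lam ⟨0, fun i t _ => by
        rw [abs_of_pos (S.rho_pos i)]; simpa using S.rho_le i⟩
    have hcm : ∀ a b, Mod S.Lam S.I (fun _ _ => (1 : ℝ))
        (fun i t => (1 - ze i t) * (S.rho i * S.F i t a b)) := by
      intro a b
      have h1 := hA1 ι S.Lam S.I _ _ _ _ S.two_le_Lam hrho (S.mod_F a b)
      have h2 := hA1 ι S.Lam S.I _ _ _ _ S.two_le_Lam hz1 h1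
      have h3 : (fun (i : ι) (t : ℝ) => (1 - ze i t) * (S.rho i * S.F i t a b)) =
          fun i t => (1 + (-1) * ze i t) * (S.rho i * S.F i t a b) := by
        funext i t
        ring
      rw [h3]
      simpa using h2
    have hL1 : ∀ i, 1 ≤ S.Lam i := fun i => le_trans one_le_two (S.two_le_Lam i)
    have hL0 : ∀ i, 0 ≤ S.Lam i := fun i => le_trans zero_le_one (hL1 i)
    have hc : ∀ a b, ∃ n : ℕ, ∀ l ≤ j, ∀ i, ∀ t ∈ S.I i,
        |iteratedDeriv l (fun t => (1 - ze i t) * (S.rho i * S.F i t a b)) t| ≤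
          S.Lam i ^ n := by
      intro a b
      refine unif (P := fun l n => ∀ i, ∀ t ∈ S.I i,
        |iteratedDeriv l (fun t => (1 - ze i t) * (S.rho i * S.F i t a b)) t| ≤
          S.Lam i ^ n) (fun l n m hnm h i t ht =>
          (h i t ht).trans (pow_le_pow_right₀ (hL1 i) hnm)) (fun l => ?_) j
      obtain ⟨n, hn⟩ := (hcm a b).2 l
      exact ⟨n, fun i t ht => by simpa using hn i t ht⟩
    have hg : ∀ b, ∃ n : ℕ, ∀ l ≤ j, ∀ i (phi : V3 → ℝ), ContDiff ℝ ∞ phi → ∀ D : ℝ, TB phi j D →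
        ∀ t ∈ S.I i, |iteratedDeriv l (fun t => ∫ x, phi x * (V b).1 i (Phi S i (t, x))) t| ≤
          S.Lam i ^ n * mu i * D := by
      intro b
      have hall : ∀ l, ∃ n : ℕ, l ≤ j → ∀ i (phi : V3 → ℝ), ContDiff ℝ ∞ phi → ∀ D : ℝ,
          TB phi j D → ∀ t ∈ S.I i,
          |iteratedDeriv l (fun t => ∫ x, phi x * (V b).1 i (Phi S i (t, x))) t| ≤
            S.Lam i ^ n * mu i * D := by
        intro l
        obtain ⟨n, hn⟩ := (hI b).2 l
        exact ⟨n, fun hl i phi hphi D hD t ht =>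
          hn i phi hphi D (fun m' hm' x hx => hD m' (hm'.trans hl) x hx) t ht⟩
      obtain ⟨n, hn⟩ := unif (P := fun l n => l ≤ j → ∀ i (phi : V3 → ℝ), ContDiff ℝ ∞ phi →
          ∀ D : ℝ, TB phi j D → ∀ t ∈ S.I i,
          |iteratedDeriv l (fun t => ∫ x, phi x * (V b).1 i (Phi S i (t, x))) t| ≤
            S.Lam i ^ n * mu i * D) (fun l n m hnm h hl i phi hphi D hD t ht => by
          refine (h hl i phi hphi D hD t ht).trans ?_
          have hD0 : 0 ≤ D := le_trans (norm_nonneg _) (hD 0 (Nat.zero_le _) 0 (by simp))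
          exact mul_le_mul_of_nonneg_right (mul_le_mul_of_nonneg_right
            (pow_le_pow_right₀ (hL1 i) hnm) (hmu i)) hD0) hall j
      exact ⟨n, fun l hl => hn l hl hl⟩
    choose n1 hn1 using hc
    choose n2 hn2 using hg
    set N1 : ℕ := ∑ a, ∑ b, n1 a b with hN1
    set N2 : ℕ := ∑ b, n2 b with hN2
    have hN1le : ∀ a b, n1 a b ≤ N1 := fun a b =>
      (Finset.single_le_sum (f := fun b => n1 a b) (fun _ _ => Nat.zero_le _)
        (Finset.mem_univ b)).trans
        (Finset.single_le_sum (f := fun a => ∑ b, n1 a b) (fun _ _ => Nat.zero_le _)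
          (Finset.mem_univ a))
    have hN2le : ∀ b, n2 b ≤ N2 := fun b =>
      Finset.single_le_sum (f := n2) (fun _ _ => Nat.zero_le _) (Finset.mem_univ b)
    refine ⟨j + 2 + N1 + N2, fun i phi hphi D hD a t => ?_⟩
    have hD0 : 0 ≤ D := le_trans (norm_nonneg _) (hD 0 (Nat.zero_le _) 0 (by simp))
    have hrhs : 0 ≤ S.Lam i ^ (j + 2 + N1 + N2) * mu i * D :=
      mul_nonneg (mul_nonneg (pow_nonneg (hL0 i) _) (hmu i)) hD0
    by_cases ht : t ∈ S.I i
    · have hsm : ∀ b, ContDiff ℝ ∞ (fun t => ((1 - ze i t) * (S.rho i * S.F i t a b)) *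
          ∫ x, phi x * (V b).1 i (Phi S i (t, x))) := fun b => (hcsm i a b).mul
        ((hI b).1 i phi hphi)
      have hsum : iteratedDeriv j (H S ze V i phi a) t =
          ∑ b, iteratedDeriv j (fun t => ((1 - ze i t) * (S.rho i * S.F i t a b)) *
            ∫ x, phi x * (V b).1 i (Phi S i (t, x))) t := by
        have h0 : H S ze V i phi a = fun t => ∑ b, ((1 - ze i t) * (S.rho i * S.F i t a b)) *
            ∫ x, phi x * (V b).1 i (Phi S i (t, x)) := rfl
        rw [h0]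
        exact iteratedDeriv_fun_sum fun b _ =>
          ((hsm b).of_le (by exact_mod_cast le_top)).contDiffAt
      rw [hsum]
      refine (Finset.abs_sum_le_sum_abs _ _).trans ?_
      have hterm : ∀ b, |iteratedDeriv j (fun t => ((1 - ze i t) * (S.rho i * S.F i t a b)) *
            ∫ x, phi x * (V b).1 i (Phi S i (t, x))) t| ≤
          2 ^ j * (S.Lam i ^ N1 * (S.Lam i ^ N2 * mu i * D)) := by
        intro b
        refine leibniz (hcsm i a b) ((hI b).1 i phi hphi) j t _ _ (pow_nonneg (hL0 i) _) ?_ ?_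
        · intro l hl
          exact (hn1 a b l hl i t ht).trans (pow_le_pow_right₀ (hL1 i) (hN1le a b))
        · intro l hl
          refine (hn2 b l hl i phi hphi D hD t ht).trans ?_
          exact mul_le_mul_of_nonneg_right (mul_le_mul_of_nonneg_right
            (pow_le_pow_right₀ (hL1 i) (hN2le b)) (hmu i)) hD0
      refine (Finset.sum_le_sum fun b _ => hterm b).trans ?_
      rw [Finset.sum_const, Finset.card_univ, Fintype.card_fin, nsmul_eq_mul]
      have h2L : (2 : ℝ) ^ j ≤ S.Lam i ^ j := pow_le_pow_left₀ (by norm_num) (S.two_le_Lam i) j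
      have h4L : (3 : ℝ) ≤ S.Lam i ^ 2 := by nlinarith [S.two_le_Lam i]
      have hX : 0 ≤ S.Lam i ^ N1 * (S.Lam i ^ N2 * mu i * D) :=
        mul_nonneg (pow_nonneg (hL0 i) _) (mul_nonneg (mul_nonneg (pow_nonneg (hL0 i) _)
          (hmu i)) hD0)
      calc ((3 : ℕ) : ℝ) * (2 ^ j * (S.Lam i ^ N1 * (S.Lam i ^ N2 * mu i * D)))
          ≤ S.Lam i ^ 2 * (S.Lam i ^ j * (S.Lam i ^ N1 * (S.Lam i ^ N2 * mu i * D))) := by
            refine mul_le_mul (by exact_mod_cast h4L) (mul_le_mul_of_nonneg_right h2L hX)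
              (by positivity) (by positivity)
        _ = S.Lam i ^ (j + 2 + N1 + N2) * mu i * D := by ring
    · have hev : H S ze V i phi a =ᶠ[nhds t] fun _ => 0 := by
        rcases lt_or_ge t (S.s i) with h1 | h1
        · filter_upwards [gt_mem_nhds h1] with w hw
          exact hzero i phi a w (le_of_lt hw)
        rcases lt_or_ge (S.e i + S.del i) t with h2 | h2
        · filter_upwards [lt_mem_nhds h2] with w hw
          exact hend i phi a w (le_of_lt hw)
        exact absurd ⟨h1, h2⟩ ht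
      have h0 : iteratedDeriv j (H S ze V i phi a) t = iteratedDeriv j (fun _ : ℝ => (0 : ℝ)) t :=
        hev.iteratedDeriv_eq j
      rw [h0]
      have : iteratedDeriv j (fun _ : ℝ => (0 : ℝ)) t = 0 := by
        simp
      rw [this, abs_zero]
      exact hrhs

end WKB2

theorem wkb2 (hA1 : W.claimA1) (hA2 : W.claimA2) (hA3 : W.claimA3) (hI1 : W.claimI1)
    (hI4 : W.claimI4) (hI6 : W.claimI6) (hJ1 : W.claimJ1) (hJ2 : W.claimJ2) (hD7 : W.claimD7)
    (hD8 : W.claimD8b) (hT6 : W.claimT6) (hR2 : W.claimR2) (hR3 : W.claimR3) (hR4 : W.claimR4)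
    (hI2 : claimI2) : claimWKB2 := by
  obtain ⟨⟨chi, hchi, hchi1⟩, h, hh, hh1⟩ := hJ1
  intro ι S J
  obtain ⟨T, hT⟩ := hT6 ι S
  obtain ⟨eta, heta, heta01, heta0, heta1, hetad, hetaq⟩ := hJ2 ι S.Lam S.I S.s S.del S.two_le_Lam
    S.del_pos S.del_inv
  obtain ⟨ze, hze, hze01, hze0, hze1, -, -⟩ := hJ2 ι S.Lam S.I S.e S.del S.two_le_Lam
    S.del_pos S.del_inv
  obtain ⟨V, q, s, m, o, hV, hq, hs, hks, hdiv, hm, ho, hE, hnear⟩ :=
    hD7 ι T chi h hchi hchi1 hh J
  obtain ⟨V', q', m', o', hVs', hV', hq', hdiv', hm', ho', hE', hzero', hnear'⟩ :=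
    hD8 ι T J h S.b (fun i => S.s i + S.del i) eta V q s m o hV hq hs hks hdiv hm ho hE hnear
      S.b_nonneg
      (by
        rw [hT.I, hT.p]
        intro i t ht hts
        exact S.p_small i t ⟨ht.1, hts⟩)
      (by rw [hT.Lam, hT.I]; exact heta)
      (by rw [hT.Lam, hT.I]; exact hetad)
      (by rw [hT.Lam, hT.I]; exact hetaq)
  rw [hT.Lam, hT.I] at hVs' hV' hq' hm' ho'
  rw [hT.a, hT.N] at hVs' hm' ho'
  have hNf : ∀ i, 1 ≤ S.Nf i * S.rho i := fun i =>
    le_trans (by linarith [S.a_nonneg i]) (S.a_le i)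
  have hNpos : ∀ i, 0 < S.Nf i * S.rho i := fun i => lt_of_lt_of_le one_pos (hNf i)
  have hmu1 : ∀ i, 0 ≤ (1 + S.a i) ^ 2 * ((S.Nf i * S.rho i) ^ 2)⁻¹ := fun i => by
    positivity
  have heps : ∀ i, 0 ≤ ((1 + S.a i) / (S.Nf i * S.rho i)) ^ J := fun i => by
    have := S.a_nonneg i
    have := hNpos i
    positivity
  have hmu2 : ∀ i, 0 ≤ S.b i + ((1 + S.a i) / (S.Nf i * S.rho i)) ^ J := fun i =>
    add_nonneg (S.b_nonneg i) (heps i)
  -- vanishing of the physical fields
  have hRm := fun a => hR3 ι S _ _ (m' a) (hm' a)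
  have hRo := fun a => hR3 ι S _ _ (o' a) (ho' a)
  have hRV := fun a => hR3 ι S _ _ (V' a) (hV' a)
  have hRq := hR3 ι S _ _ q' hq'
  have hEmo : ∀ a, T.E V' q' a = m' a + o' a := hE'
  have hEfun : (T.E V' q') = fun a => m' a + o' a := funext hEmo
  have hWcd := W.Fin'.contDiff_vel hR3 S _ _ V' hV'
  have hqcd : ∀ i, ContDiff ℝ ∞ (fun z : ℝ × V3 => prs S q' i z.1 z.2) := fun i => by
    simp only [prs]
    exact contDiff_const.mul (hRq.1 i)
  have hWzero : ∀ i t x, t ≤ S.s i → vel S V' i t x = 0 := by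
    intro i t x ht
    funext j
    simp only [vel]
    have : ∀ b, (V' b).1 i (Phi S i (t, x)) = 0 := fun b =>
      (hzero' i t (Phi S i (t, x)) (heta0 i t ht) rfl).1 b
    simp [this]
  have hqzero : ∀ i t x, t ≤ S.s i → prs S q' i t x = 0 := by
    intro i t x ht
    simp only [prs]
    rw [(hzero' i t (Phi S i (t, x)) (heta0 i t ht) rfl).2, mul_zero]
  have hfzero : ∀ i t x, t ≤ S.s i → frc S (fun a => m' a + o' a) i t x = 0 := by
    intro i t x ht
    funext j
    rw [← hEfun, ← (hR2 ι S T hT V' q' i t x).1 j]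
    have h1 : vel S V' i t = fun _ => 0 := funext fun y => hWzero i t y ht
    have h2 : prs S q' i t = fun _ => 0 := funext fun y => hqzero i t y ht
    have h3 : deriv (fun τ => vel S V' i τ x j) t = 0 := by
      have hd : DifferentiableAt ℝ (fun τ => vel S V' i τ x j) t := by
        have h4 : ContDiff ℝ ∞ (fun τ : ℝ => vel S V' i τ x) :=
          (hWcd i).comp (contDiff_id.prodMk contDiff_const)
        exact ((contDiff_pi.1 h4 j).differentiable (by simp)) t
      have h5 : HasDerivWithinAt (fun τ => vel S V' i τ x j)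
          (deriv (fun τ => vel S V' i τ x j) t) (Iic t) t := hd.hasDerivAt.hasDerivWithinAt
      have h6 : HasDerivWithinAt (fun τ => vel S V' i τ x j) 0 (Iic t) t := by
        refine (hasDerivWithinAt_const t (Iic t) (0 : ℝ)).congr ?_ ?_
        · intro τ hτ
          rw [hWzero i τ x (le_trans hτ ht)]
          rfl
        · rw [hWzero i t x ht]
          rfl
      exact (uniqueDiffWithinAt_Iic t).eq_deriv (Iic t) h5 h6
    rw [h3, h1, h2]
    simp
  refine ⟨fun i t x => vel S V' i t x, fun i t x => prs S q' i t x,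
    fun i t x => W.Fin'.G S ze (fun a => m' a + o' a) i (t, x), ⟨hWcd, hqcd, ?_, ?_, ?_, ?_, ?_,
    ?_, ?_, ?_⟩, WKB2.H S ze V', ?_⟩
  · -- smoothness of g
    intro i
    rw [contDiff_pi]
    intro j
    have h1 := W.Fin'.contDiff_frc hR3 S _ _ m' hm' i j
    have h2 := W.Fin'.contDiff_frc hR3 S _ _ o' ho' i j
    simp only [W.Fin'.G, W.Fin'.frc_add]
    exact (contDiff_const.sub ((hze.1 i).comp contDiff_fst)).mul (h1.add h2)
  · intro i t x ht
    refine ⟨hWzero i t x ht, hqzero i t x ht, ?_⟩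
    funext j
    simp only [W.Fin'.G]
    rw [hfzero i t x ht]
    simp
  · intro i t ht x hx
    have hr := (hRq.2.2.1 i t ht x hx).le
    refine ⟨?_, ?_, ?_⟩
    · funext j
      simp only [vel]
      have : ∀ b, (V' b).1 i (Phi S i (t, x)) = 0 := fun b => (hRV b).2.1 i t x hr
      simp [this]
    · simp only [prs]
      rw [hRq.2.1 i t x hr, mul_zero]
    · funext j
      simp only [W.Fin'.G, W.Fin'.frc_add]
      simp only [frc]
      have h1 : ∀ b, (m' b).1 i (Phi S i (t, x)) = 0 := fun b => (hRm b).2.1 i t x hr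
      have h2 : ∀ b, (o' b).1 i (Phi S i (t, x)) = 0 := fun b => (hRo b).2.1 i t x hr
      simp [h1, h2]
  · intro i t x ht
    funext j
    simp only [W.Fin'.G]
    rw [hze1 i t ht]
    simp
  · intro i t x
    rw [(hR2 ι S T hT V' q' i t x).2, hdiv']
    rfl
  · intro i t ht x j
    rw [(hR2 ι S T hT V' q' i t x).1 j, hEfun]
    simp only [W.Fin'.G]
    rw [hze0 i t ht]
    ring
  · intro i
    refine ⟨eta i, heta01 i, heta1 i, ?_⟩
    intro t x hx hK
    funext j
    have hρ := S.rho_pos i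
    have hy : ‖(S.rho i)⁻¹ • (S.Fi i t *ᵥ x)‖ < 1 / 2 := by
      rw [norm_smul, Real.norm_eq_abs, abs_of_pos (inv_pos.2 hρ)]
      rw [inv_mul_lt_iff₀ hρ]
      linarith
    have hth : h (S.Nf i * (S.K i t ⬝ᵥ x)) = S.Nf i * (S.K i t ⬝ᵥ x) := by
      apply hh1
      rw [abs_mul]
      have hNfpos : 0 < S.Nf i := by
        have := hNpos i
        exact (pos_iff_pos_of_mul_pos this).2 hρ
      rw [abs_of_pos hNfpos]
      exact hK
    have hVb : ∀ b, (V' b).1 i (Phi S i (t, x)) =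
        eta i t * ((T.N i)⁻¹ * T.v b i t * (S.Nf i * (S.K i t ⬝ᵥ x))) := by
      intro b
      rw [hnear' b i (Phi S i (t, x)) hy]
      simp only [Phi]
      rw [hth]
    simp only [vel]
    have hFv : ∑ b, S.F i t j b * T.v b i t = S.w i t j := by
      have h1 : (S.F i t *ᵥ (fun j => T.v j i t)) j = S.w i t j := by
        rw [hT.v, Matrix.mulVec_mulVec, S.F_Fi, Matrix.one_mulVec]
      rw [← h1]
      simp [Matrix.mulVec, dotProduct]
    have hN : T.N i = S.Nf i * S.rho i := by rw [hT.N]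
    have hstep : S.rho i * ∑ b, S.F i t j b * (V' b).1 i (Phi S i (t, x)) =
        S.rho i * (T.N i)⁻¹ * S.Nf i * eta i t * (S.K i t ⬝ᵥ x) *
          ∑ b, S.F i t j b * T.v b i t := by
      rw [Finset.mul_sum, Finset.mul_sum]
      refine Finset.sum_congr rfl fun b _ => ?_
      rw [hVb b]
      ring
    rw [hstep, hFv, hN]
    have hNfne : S.Nf i ≠ 0 := by
      intro h0
      have := hNpos i
      rw [h0, zero_mul] at this
      exact lt_irrefl _ this
    have : S.rho i * (S.Nf i * S.rho i)⁻¹ * S.Nf i = 1 := by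
      have := hρ.ne'
      field_simp
    rw [this]
    simp only [Pi.smul_apply, smul_eq_mul]
    ring
  · -- bounds
    have hB1 := W.Fin'.bd_G hA1 hA2 hA3 hI1 hI4 hI6 S ze hze m' (fun _ => 1) _
      (fun _ => le_refl _) hmu1 (fun a => (hR4 ι S _ (m' a) hmu1).1 (hm' a))
    have hB2 := W.Fin'.bd_G hA1 hA2 hA3 hI1 hI4 hI6 S ze hze o' (fun i => S.Nf i * S.rho i) _
      hNf hmu2 (fun a => (hR4 ι S _ (o' a) hmu2).2 (ho' a))
    have hGadd : ∀ i z, W.Fin'.G S ze (fun a => m' a + o' a) i z =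
        W.Fin'.G S ze m' i z + W.Fin'.G S ze o' i z := by
      intro i z
      funext j
      simp only [W.Fin'.G, W.Fin'.frc_add, Pi.add_apply]
      ring
    intro M
    obtain ⟨n1, hn1⟩ := hB1.2 M
    obtain ⟨n2, hn2⟩ := hB2.2 M
    refine ⟨max n1 n2, fun i z => ?_⟩
    have hLam1 : 1 ≤ S.Lam i := le_trans one_le_two (S.two_le_Lam i)
    have hLam0 : 0 ≤ S.Lam i := le_trans zero_le_one hLam1
    have hNM : 0 ≤ (S.Nf i * S.rho i) ^ M := pow_nonneg (hNpos i).le M
    have hrhs : 0 ≤ S.Lam i ^ max n1 n2 * ((1 + S.a i) ^ 2 * ((S.Nf i * S.rho i) ^ 2)⁻¹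
          + (S.Nf i * S.rho i) ^ M * (S.b i + ((1 + S.a i) / (S.Nf i * S.rho i)) ^ J)) :=
      mul_nonneg (pow_nonneg hLam0 _) (add_nonneg (hmu1 i) (mul_nonneg hNM (hmu2 i)))
    have hfun : (fun z : ℝ × V3 => W.Fin'.G S ze (fun a => m' a + o' a) i (z.1, z.2)) =
        fun z => W.Fin'.G S ze m' i z + W.Fin'.G S ze o' i z := by
      funext z
      exact hGadd i z
    by_cases hz : z ∈ S.I i ×ˢ Metric.closedBall (0 : V3) 1
    · rw [hfun]
      have hcd1 : ContDiffAt ℝ M (W.Fin'.G S ze m' i) z :=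
        ((hB1.1 i).of_le (by exact_mod_cast le_top)).contDiffAt
      have hcd2 : ContDiffAt ℝ M (W.Fin'.G S ze o' i) z :=
        ((hB2.1 i).of_le (by exact_mod_cast le_top)).contDiffAt
      have hadd : iteratedFDeriv ℝ M (fun z => W.Fin'.G S ze m' i z + W.Fin'.G S ze o' i z) z =
          iteratedFDeriv ℝ M (W.Fin'.G S ze m' i) z + iteratedFDeriv ℝ M (W.Fin'.G S ze o' i) z :=
        iteratedFDeriv_add_apply hcd1 hcd2
      rw [hadd]
      have e1 := hn1 i z hz
      have e2 := hn2 i z hz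
      have p1 : S.Lam i ^ n1 ≤ S.Lam i ^ max n1 n2 := pow_le_pow_right₀ hLam1 (le_max_left _ _)
      have p2 : S.Lam i ^ n2 ≤ S.Lam i ^ max n1 n2 := pow_le_pow_right₀ hLam1 (le_max_right _ _)
      calc _ ≤ _ := norm_add_le _ _
        _ ≤ S.Lam i ^ n1 * 1 ^ M * ((1 + S.a i) ^ 2 * ((S.Nf i * S.rho i) ^ 2)⁻¹) +
            S.Lam i ^ n2 * (S.Nf i * S.rho i) ^ M *
              (S.b i + ((1 + S.a i) / (S.Nf i * S.rho i)) ^ J) := add_le_add e1 e2
        _ ≤ S.Lam i ^ max n1 n2 * ((1 + S.a i) ^ 2 * ((S.Nf i * S.rho i) ^ 2)⁻¹) +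
            S.Lam i ^ max n1 n2 * ((S.Nf i * S.rho i) ^ M *
              (S.b i + ((1 + S.a i) / (S.Nf i * S.rho i)) ^ J)) := by
            rw [one_pow, mul_one, mul_assoc]
            exact add_le_add (mul_le_mul_of_nonneg_right p1 (hmu1 i))
              (mul_le_mul_of_nonneg_right p2 (mul_nonneg hNM (hmu2 i)))
        _ = _ := by ring
    · -- outside the window everything vanishes near z
      have hev : (fun z : ℝ × V3 => W.Fin'.G S ze (fun a => m' a + o' a) i (z.1, z.2)) =ᶠ[nhds z]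
          fun _ => 0 := by
        rcases lt_or_ge z.1 (S.s i) with h1 | h1
        · have : ∀ᶠ w : ℝ × V3 in nhds z, w.1 < S.s i :=
            (continuous_fst.tendsto z).eventually (gt_mem_nhds h1)
          filter_upwards [this] with w hw
          funext j
          simp only [W.Fin'.G]
          rw [hfzero i w.1 w.2 hw.le]
          simp
        rcases lt_or_ge (S.e i + S.del i) z.1 with h2 | h2
        · have : ∀ᶠ w : ℝ × V3 in nhds z, S.e i + S.del i < w.1 :=
            (continuous_fst.tendsto z).eventually (lt_mem_nhds h2)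
          filter_upwards [this] with w hw
          funext j
          simp only [W.Fin'.G]
          rw [hze1 i w.1 hw.le]
          simp
        have hI : z.1 ∈ S.I i := ⟨h1, h2⟩
        have hx : S.R i < ‖z.2‖ := by
          by_contra hcon
          apply hz
          refine ⟨hI, ?_⟩
          rw [Metric.mem_closedBall, dist_zero_right]
          exact le_trans (not_lt.1 hcon) (S.R_le i)
        have := hRq.2.2.2 i z.1 hI z.2 hx
        filter_upwards [this] with w hw
        funext j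
        simp only [W.Fin'.G, W.Fin'.frc_add]
        simp only [frc]
        have h1 : ∀ b, (m' b).1 i (Phi S i (w.1, w.2)) = 0 := fun b =>
          (hRm b).2.1 i w.1 w.2 hw.le
        have h2 : ∀ b, (o' b).1 i (Phi S i (w.1, w.2)) = 0 := fun b =>
          (hRo b).2.1 i w.1 w.2 hw.le
        simp [h1, h2]
      have h0 := (hev.iteratedFDeriv ℝ M).eq_of_nhds
      rw [h0]
      have : iteratedFDeriv ℝ M (fun _ : ℝ × V3 => (0 : V3)) z = 0 := by
        have := iteratedFDeriv_fun_zero (𝕜 := ℝ) (E := ℝ × V3) (F := V3) (n := M)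
        exact congrFun this z
      rw [this, norm_zero]
      exact hrhs
  · have hmu : ∀ i, 0 ≤ (1 + S.a i) / (S.Nf i * S.rho i) := fun i => by
      have := S.a_nonneg i
      have := hNpos i
      positivity
    exact WKB2.avg hA1 hA2 hA3 hI2 S hR3 ze hze hze0 hze1 V' _ hmu hVs'
      (fun i t x ht b => (hzero' i t (Phi S i (t, x)) (heta0 i t ht) rfl).1 b)

end Pool.Agent.Work.MP_b0497c_an.Forced.S
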